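import Mathlib

/-!
# Chains of circles and segments in an annulus: the definitions

These are the definitions of the problem file: annuli, inscribed circles, chords of the outer
circle tangent to the inner circle, chains for a word in the letters `c` and `s`, closure
sequences.
-/

namespace Pool.Agent.Work.MP_68e044_gt

open Metric

/-- The two letters: `c` (circle) and `s` (segment). -/
inductive Letter
  | c
  | s
  deriving DecidableEq

/-- An annulus: the circle with centre `o` and radius `r` lies inside the open disc bounded by the
circle with centre `O` and radius `R`. -/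
structure Annulus where
  /-- centre of the inner circle -/
  o : ℂ
  /-- radius of the inner circle -/
  r : ℝ
  /-- centre of the outer circle -/
  O : ℂ
  /-- radius of the outer circle -/
  R : ℝ
  r_pos : 0 < r
  inside : dist o O + r < R

namespace Annulus

/-- The inner circle. -/
def inner (a : Annulus) : Set ℂ := sphere a.o a.r

/-- The outer circle. -/
def outer (a : Annulus) : Set ℂ := sphere a.O a.R

/-- The closed region between the two circles. -/
def region (a : Annulus) : Set ℂ := closedBall a.O a.R \ ball a.o a.r

/-- `S` is a circle in the closed region tangent to both boundary circles. -/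
def IsInscribed (a : Annulus) (S : Set ℂ) : Prop :=
  ∃ (z : ℂ) (ρ : ℝ), 0 < ρ ∧ S = sphere z ρ ∧ S ⊆ a.region ∧
    (∃ x, S ∩ a.inner = {x}) ∧ (∃ y, S ∩ a.outer = {y})

/-- `S` is a chord of the outer circle touching the inner circle in exactly one point. -/
def IsTangentChord (a : Annulus) (S : Set ℂ) : Prop :=
  ∃ p q : ℂ, p ∈ a.outer ∧ q ∈ a.outer ∧ p ≠ q ∧ S = segment ℝ p q ∧ ∃ t, S ∩ a.inner = {t}

/-- The objects of the chain: an inscribed circle for the letter `c`, a tangent chord for the
letter `s`. -/
def IsObj (a : Annulus) : Letter → Set ℂ → Prop
  | .c, S => a.IsInscribed S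
  | .s, S => a.IsTangentChord S

/-- `p` is the contact point of the objects `S`, `T` (of kinds `k`, `l`): the two sets meet
exactly in `p`, and if both are chords then `p` is a common endpoint (it lies on the outer
circle). -/
def Contact (a : Annulus) (k l : Letter) (S T : Set ℂ) (p : ℂ) : Prop :=
  S ∩ T = {p} ∧ (k = .s → l = .s → p ∈ a.outer)

/-- The points `p`, `q` of the object `S` are separated on `S`: for a circle by its contact points
`x`, `y` with the two boundary circles (`p` and `q` lie strictly on opposite sides of the line
`xy`), for a chord by its point of tangency `t` with the inner circle (`t` lies strictly between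
`p` and `q`). -/
def Separated (a : Annulus) : Letter → Set ℂ → ℂ → ℂ → Prop
  | .c, S, p, q => ∃ x y, S ∩ a.inner = {x} ∧ S ∩ a.outer = {y} ∧ (line[ℝ, x, y]).SOppSide p q
  | .s, S, p, q => ∃ t, S ∩ a.inner = {t} ∧ Sbtw ℝ p t q

end Annulus

/-- The letter of the word `w` with (0-based) index `i`, read cyclically. -/
def letterAt (w : List Letter) (i : ℕ) : Letter := w.getD (i % w.length) .c

/-- `u 0, …, u n` (with `n` the length of `w`) is a `w`-chain in the annulus `a`, where `p i` is
the contact point of `u i` and `u (i + 1)`. -/
structure WChain (a : Annulus) (w : List Letter) (u : ℕ → Set ℂ) (p : ℕ → ℂ) : Prop where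
  obj : ∀ i ≤ w.length, a.IsObj (letterAt w i) (u i)
  contact : ∀ i < w.length,
    a.Contact (letterAt w i) (letterAt w (i + 1)) (u i) (u (i + 1)) (p i)
  sep : ∀ i, i + 1 < w.length → a.Separated (letterAt w (i + 1)) (u (i + 1)) (p i) (p (i + 1))

/-- The (nonempty) word `w` is a closure sequence: in every annulus, if one `w`-chain closes then
every `w`-chain closes; and some `w`-chain closes in some annulus. -/
def IsClosureSeq (w : List Letter) : Prop :=
  w ≠ [] ∧
  (∀ a : Annulus, (∃ u p, WChain a w u p ∧ u w.length = u 0) →
    ∀ u p, WChain a w u p → u w.length = u 0) ∧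
  ∃ a : Annulus, ∃ u p, WChain a w u p ∧ u w.length = u 0

/-- The concatenation of `m` copies of the word `w`. -/
def wordPow (w : List Letter) (m : ℕ) : List Letter := (List.replicate m w).flatten

end Pool.Agent.Work.MP_68e044_gt
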