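import Mathlib
import Pool.Agent.Work.MP_68e044_gt.Defs

/-!
# The angle model

For an annulus with parameters `r`, `R`, `d` (distance of the centres) the inscribed circles and
the tangent chords are parametrised by a real angle modulo `2π`; a step of a chain (from an object
of kind `k` at angle `x` to the next object, of kind `l`) sends `x` to `f k l x`.
-/

namespace Pool.Agent.Work.MP_68e044_gt

open Real

/-- The parameters of an annulus up to congruence. -/
structure Par where
  r : ℝ
  R : ℝ
  d : ℝ
  hr : 0 < r
  hd : 0 ≤ d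
  hR : d + r < R

namespace Par

variable (p : Par)

/-- `N x = 2 Q x ρ x`, where `ρ x` is the radius of the inscribed circle at angle `x`. -/
noncomputable def N (x : ℝ) : ℝ := p.R ^ 2 - p.r ^ 2 - p.d ^ 2 + 2 * p.d * p.r * cos x

noncomputable def Q (x : ℝ) : ℝ := p.R + p.r - p.d * cos x

noncomputable def P (x : ℝ) : ℝ := p.R - p.r + p.d * cos x

noncomputable def W : ℝ := (p.R + p.r) ^ 2 - p.d ^ 2

/-- The square-root part of the denominator of a step. -/
noncomputable def S : Letter → Letter → ℝ → ℝ
  | .c, .c, _ => √(4 * p.r * p.R * p.W)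
  | .c, .s, x => √(2 * p.r * p.Q x * p.N x)
  | .s, .c, x => √(2 * p.r * p.W * p.P x)
  | .s, .s, x => p.r * √(p.P x * p.Q x)

/-- The coefficient of `d r sin x` in the denominator of a step. -/
noncomputable def m : Letter → Letter → ℝ
  | .c, .c => 2
  | .c, .s => 0
  | .s, .c => 2
  | .s, .s => 1

/-- The denominator of a step: `tan ((f k l x - x) / 2) = N x / D k l x`. -/
noncomputable def D (k l : Letter) (x : ℝ) : ℝ := p.S k l x + m k l * (p.d * p.r * sin x)

/-- The step map, from an object of kind `k` to an object of kind `l`. -/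
noncomputable def f (k l : Letter) (x : ℝ) : ℝ := x + π - 2 * arctan (p.D k l x / p.N x)

/-- The tangency relation of two objects at angles `x`, `y` in trigonometric form. -/
def Rel : Letter → Letter → ℝ → ℝ → Prop
  | .c, .c, x, y => p.W ^ 2 * sin ((y - x) / 2) ^ 2 = p.N x * p.N y
  | .c, .s, x, y => p.W * sin ((y - x) / 2) ^ 2 = p.N x
  | .s, .c, x, y => p.W * sin ((y - x) / 2) ^ 2 = p.N y
  | .s, .s, x, y => p.r ^ 2 - p.d * p.r * (cos x + cos y)
      = (p.R ^ 2 - p.d ^ 2) * cos ((y - x) / 2) ^ 2

/-- The orbit of the angle `x` under the steps prescribed by the sequence of letters `a`. -/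
noncomputable def orb (a : ℕ → Letter) (x : ℝ) : ℕ → ℝ
  | 0 => x
  | i + 1 => p.f (a i) (a (i + 1)) (orb a x i)

end Par

end Pool.Agent.Work.MP_68e044_gt
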