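import Mathlib
import Pool.Agent.Work.MP_68e044_gt.Angle

/-!
# Basic facts on the step maps: positivity, formulas, the tangency relation
-/

namespace Pool.Agent.Work.MP_68e044_gt

open Real

/-- `cos` of the new angle. -/
theorem cos_add_two_arctan (x T : ℝ) :
    cos (x + 2 * arctan T) = (cos x * (1 - T ^ 2) - 2 * sin x * T) / (1 + T ^ 2) := by
  have h0 : (0 : ℝ) < 1 + T ^ 2 := by positivity
  have hc : cos (2 * arctan T) = (1 - T ^ 2) / (1 + T ^ 2) := by
    rw [cos_two_mul, cos_sq_arctan]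
    field_simp
    ring
  have hs : sin (2 * arctan T) = 2 * T / (1 + T ^ 2) := by
    rw [sin_two_mul]
    have : sin (arctan T) * cos (arctan T) = T / (1 + T ^ 2) := by
      rw [← tan_mul_cos (cos_arctan_pos T).ne', tan_arctan, mul_assoc, ← sq, cos_sq_arctan]
      field_simp
    linear_combination 2 * this
  rw [cos_add, hc, hs]
  field_simp

theorem sin_add_two_arctan (x T : ℝ) :
    sin (x + 2 * arctan T) = (sin x * (1 - T ^ 2) + 2 * cos x * T) / (1 + T ^ 2) := by
  have h0 : (0 : ℝ) < 1 + T ^ 2 := by positivity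
  have hc : cos (2 * arctan T) = (1 - T ^ 2) / (1 + T ^ 2) := by
    rw [cos_two_mul, cos_sq_arctan]
    field_simp
    ring
  have hs : sin (2 * arctan T) = 2 * T / (1 + T ^ 2) := by
    rw [sin_two_mul]
    have : sin (arctan T) * cos (arctan T) = T / (1 + T ^ 2) := by
      rw [← tan_mul_cos (cos_arctan_pos T).ne', tan_arctan, mul_assoc, ← sq, cos_sq_arctan]
      field_simp
    linear_combination 2 * this
  rw [sin_add, hc, hs]
  field_simp

namespace Par

variable (p : Par)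

theorem N_eq (x : ℝ) : p.N x = (p.R - p.r - p.d) * (p.R + p.r + p.d) +
    2 * p.d * p.r * (1 + cos x) := by
  unfold N; ring

theorem N_pos (x : ℝ) : 0 < p.N x := by
  have hr := p.hr
  have hd := p.hd
  have hR := p.hR
  have h1 : 0 < (p.R - p.r - p.d) * (p.R + p.r + p.d) :=
    mul_pos (by linarith) (by linarith)
  have h2 : 0 ≤ 2 * p.d * p.r * (1 + cos x) :=
    mul_nonneg (by positivity) (by linarith [neg_one_le_cos x])
  rw [N_eq]; linarith

theorem Q_pos (x : ℝ) : 0 < p.Q x := by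
  have hr := p.hr
  have hd := p.hd
  have hR := p.hR
  have : p.d * cos x ≤ p.d := by nlinarith [cos_le_one x]
  unfold Q; linarith

theorem P_pos (x : ℝ) : 0 < p.P x := by
  have hr := p.hr
  have hd := p.hd
  have hR := p.hR
  have : -p.d ≤ p.d * cos x := by nlinarith [neg_one_le_cos x]
  unfold P; linarith

theorem W_pos : 0 < p.W := by
  have hr := p.hr
  have hd := p.hd
  have hR := p.hR
  have : p.W = (p.R + p.r - p.d) * (p.R + p.r + p.d) := by unfold W; ring
  rw [this]
  exact mul_pos (by linarith) (by linarith)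

theorem W_eq (x : ℝ) : p.W = p.N x + 2 * p.r * p.Q x := by
  unfold W N Q; ring

theorem PQ_eq (x : ℝ) : p.P x * p.Q x = p.N x + p.d ^ 2 * sin x ^ 2 := by
  rw [sin_sq]
  unfold P N Q; ring

theorem key (x : ℝ) : 2 * p.r * p.d ^ 2 * sin x ^ 2 < p.Q x * p.N x := by
  have hr := p.hr
  have hd := p.hd
  have hR := p.hR
  have h1 : 0 < (p.R - p.r + p.d) * (p.R + p.r - p.d) * (p.R + p.r - p.d) :=
    mul_pos (mul_pos (by linarith) (by linarith)) (by linarith)
  have h2 : 0 < (p.R - p.r - p.d) * (p.R + p.r + p.d) * (p.R + p.r + p.d) :=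
    mul_pos (mul_pos (by linarith) (by linarith)) (by linarith)
  have e : p.Q x * p.N x - 2 * p.r * p.d ^ 2 * sin x ^ 2 =
      (1 + cos x) / 2 * ((p.R - p.r + p.d) * (p.R + p.r - p.d) * (p.R + p.r - p.d)) +
      (1 - cos x) / 2 * ((p.R - p.r - p.d) * (p.R + p.r + p.d) * (p.R + p.r + p.d)) := by
    rw [sin_sq]
    unfold Q N; ring
  have hc1 := neg_one_le_cos x
  have hc2 := cos_le_one x
  have : 0 < p.Q x * p.N x - 2 * p.r * p.d ^ 2 * sin x ^ 2 := by
    rw [e]
    rcases le_or_gt (cos x) 0 with h | h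
    · have := mul_pos (by linarith : 0 < (1 - cos x) / 2) h2
      have := mul_nonneg (by linarith : 0 ≤ (1 + cos x) / 2) h1.le
      linarith
    · have := mul_nonneg (by linarith : 0 ≤ (1 - cos x) / 2) h2.le
      have := mul_pos (by linarith : 0 < (1 + cos x) / 2) h1
      linarith
  linarith

theorem N_neg' (x : ℝ) : p.N (-x) = p.N x := by
  unfold N; rw [cos_neg]

theorem R_pos : 0 < p.R := by
  have hr := p.hr
  have hd := p.hd
  have hR := p.hR
  linarith

theorem S_neg (k l : Letter) (x : ℝ) : p.S k l (-x) = p.S k l x := by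
  cases k <;> cases l <;> simp [S, N, P, Q]

theorem D_neg (k l : Letter) (x : ℝ) : p.D k l (-x) = p.S k l x - m k l * (p.d * p.r * sin x) := by
  unfold D
  rw [S_neg, sin_neg]; ring

/-- The opposite value of `N`. -/
theorem N_opp_pos (x : ℝ) : 0 < p.R ^ 2 - p.r ^ 2 - p.d ^ 2 - 2 * p.d * p.r * cos x := by
  have h := p.N_pos (x + π)
  unfold N at h
  rw [cos_add_pi] at h
  linarith

theorem N_opp_lt (x : ℝ) : p.R ^ 2 - p.r ^ 2 - p.d ^ 2 - 2 * p.d * p.r * cos x < p.W := by
  have h := p.W_eq (x + π)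
  have hQ := p.Q_pos (x + π)
  have hr := p.hr
  unfold N at h
  rw [cos_add_pi] at h
  have : 0 < 2 * p.r * p.Q (x + π) := by positivity
  linarith

theorem S_sq (k l : Letter) (x : ℝ) :
    p.S k l x ^ 2 - (m k l * (p.d * p.r * sin x)) ^ 2 =
      match k, l with
      | .c, .c => p.W ^ 2 - p.N x * (p.R ^ 2 - p.r ^ 2 - p.d ^ 2 - 2 * p.d * p.r * cos x)
      | .c, .s => 2 * p.r * p.Q x * p.N x
      | .s, .c => 2 * p.r * p.N x * (p.R + p.r + p.d * cos x)
      | .s, .s => p.r ^ 2 * p.N x := by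
  have hr := p.hr
  have hR := p.R_pos
  have hW := p.W_pos
  have hN := p.N_pos x
  have hP := p.P_pos x
  have hQ := p.Q_pos x
  cases k <;> cases l
  · simp only [S, m]
    rw [sq_sqrt (by positivity)]
    have := sin_sq x
    rw [mul_pow, mul_pow, sin_sq]
    unfold W N; ring
  · simp only [S, m]
    rw [sq_sqrt (by positivity)]
    ring
  · simp only [S, m]
    rw [sq_sqrt (by positivity), mul_pow, mul_pow, sin_sq]
    unfold W N P; ring
  · simp only [S, m]
    rw [mul_pow, sq_sqrt (by positivity), PQ_eq]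
    ring

theorem S_sq_pos (k l : Letter) (x : ℝ) :
    0 < p.S k l x ^ 2 - (m k l * (p.d * p.r * sin x)) ^ 2 := by
  have hr := p.hr
  have hR := p.R_pos
  have hd := p.hd
  have hW := p.W_pos
  have hN := p.N_pos x
  have hP := p.P_pos x
  have hQ := p.Q_pos x
  rw [S_sq]
  cases k <;> cases l
  · have h1 := p.N_opp_pos x
    have h2 := p.N_opp_lt x
    have h3 : p.N x < p.W := by
      have := p.W_eq x
      have : 0 < 2 * p.r * p.Q x := by positivity
      linarith
    have : p.N x * (p.R ^ 2 - p.r ^ 2 - p.d ^ 2 - 2 * p.d * p.r * cos x) < p.W * p.W :=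
      mul_lt_mul h3 h2.le h1 hW.le
    simp only
    nlinarith
  · simp only; positivity
  · have : 0 < p.R + p.r + p.d * cos x := by
      unfold P at hP; linarith
    simp only; positivity
  · simp only; positivity

theorem S_pos (k l : Letter) (x : ℝ) : 0 < p.S k l x := by
  have hr := p.hr
  have hR := p.R_pos
  have hW := p.W_pos
  have hN := p.N_pos x
  have hP := p.P_pos x
  have hQ := p.Q_pos x
  cases k <;> cases l <;> simp only [S]
  · exact sqrt_pos.mpr (by positivity)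
  · exact sqrt_pos.mpr (by positivity)
  · exact sqrt_pos.mpr (by positivity)
  · exact mul_pos hr (sqrt_pos.mpr (by positivity))

theorem D_pos (k l : Letter) (x : ℝ) : 0 < p.D k l x := by
  have h1 := p.S_sq_pos k l x
  have h2 := p.S_pos k l x
  have h3 : |m k l * (p.d * p.r * sin x)| < p.S k l x := abs_lt_of_sq_lt_sq (by linarith) h2.le
  unfold D
  linarith [(abs_lt.mp h3).1]

theorem D_mul (k l : Letter) (x : ℝ) :
    p.D k l x * p.D k l (-x) = p.S k l x ^ 2 - (m k l * (p.d * p.r * sin x)) ^ 2 := by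
  rw [D_neg]; unfold D; ring

theorem D_sub (k l : Letter) (x : ℝ) :
    p.D k l x - p.D k l (-x) = 2 * (m k l * (p.d * p.r * sin x)) := by
  rw [D_neg]; unfold D; ring

theorem f_eq (k l : Letter) (x : ℝ) : p.f k l x = x + 2 * arctan (p.N x / p.D k l x) := by
  have h1 := p.D_pos k l x
  have h2 := p.N_pos x
  have h3 : p.D k l x / p.N x = (p.N x / p.D k l x)⁻¹ := by rw [inv_div]
  unfold f
  rw [h3, arctan_inv_of_pos (by positivity)]
  ring

theorem f_add_two_pi (k l : Letter) (x : ℝ) : p.f k l (x + 2 * π) = p.f k l x + 2 * π := by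
  have hN : p.N (x + 2 * π) = p.N x := by unfold N; rw [cos_add_two_pi]
  have hD : p.D k l (x + 2 * π) = p.D k l x := by
    unfold D
    have : p.S k l (x + 2 * π) = p.S k l x := by
      cases k <;> cases l <;> simp only [S, N, P, Q, cos_add_two_pi]
    rw [this, sin_add_two_pi]
  unfold f
  rw [hN, hD]; ring

theorem lt_f (k l : Letter) (x : ℝ) : x < p.f k l x := by
  have h1 := p.D_pos k l x
  have h2 := p.N_pos x
  rw [f_eq]
  have : 0 < arctan (p.N x / p.D k l x) := arctan_pos.mpr (by positivity)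
  linarith

theorem f_lt (k l : Letter) (x : ℝ) : p.f k l x < x + π := by
  rw [f_eq]
  have := arctan_lt_pi_div_two (p.N x / p.D k l x)
  linarith

theorem tan_half_f (k l : Letter) (x : ℝ) :
    tan ((p.f k l x - x) / 2) = p.N x / p.D k l x := by
  rw [f_eq]
  have : (x + 2 * arctan (p.N x / p.D k l x) - x) / 2 = arctan (p.N x / p.D k l x) := by ring
  rw [this, tan_arctan]

/-- The tangency relation as a quadratic equation in `T = tan ((y - x) / 2)`. -/
theorem rel_iff_quad (k l : Letter) (x T : ℝ) :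
    p.Rel k l x (x + 2 * arctan T) ↔
      (p.D k l x * T - p.N x) * (p.D k l (-x) * T + p.N x) = 0 := by
  have h0 : (0 : ℝ) < 1 + T ^ 2 := by positivity
  have hN := p.N_pos x
  have hhalf : (x + 2 * arctan T - x) / 2 = arctan T := by ring
  have hcos : cos (arctan T) ^ 2 = 1 / (1 + T ^ 2) := cos_sq_arctan T
  have hsin : sin (arctan T) ^ 2 = T ^ 2 / (1 + T ^ 2) := by
    rw [sin_sq, hcos]; field_simp; ring
  have hquad : (p.D k l x * T - p.N x) * (p.D k l (-x) * T + p.N x) =
      (p.S k l x ^ 2 - (m k l * (p.d * p.r * sin x)) ^ 2) * T ^ 2 +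
        2 * (m k l * (p.d * p.r * sin x)) * p.N x * T - p.N x ^ 2 := by
    rw [← D_mul, ← D_sub]; ring
  rw [hquad, S_sq]
  have hNy : p.N (x + 2 * arctan T) = p.R ^ 2 - p.r ^ 2 - p.d ^ 2 +
      2 * p.d * p.r * ((cos x * (1 - T ^ 2) - 2 * sin x * T) / (1 + T ^ 2)) := by
    unfold N; rw [cos_add_two_arctan]
  have hNx : p.N x = p.R ^ 2 - p.r ^ 2 - p.d ^ 2 + 2 * p.d * p.r * cos x := rfl
  cases k <;> cases l <;> simp only [Rel, m]
  · rw [hhalf, hsin, hNy, ← sub_eq_zero]
    have e : p.W ^ 2 * (T ^ 2 / (1 + T ^ 2)) - p.N x * (p.R ^ 2 - p.r ^ 2 - p.d ^ 2 +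
      2 * p.d * p.r * ((cos x * (1 - T ^ 2) - 2 * sin x * T) / (1 + T ^ 2))) =
      ((p.W ^ 2 - p.N x * (p.R ^ 2 - p.r ^ 2 - p.d ^ 2 - 2 * p.d * p.r * cos x)) * T ^ 2 +
        2 * (2 * (p.d * p.r * sin x)) * p.N x * T - p.N x ^ 2) / (1 + T ^ 2) := by
      rw [hNx]; field_simp; ring
    rw [e, div_eq_zero_iff]
    simp [h0.ne']
  · rw [hhalf, hsin, ← sub_eq_zero]
    have e : p.W * (T ^ 2 / (1 + T ^ 2)) - p.N x =
      (2 * p.r * p.Q x * p.N x * T ^ 2 +
        2 * (0 * (p.d * p.r * sin x)) * p.N x * T - p.N x ^ 2) / (p.N x * (1 + T ^ 2)) := by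
      rw [p.W_eq x]; field_simp; ring
    rw [e, div_eq_zero_iff]
    simp [h0.ne', hN.ne']
  · rw [hhalf, hsin, hNy, ← sub_eq_zero]
    have e : p.W * (T ^ 2 / (1 + T ^ 2)) - (p.R ^ 2 - p.r ^ 2 - p.d ^ 2 +
      2 * p.d * p.r * ((cos x * (1 - T ^ 2) - 2 * sin x * T) / (1 + T ^ 2))) =
      (2 * p.r * p.N x * (p.R + p.r + p.d * cos x) * T ^ 2 +
        2 * (2 * (p.d * p.r * sin x)) * p.N x * T - p.N x ^ 2) / (p.N x * (1 + T ^ 2)) := by
      rw [eq_div_iff (by positivity)]
      have : p.W * (T ^ 2 / (1 + T ^ 2)) - (p.R ^ 2 - p.r ^ 2 - p.d ^ 2 +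
        2 * p.d * p.r * ((cos x * (1 - T ^ 2) - 2 * sin x * T) / (1 + T ^ 2))) =
        (p.W * T ^ 2 - (p.R ^ 2 - p.r ^ 2 - p.d ^ 2) * (1 + T ^ 2) -
          2 * p.d * p.r * (cos x * (1 - T ^ 2) - 2 * sin x * T)) / (1 + T ^ 2) := by
        field_simp
        ring
      rw [this]
      have h2 : p.W * T ^ 2 - (p.R ^ 2 - p.r ^ 2 - p.d ^ 2) * (1 + T ^ 2) -
          2 * p.d * p.r * (cos x * (1 - T ^ 2) - 2 * sin x * T) =
          2 * p.r * (p.R + p.r + p.d * cos x) * T ^ 2 + 2 * (2 * (p.d * p.r * sin x)) * T -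
            p.N x := by
        rw [hNx]; unfold W; ring
      rw [h2]
      field_simp
    rw [e, div_eq_zero_iff]
    simp [h0.ne', hN.ne']
  · rw [hhalf, hcos, cos_add_two_arctan, ← sub_eq_zero]
    have e : p.r ^ 2 - p.d * p.r * (cos x + (cos x * (1 - T ^ 2) - 2 * sin x * T) / (1 + T ^ 2)) -
        (p.R ^ 2 - p.d ^ 2) * (1 / (1 + T ^ 2)) =
      (p.r ^ 2 * p.N x * T ^ 2 +
        2 * (1 * (p.d * p.r * sin x)) * p.N x * T - p.N x ^ 2) / (p.N x * (1 + T ^ 2)) := by
      rw [eq_div_iff (by positivity)]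
      have : p.r ^ 2 - p.d * p.r *
            (cos x + (cos x * (1 - T ^ 2) - 2 * sin x * T) / (1 + T ^ 2)) -
          (p.R ^ 2 - p.d ^ 2) * (1 / (1 + T ^ 2)) =
        ((p.r ^ 2 - p.d * p.r * cos x) * (1 + T ^ 2) -
          p.d * p.r * (cos x * (1 - T ^ 2) - 2 * sin x * T) - (p.R ^ 2 - p.d ^ 2)) /
            (1 + T ^ 2) := by
        field_simp
        ring
      rw [this]
      have h2 : (p.r ^ 2 - p.d * p.r * cos x) * (1 + T ^ 2) -
          p.d * p.r * (cos x * (1 - T ^ 2) - 2 * sin x * T) - (p.R ^ 2 - p.d ^ 2) =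
          p.r ^ 2 * T ^ 2 + 2 * (1 * (p.d * p.r * sin x)) * T - p.N x := by
        rw [hNx]; ring
      rw [h2]
      field_simp
    rw [e, div_eq_zero_iff]
    simp [h0.ne', hN.ne']

theorem rel_f (k l : Letter) (x : ℝ) : p.Rel k l x (p.f k l x) := by
  rw [f_eq, rel_iff_quad]
  have h1 := p.D_pos k l x
  rw [mul_div_cancel₀ _ h1.ne', sub_self, zero_mul]

theorem eq_f_of_rel {k l : Letter} {x y : ℝ} (h1 : x < y) (h2 : y < x + π) (h : p.Rel k l x y) :
    y = p.f k l x := by
  have hD := p.D_pos k l x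
  have hD' := p.D_pos k l (-x)
  have hN := p.N_pos x
  set T := tan ((y - x) / 2) with hT
  have hT0 : 0 < T := tan_pos_of_pos_of_lt_pi_div_two (by linarith) (by linarith)
  have harc : arctan T = (y - x) / 2 := arctan_tan (by linarith [pi_pos]) (by linarith)
  have hy : y = x + 2 * arctan T := by rw [harc]; ring
  rw [hy, rel_iff_quad] at h
  have h3 : 0 < p.D k l (-x) * T + p.N x := by positivity
  have h4 : p.D k l x * T - p.N x = 0 := by
    rcases mul_eq_zero.mp h with h5 | h5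
    · exact h5
    · exact absurd h5 h3.ne'
  have h5 : T = p.N x / p.D k l x := by
    rw [eq_div_iff hD.ne']; linarith
  rw [f_eq, ← h5, ← hy]

theorem rel_neg {k l : Letter} {x y : ℝ} (h : p.Rel k l x y) : p.Rel l k (-y) (-x) := by
  have e : (-x - -y) / 2 = (y - x) / 2 := by ring
  cases k <;> cases l <;> simp only [Rel] at h ⊢ <;> rw [e]
  · rw [N_neg', N_neg', h]; ring
  · rw [N_neg', h]
  · rw [N_neg', h]
  · rw [cos_neg, cos_neg, ← h]; ring

theorem f_neg_f (k l : Letter) (x : ℝ) : p.f l k (-(p.f k l x)) = -x := by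
  have h1 := p.lt_f k l x
  have h2 := p.f_lt k l x
  exact (p.eq_f_of_rel (by linarith) (by linarith) (p.rel_neg (p.rel_f k l x))).symm

end Par

end Pool.Agent.Work.MP_68e044_gt
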