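import Mathlib
import Pool.Agent.Work.MP_68e044_gt.Basic

/-!
# The derivatives of the step maps
-/

namespace Pool.Agent.Work.MP_68e044_gt

open Real

namespace Par

variable (p : Par)

theorem hasDerivAt_N (x : ℝ) : HasDerivAt p.N (-(2 * p.d * p.r * sin x)) x := by
  have h : HasDerivAt (fun x => p.R ^ 2 - p.r ^ 2 - p.d ^ 2 + 2 * p.d * p.r * cos x)
      (2 * p.d * p.r * -sin x) x :=
    ((hasDerivAt_cos x).const_mul (2 * p.d * p.r)).const_add (p.R ^ 2 - p.r ^ 2 - p.d ^ 2)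
  exact h.congr_deriv (by ring)

theorem hasDerivAt_Q (x : ℝ) : HasDerivAt p.Q (p.d * sin x) x := by
  have h : HasDerivAt (fun x => p.R + p.r - p.d * cos x) (-(p.d * -sin x)) x :=
    ((hasDerivAt_cos x).const_mul p.d).const_sub (p.R + p.r)
  exact h.congr_deriv (by ring)

theorem hasDerivAt_P (x : ℝ) : HasDerivAt p.P (-(p.d * sin x)) x := by
  have h : HasDerivAt (fun x => p.R - p.r + p.d * cos x) (p.d * -sin x) x :=
    ((hasDerivAt_cos x).const_mul p.d).const_add (p.R - p.r)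
  exact h.congr_deriv (by ring)

/-- The derivative of `x + 2 arctan (T x)`. -/
theorem hasDerivAt_arctan_form {T : ℝ → ℝ} {T' x : ℝ} (h : HasDerivAt T T' x) :
    HasDerivAt (fun y => y + 2 * arctan (T y)) (1 + 2 * T' / (1 + T x ^ 2)) x := by
  have h1 : HasDerivAt (fun y => y + 2 * arctan (T y)) (1 + 2 * (1 / (1 + T x ^ 2) * T')) x :=
    (hasDerivAt_id x).add ((h.arctan).const_mul 2)
  exact h1.congr_deriv (by ring)

theorem f_fun_eq (k l : Letter) : p.f k l = fun y => y + 2 * arctan (p.N y / p.D k l y) :=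
  funext (p.f_eq k l)

theorem hasDerivAt_f_cc (x : ℝ) :
    HasDerivAt (p.f .c .c) (p.N (p.f .c .c x) / p.N x) x := by
  have hN := p.N_pos x
  have hD := p.D_pos .c .c x
  have hDeq : p.D .c .c = fun y => √(4 * p.r * p.R * p.W) + 2 * (p.d * p.r * sin y) := rfl
  have hD' : HasDerivAt (p.D .c .c) (2 * (p.d * p.r * cos x)) x := by
    rw [hDeq]
    exact (((hasDerivAt_sin x).const_mul (p.d * p.r)).const_mul 2).const_add _
  have h : HasDerivAt (fun y => y + 2 * arctan (p.N y / p.D .c .c y)) _ x :=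
    hasDerivAt_arctan_form ((p.hasDerivAt_N x).div hD' hD.ne')
  rw [← f_fun_eq] at h
  refine h.congr_deriv ?_
  have hN2 : p.N x = p.R ^ 2 - p.r ^ 2 - p.d ^ 2 + 2 * p.d * p.r * cos x := rfl
  have hNf : p.N (p.f .c .c x) = p.R ^ 2 - p.r ^ 2 - p.d ^ 2 +
      2 * p.d * p.r * cos (p.f .c .c x) := rfl
  rw [hNf, p.f_eq .c .c x, cos_add_two_arctan]
  have h3 : p.R ^ 2 - p.r ^ 2 - p.d ^ 2 = p.N x - 2 * p.d * p.r * cos x := by
    rw [hN2]; ring
  rw [h3]
  generalize p.N x = N at *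
  generalize p.D .c .c x = D at *
  have h4 : (0 : ℝ) < D ^ 2 + N ^ 2 := by positivity
  field_simp
  ring

theorem hasDerivAt_f_cs (x : ℝ) :
    HasDerivAt (p.f .c .s) (√(p.W * p.P (p.f .c .s x)) / √(p.Q x * p.N x)) x := by
  have hN := p.N_pos x
  have hQ := p.Q_pos x
  have hW := p.W_pos
  have hr := p.hr
  have hD := p.D_pos .c .s x
  have hkey := p.key x
  have hfun : p.D .c .s = fun y => √(2 * p.r * p.Q y * p.N y) + 0 * (p.d * p.r * sin y) := rfl
  have hDeq : p.D .c .s x = √(2 * p.r * p.Q x * p.N x) := by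
    rw [hfun]; simp
  have hDsq : p.D .c .s x ^ 2 = 2 * p.r * p.Q x * p.N x := by
    rw [hDeq]; exact sq_sqrt (by positivity)
  have hD' : HasDerivAt (p.D .c .s)
      ((2 * p.r * (p.d * sin x) * p.N x + 2 * p.r * p.Q x * (-(2 * p.d * p.r * sin x))) /
        (2 * p.D .c .s x)) x := by
    have h1 : HasDerivAt (fun y => 2 * p.r * p.Q y * p.N y)
        (2 * p.r * (p.d * sin x) * p.N x + 2 * p.r * p.Q x * (-(2 * p.d * p.r * sin x))) x :=
      ((p.hasDerivAt_Q x).const_mul (2 * p.r)).mul (p.hasDerivAt_N x)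
    have h2 := h1.sqrt (by positivity : (2 * p.r * p.Q x * p.N x : ℝ) ≠ 0)
    rw [hDeq, hfun]
    have e : (fun y => √(2 * p.r * p.Q y * p.N y) + 0 * (p.d * p.r * sin y)) =
      fun y => √(2 * p.r * p.Q y * p.N y) := by
      funext y; ring
    rw [e]
    exact h2
  have h : HasDerivAt (fun y => y + 2 * arctan (p.N y / p.D .c .s y)) _ x :=
    hasDerivAt_arctan_form ((p.hasDerivAt_N x).div hD' hD.ne')
  rw [← f_fun_eq] at h
  refine h.congr_deriv ?_
  have hW2 := p.W_eq x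
  have hPQ := p.PQ_eq x
  -- the square root of `Q N`
  set q : ℝ := √(p.Q x * p.N x) with hq
  have hq0 : 0 < q := sqrt_pos.mpr (by positivity)
  have hqsq : q ^ 2 = p.Q x * p.N x := sq_sqrt (by positivity)
  have hPf : p.P (p.f .c .s x) = p.R - p.r + p.d * cos (p.f .c .s x) := rfl
  have hcosf : p.W * cos (p.f .c .s x) =
      cos x * (2 * p.r * p.Q x - p.N x) - 2 * sin x * p.D .c .s x := by
    rw [p.f_eq .c .s x, cos_add_two_arctan]
    have e1 : (p.N x / p.D .c .s x) ^ 2 = p.N x / (2 * p.r * p.Q x) := by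
      rw [div_pow, hDsq]
      field_simp
    have e2 : 1 + p.N x / (2 * p.r * p.Q x) = p.W / (2 * p.r * p.Q x) := by
      rw [hW2]; field_simp; ring
    rw [e1, e2]
    have e3 : p.N x / p.D .c .s x = p.D .c .s x / (2 * p.r * p.Q x) := by
      rw [div_eq_div_iff hD.ne' (by positivity)]
      rw [← sq, hDsq]; ring
    rw [e3]
    field_simp
  set u : ℝ := √(2 * p.r) with hu
  have hu0 : 0 < u := sqrt_pos.mpr (by positivity)
  have husq : u ^ 2 = 2 * p.r := sq_sqrt (by positivity)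
  have hDuq : p.D .c .s x = u * q := by
    rw [hDeq, hu, hq, ← sqrt_mul (by positivity)]
    congr 1; ring
  have hs2 : sin x ^ 2 = 1 - cos x ^ 2 := by
    have := sin_sq_add_cos_sq x; linarith
  have hsq : p.W * p.P (p.f .c .s x) = (q - p.d * sin x * u) ^ 2 := by
    have e1 : (q - p.d * sin x * u) ^ 2 =
        p.Q x * p.N x - 2 * p.d * sin x * p.D .c .s x + 2 * p.r * p.d ^ 2 * sin x ^ 2 := by
      rw [hDuq, ← hqsq, ← husq]; ring
    rw [e1, hPf]
    have e2 : p.W * (p.R - p.r + p.d * cos (p.f .c .s x)) =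
        p.W * (p.R - p.r) + p.d * (p.W * cos (p.f .c .s x)) := by ring
    rw [e2, hcosf, hs2]
    unfold W N Q
    ring
  have hpos : 0 < q - p.d * sin x * u := by
    have h1 : (p.d * sin x * u) ^ 2 < q ^ 2 := by
      rw [hqsq, mul_pow, husq]
      calc _ = 2 * p.r * p.d ^ 2 * sin x ^ 2 := by ring
        _ < _ := hkey
    have := lt_of_abs_lt (abs_lt_of_sq_lt_sq h1 hq0.le)
    linarith
  rw [hsq, sqrt_sq hpos.le]
  have hden : 1 + (p.N x / p.D .c .s x) ^ 2 = p.N x * p.W / p.D .c .s x ^ 2 := by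
    rw [div_pow, eq_div_iff (by positivity), add_mul, div_mul_cancel₀ _ (by positivity), hDsq, hW2]
    ring
  rw [hden]
  have hnum : -(2 * p.d * p.r * sin x) * p.D .c .s x - p.N x *
      ((2 * p.r * (p.d * sin x) * p.N x + 2 * p.r * p.Q x * (-(2 * p.d * p.r * sin x))) /
        (2 * p.D .c .s x)) = - (p.r * p.d * sin x * p.N x * p.W / p.D .c .s x) := by
    rw [← mul_right_inj' hD.ne']
    have h1 : p.D .c .s x * (-(2 * p.d * p.r * sin x) * p.D .c .s x - p.N x *
      ((2 * p.r * (p.d * sin x) * p.N x + 2 * p.r * p.Q x * (-(2 * p.d * p.r * sin x))) /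
        (2 * p.D .c .s x))) = -(2 * p.d * p.r * sin x) * p.D .c .s x ^ 2 - p.N x *
      ((2 * p.r * (p.d * sin x) * p.N x + 2 * p.r * p.Q x * (-(2 * p.d * p.r * sin x))) / 2) := by
      field_simp
    rw [h1, hDsq, hW2]
    field_simp
    ring
  rw [hnum, hDuq]
  have hDD : p.r = u ^ 2 / 2 := by rw [husq]; ring
  field_simp
  rw [hDD]
  ring

theorem P_neg (x : ℝ) : p.P (-x) = p.P x := by
  unfold P; rw [cos_neg]

theorem Q_neg (x : ℝ) : p.Q (-x) = p.Q x := by
  unfold Q; rw [cos_neg]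

theorem N_neg (x : ℝ) : p.N (-x) = p.N x := by
  unfold N; rw [cos_neg]

theorem hasDerivAt_f_sc (x : ℝ) :
    HasDerivAt (p.f .s .c) (√(p.Q (p.f .s .c x) * p.N (p.f .s .c x)) / √(p.W * p.P x)) x := by
  have hN := p.N_pos x
  have hP := p.P_pos x
  have hW := p.W_pos
  have hr := p.hr
  have hD := p.D_pos .s .c x
  have hdiffD : DifferentiableAt ℝ (p.D .s .c) x := by
    have h1 : HasDerivAt (fun y => 2 * p.r * p.W * p.P y) (2 * p.r * p.W * (-(p.d * sin x))) x :=
      (p.hasDerivAt_P x).const_mul (2 * p.r * p.W)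
    have h2 := h1.sqrt (by positivity : (2 * p.r * p.W * p.P x : ℝ) ≠ 0)
    have h3 : HasDerivAt (fun y => 2 * (p.d * p.r * sin y)) (2 * (p.d * p.r * cos x)) x :=
      ((hasDerivAt_sin x).const_mul (p.d * p.r)).const_mul 2
    exact (h2.add h3).differentiableAt
  have hdiff : DifferentiableAt ℝ (p.f .s .c) x := by
    have h : HasDerivAt (fun y => y + 2 * arctan (p.N y / p.D .s .c y)) _ x :=
      hasDerivAt_arctan_form ((p.hasDerivAt_N x).div hdiffD.hasDerivAt hD.ne')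
    rw [← f_fun_eq] at h
    exact h.differentiableAt
  -- differentiate `f_cs (- f_sc x) = - x`
  have hcomp : HasDerivAt (fun y => p.f .c .s (-(p.f .s .c y)))
      (√(p.W * p.P (p.f .c .s (-(p.f .s .c x)))) /
        √(p.Q (-(p.f .s .c x)) * p.N (-(p.f .s .c x))) * (-(deriv (p.f .s .c) x))) x :=
    HasDerivAt.comp (h := fun y => -(p.f .s .c y)) x (p.hasDerivAt_f_cs (-(p.f .s .c x)))
      hdiff.hasDerivAt.neg
  have hfun : (fun y => p.f .c .s (-(p.f .s .c y))) = fun y => -y := by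
    funext y; exact p.f_neg_f .s .c y
  rw [hfun] at hcomp
  have huniq := hcomp.unique (hasDerivAt_neg x)
  rw [p.f_neg_f .s .c x, P_neg, Q_neg, N_neg] at huniq
  have h1 : 0 < √(p.W * p.P x) := sqrt_pos.mpr (by positivity)
  have h2 : 0 < √(p.Q (p.f .s .c x) * p.N (p.f .s .c x)) :=
    sqrt_pos.mpr (mul_pos (p.Q_pos _) (p.N_pos _))
  refine hdiff.hasDerivAt.congr_deriv ?_
  field_simp at huniq ⊢
  linarith

theorem hasDerivAt_f_ss (x : ℝ) :
    HasDerivAt (p.f .s .s) (√(p.P (p.f .s .s x) * p.Q (p.f .s .s x)) / √(p.P x * p.Q x)) x := by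
  have hN := p.N_pos x
  have hQ := p.Q_pos x
  have hP := p.P_pos x
  have hr := p.hr
  have hD := p.D_pos .s .s x
  have hPQ := p.PQ_eq x
  have hfun : p.D .s .s = fun y => p.r * √(p.P y * p.Q y) + 1 * (p.d * p.r * sin y) := rfl
  set q : ℝ := √(p.P x * p.Q x) with hq
  have hq0 : 0 < q := sqrt_pos.mpr (by positivity)
  have hqsq : q ^ 2 = p.P x * p.Q x := sq_sqrt (by positivity)
  have hDeq : p.D .s .s x = p.r * (q + p.d * sin x) := by
    rw [hfun]; simp only [hq]; ring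
  have hqd : 0 < q + p.d * sin x := by
    rw [hDeq] at hD
    exact (mul_pos_iff_of_pos_left hr).mp hD
  set t : ℝ := q - p.d * sin x with ht
  have hNt : p.N x = t * (q + p.d * sin x) := by
    have : t * (q + p.d * sin x) = q ^ 2 - p.d ^ 2 * sin x ^ 2 := by rw [ht]; ring
    rw [this, hqsq, hPQ]; ring
  have ht0 : 0 < t := by
    rw [hNt] at hN
    exact (mul_pos_iff_of_pos_right hqd).mp hN
  have hND : p.N x / p.D .s .s x = t / p.r := by
    rw [hDeq, hNt]; field_simp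
  have hq' : HasDerivAt (fun y => √(p.P y * p.Q y))
      ((-(p.d * sin x) * p.Q x + p.P x * (p.d * sin x)) / (2 * q)) x :=
    ((p.hasDerivAt_P x).mul (p.hasDerivAt_Q x)).sqrt (mul_pos hP hQ).ne'
  have hD' : HasDerivAt (p.D .s .s)
      (p.r * ((-(p.d * sin x) * p.Q x + p.P x * (p.d * sin x)) / (2 * q)) +
        1 * (p.d * p.r * cos x)) x := by
    rw [hfun]
    exact (hq'.const_mul p.r).add (((hasDerivAt_sin x).const_mul (p.d * p.r)).const_mul 1)
  have h : HasDerivAt (fun y => y + 2 * arctan (p.N y / p.D .s .s y)) _ x :=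
    hasDerivAt_arctan_form ((p.hasDerivAt_N x).div hD' hD.ne')
  rw [← f_fun_eq] at h
  refine h.congr_deriv ?_
  have hcosf : cos (p.f .s .s x) * (p.r ^ 2 + t ^ 2) =
      cos x * (p.r ^ 2 - t ^ 2) - 2 * sin x * p.r * t := by
    rw [p.f_eq .s .s x, cos_add_two_arctan, hND]
    field_simp
  have hsinf : sin (p.f .s .s x) * (p.r ^ 2 + t ^ 2) =
      sin x * (p.r ^ 2 - t ^ 2) + 2 * cos x * p.r * t := by
    rw [p.f_eq .s .s x, sin_add_two_arctan, hND]
    field_simp
  have hrt : 0 < p.r ^ 2 + t ^ 2 := by positivity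
  have hNf : p.N (p.f .s .s x) = t ^ 2 - 2 * t * (p.d * sin (p.f .s .s x)) := by
    apply mul_right_cancel₀ hrt.ne'
    have e1 : p.N (p.f .s .s x) * (p.r ^ 2 + t ^ 2) =
      (p.N x - 2 * p.d * p.r * cos x) * (p.r ^ 2 + t ^ 2) +
        2 * p.d * p.r * (cos (p.f .s .s x) * (p.r ^ 2 + t ^ 2)) := by
      unfold N; ring
    have e2 : (t ^ 2 - 2 * t * (p.d * sin (p.f .s .s x))) * (p.r ^ 2 + t ^ 2) =
      t ^ 2 * (p.r ^ 2 + t ^ 2) - 2 * t * p.d * (sin (p.f .s .s x) * (p.r ^ 2 + t ^ 2)) := by ring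
    rw [e1, e2, hcosf, hsinf, hNt]
    have : q = t + p.d * sin x := by rw [ht]; ring
    rw [this]
    ring
  have hposf : 0 < t - p.d * sin (p.f .s .s x) := by
    have h1 := p.N_pos (p.f .s .s x)
    rw [hNf] at h1
    have h2 : 0 < t * (t - 2 * (p.d * sin (p.f .s .s x))) := by
      calc 0 < t ^ 2 - 2 * t * (p.d * sin (p.f .s .s x)) := h1
        _ = _ := by ring
    have h3 : 0 < t - 2 * (p.d * sin (p.f .s .s x)) := (mul_pos_iff_of_pos_left ht0).mp h2
    rcases le_or_gt (p.d * sin (p.f .s .s x)) 0 with h4 | h4 <;> linarith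
  have hsq : p.P (p.f .s .s x) * p.Q (p.f .s .s x) = (t - p.d * sin (p.f .s .s x)) ^ 2 := by
    rw [p.PQ_eq, hNf]; ring
  rw [hsq, sqrt_sq hposf.le]
  have hden : 1 + (p.N x / p.D .s .s x) ^ 2 = (p.r ^ 2 + t ^ 2) / p.r ^ 2 := by
    rw [hND]; field_simp
  have hQP : p.Q x - p.P x = 2 * (p.r - p.d * cos x) := by unfold Q P; ring
  have hnum : -(-(p.d * sin x) * p.Q x + p.P x * (p.d * sin x)) =
      2 * (p.d * sin x * (p.r - p.d * cos x)) := by
    calc _ = p.d * sin x * (p.Q x - p.P x) := by ring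
      _ = _ := by rw [hQP]; ring
  have hnum2 : (-(p.d * sin x) * p.Q x + p.P x * (p.d * sin x)) / (2 * q) =
      - (p.d * sin x * (p.r - p.d * cos x)) / q := by
    rw [div_eq_div_iff (by positivity) (by positivity)]
    linear_combination (-q) * hnum
  rw [hden, hnum2, hDeq, hNt, eq_div_iff hq0.ne']
  have hqt : q = t + p.d * sin x := by rw [ht]; ring
  apply mul_right_cancel₀ hrt.ne'
  have e1 : (t - p.d * sin (p.f .s .s x)) * (p.r ^ 2 + t ^ 2) =
    t * (p.r ^ 2 + t ^ 2) - p.d * (sin (p.f .s .s x) * (p.r ^ 2 + t ^ 2)) := by ring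
  rw [e1, hsinf]
  have hqd' := hqd.ne'
  field_simp
  rw [hqt]
  ring

theorem f_strictMono (k l : Letter) : StrictMono (p.f k l) := by
  cases k <;> cases l
  · refine strictMono_of_hasDerivAt_pos p.hasDerivAt_f_cc fun x => ?_
    exact div_pos (p.N_pos _) (p.N_pos _)
  · refine strictMono_of_hasDerivAt_pos p.hasDerivAt_f_cs fun x => ?_
    exact div_pos (sqrt_pos.mpr (mul_pos p.W_pos (p.P_pos _)))
      (sqrt_pos.mpr (mul_pos (p.Q_pos _) (p.N_pos _)))
  · refine strictMono_of_hasDerivAt_pos p.hasDerivAt_f_sc fun x => ?_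
    exact div_pos (sqrt_pos.mpr (mul_pos (p.Q_pos _) (p.N_pos _)))
      (sqrt_pos.mpr (mul_pos p.W_pos (p.P_pos _)))
  · refine strictMono_of_hasDerivAt_pos p.hasDerivAt_f_ss fun x => ?_
    exact div_pos (sqrt_pos.mpr (mul_pos (p.P_pos _) (p.Q_pos _)))
      (sqrt_pos.mpr (mul_pos (p.P_pos _) (p.Q_pos _)))

theorem f_continuous (k l : Letter) : Continuous (p.f k l) := by
  cases k <;> cases l
  · exact continuous_iff_continuousAt.mpr fun x => (p.hasDerivAt_f_cc x).continuousAt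
  · exact continuous_iff_continuousAt.mpr fun x => (p.hasDerivAt_f_cs x).continuousAt
  · exact continuous_iff_continuousAt.mpr fun x => (p.hasDerivAt_f_sc x).continuousAt
  · exact continuous_iff_continuousAt.mpr fun x => (p.hasDerivAt_f_ss x).continuousAt

end Par

end Pool.Agent.Work.MP_68e044_gt
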