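import Mathlib
import Pool.Agent.Work.MP_68e044_gt.Deriv

/-!
# An annulus in which the alternating word and the word of segments compare badly
-/

namespace Pool.Agent.Work.MP_68e044_gt

open Real Set

namespace AltParAux

/-- comparison of increments by comparison of derivatives -/
theorem sub_le_sub_of_deriv_le {F G F' G' : ℝ → ℝ} {a b : ℝ} (hab : a ≤ b)
    (hF : ∀ x ∈ Icc a b, HasDerivAt F (F' x) x) (hG : ∀ x ∈ Icc a b, HasDerivAt G (G' x) x)
    (h : ∀ x ∈ Icc a b, F' x ≤ G' x) : F b - F a ≤ G b - G a := by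
  have hmono : MonotoneOn (fun x => G x - F x) (Icc a b) := by
    refine monotoneOn_of_deriv_nonneg (convex_Icc a b) ?_ ?_ ?_
    · exact fun x hx => ((hG x hx).sub (hF x hx)).continuousAt.continuousWithinAt
    · intro x hx
      rw [interior_Icc] at hx
      exact ((hG x ⟨hx.1.le, hx.2.le⟩).sub
        (hF x ⟨hx.1.le, hx.2.le⟩)).differentiableAt.differentiableWithinAt
    · intro x hx
      rw [interior_Icc] at hx
      have hx' : x ∈ Icc a b := ⟨hx.1.le, hx.2.le⟩
      have := ((hG x hx').sub (hF x hx')).deriv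
      have h2 : deriv (fun x => G x - F x) x = G' x - F' x := this
      rw [h2]
      linarith [h x hx']
  have := hmono (left_mem_Icc.2 hab) (right_mem_Icc.2 hab) hab
  simp only at this
  linarith

/-- a function with zero derivative is constant -/
theorem const_of_deriv {F : ℝ → ℝ} (h : ∀ x, HasDerivAt F 0 x) (x y : ℝ) : F x = F y :=
  is_const_of_deriv_eq_zero (fun x => (h x).differentiableAt) (fun x => (h x).deriv) x y

/-- a primitive vanishing at zero of a continuous function -/
noncomputable def prim (w : ℝ → ℝ) (x : ℝ) : ℝ := ∫ t in (0 : ℝ)..x, w t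

theorem hasDerivAt_prim {w : ℝ → ℝ} (hw : Continuous w) (x : ℝ) :
    HasDerivAt (prim w) (w x) x :=
  intervalIntegral.integral_hasDerivAt_right (hw.intervalIntegrable _ _)
    (hw.stronglyMeasurableAtFilter _ _) hw.continuousAt

theorem prim_zero (w : ℝ → ℝ) : prim w 0 = 0 := by simp [prim]

theorem prim_strictMono {w : ℝ → ℝ} (hw : Continuous w) (hpos : ∀ x, 0 < w x) :
    StrictMono (prim w) :=
  strictMono_of_deriv_pos (fun x => by rw [(hasDerivAt_prim hw x).deriv]; exact hpos x)

theorem prim_neg {w : ℝ → ℝ} (hw : Continuous w) (heven : ∀ x, w (-x) = w x) (x : ℝ) :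
    prim w (-x) = - prim w x := by
  have h : ∀ x, HasDerivAt (fun x => prim w (-x) + prim w x) 0 x := by
    intro x
    have h1 := (hasDerivAt_prim hw (-x)).comp x (hasDerivAt_neg x)
    have h2 := h1.add (hasDerivAt_prim hw x)
    refine h2.congr_deriv ?_
    rw [heven]; ring
  have := const_of_deriv h x 0
  simp only [neg_zero, prim_zero, add_zero] at this
  linarith

theorem prim_add_two_pi {w : ℝ → ℝ} (hw : Continuous w) (heven : ∀ x, w (-x) = w x)
    (hper : ∀ x, w (x + 2 * π) = w x) (x : ℝ) :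
    prim w (x + 2 * π) = prim w x + 2 * prim w π := by
  have h : ∀ x, HasDerivAt (fun x => prim w (x + 2 * π) - prim w x) 0 x := by
    intro x
    have h0 : HasDerivAt (fun x => x + 2 * π) 1 x := (hasDerivAt_id x).add_const (2 * π)
    have h1 := (hasDerivAt_prim hw (x + 2 * π)).comp x h0
    have h2 := h1.sub (hasDerivAt_prim hw x)
    refine h2.congr_deriv ?_
    rw [hper]; ring
  have := const_of_deriv h x (-π)
  have e : -π + 2 * π = π := by ring
  rw [e, prim_neg hw heven] at this
  linarith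

theorem prim_add_nat {w : ℝ → ℝ} (hw : Continuous w) (heven : ∀ x, w (-x) = w x)
    (hper : ∀ x, w (x + 2 * π) = w x) (x : ℝ) (k : ℕ) :
    prim w (x + 2 * π * k) = prim w x + 2 * k * prim w π := by
  induction k with
  | zero => simp
  | succ k ih =>
    have e : x + 2 * π * ((k + 1 : ℕ) : ℝ) = (x + 2 * π * k) + 2 * π := by push_cast; ring
    rw [e, prim_add_two_pi hw heven hper, ih]
    push_cast; ring

/-- a map whose derivative matches the density is a translation in the coordinate `prim w` -/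
theorem prim_conj {w : ℝ → ℝ} (hw : Continuous w) {A A' : ℝ → ℝ}
    (hA : ∀ x, HasDerivAt A (A' x) x) (h : ∀ x, w (A x - π) * A' x = w (x - π)) (x y : ℝ) :
    prim w (A x - π) - prim w (x - π) = prim w (A y - π) - prim w (y - π) := by
  have h1 : ∀ x, HasDerivAt (fun x => prim w (A x - π) - prim w (x - π)) 0 x := by
    intro x
    have h2 := (hasDerivAt_prim hw (A x - π)).comp x ((hA x).sub_const π)
    have h3 := (hasDerivAt_prim hw (x - π)).comp x ((hasDerivAt_id x).sub_const π)
    refine (h2.sub h3).congr_deriv ?_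
    rw [h]; ring
  exact const_of_deriv h1 x y

theorem prim_iterate {w : ℝ → ℝ} {A : ℝ → ℝ} {c : ℝ}
    (h : ∀ x, prim w (A x - π) = prim w (x - π) + c) (k : ℕ) (x : ℝ) :
    prim w (A^[k] x - π) = prim w (x - π) + k * c := by
  induction k with
  | zero => simp
  | succ k ih =>
    rw [Function.iterate_succ_apply', h, ih]
    push_cast; ring

/-! ### the two comparison functions -/

theorem hasDerivAt_phi {a b : ℝ} (ha : 0 < a) (hb : 0 < b) {x : ℝ} (hc : 0 < cos (x / 2)) :
    HasDerivAt (fun x => 2 / √b * arsinh (√(b / a) * tan (x / 2)))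
      (1 / (cos (x / 2) * √(a * cos (x / 2) ^ 2 + b * sin (x / 2) ^ 2))) x := by
  have h0 : HasDerivAt (fun x : ℝ => x / 2) (1 / 2) x := (hasDerivAt_id x).div_const 2
  have h1 := (Real.hasDerivAt_tan hc.ne').comp x h0
  have h2 := (h1.const_mul (√(b / a))).arsinh
  have h3 := h2.const_mul (2 / √b)
  refine h3.congr_deriv ?_
  set c := cos (x / 2) with hcdef
  set s := sin (x / 2) with hsdef
  have hsb : 0 < √b := Real.sqrt_pos.2 hb
  have hsa : 0 < √a := Real.sqrt_pos.2 ha
  have hT : 0 < a * c ^ 2 + b * s ^ 2 := by positivity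
  have hsT : 0 < √(a * c ^ 2 + b * s ^ 2) := Real.sqrt_pos.2 hT
  have e1 : 1 + (√(b / a) * tan (x / 2)) ^ 2 = (a * c ^ 2 + b * s ^ 2) / (a * c ^ 2) := by
    rw [mul_pow, Real.sq_sqrt (by positivity), Real.tan_eq_sin_div_cos, ← hcdef, ← hsdef]
    field_simp
  have e2 : √(1 + (√(b / a) * tan (x / 2)) ^ 2) = √(a * c ^ 2 + b * s ^ 2) / (√a * c) := by
    rw [e1, Real.sqrt_div hT.le, Real.sqrt_mul ha.le, Real.sqrt_sq hc.le]
  have e3 : √(b / a) = √b / √a := Real.sqrt_div hb.le a
  simp only [Function.comp] at *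
  rw [e2, e3]
  simp only [smul_eq_mul]
  field_simp

theorem hasDerivAt_psi {a b : ℝ} (ha : 0 < a) (hb : 0 < b) {x : ℝ} (hs : 0 < sin (x / 2)) :
    HasDerivAt (fun x => -(2 / √a * arsinh (√(a / b) * (cos (x / 2) / sin (x / 2)))))
      (1 / (sin (x / 2) * √(a * cos (x / 2) ^ 2 + b * sin (x / 2) ^ 2))) x := by
  have h0 : HasDerivAt (fun x : ℝ => x / 2) (1 / 2) x := (hasDerivAt_id x).div_const 2
  have hcos := (Real.hasDerivAt_cos (x / 2)).comp x h0
  have hsin := (Real.hasDerivAt_sin (x / 2)).comp x h0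
  have h1 := hcos.div hsin hs.ne'
  have h2 := (h1.const_mul (√(a / b))).arsinh
  have h3 := (h2.const_mul (2 / √a)).neg
  refine h3.congr_deriv ?_
  simp only [Function.comp, Pi.div_apply]
  set c := cos (x / 2) with hcdef
  set s := sin (x / 2) with hsdef
  have hcs : c ^ 2 + s ^ 2 = 1 := by rw [hcdef, hsdef]; exact Real.cos_sq_add_sin_sq _
  have hsb : 0 < √b := Real.sqrt_pos.2 hb
  have hsa : 0 < √a := Real.sqrt_pos.2 ha
  have hT : 0 < a * c ^ 2 + b * s ^ 2 := by positivity
  have hsT : 0 < √(a * c ^ 2 + b * s ^ 2) := Real.sqrt_pos.2 hT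
  have e1 : 1 + (√(a / b) * (c / s)) ^ 2 = (a * c ^ 2 + b * s ^ 2) / (b * s ^ 2) := by
    rw [mul_pow, Real.sq_sqrt (by positivity)]
    field_simp
    ring
  have e2 : √(1 + (√(a / b) * (c / s)) ^ 2) = √(a * c ^ 2 + b * s ^ 2) / (√b * s) := by
    rw [e1, Real.sqrt_div hT.le, Real.sqrt_mul hb.le, Real.sqrt_sq hs.le]
  have e3 : √(a / b) = √a / √b := Real.sqrt_div ha.le b
  rw [e2, e3]
  simp only [smul_eq_mul]
  field_simp
  linear_combination hcs

/-! ### the annulus -/

/-- the annulus with inner radius `1`, distance of centres `d` and narrowest width `h` -/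
noncomputable def thePar (d h : ℝ) (hd : 0 < d) (hh : 0 < h) : Par :=
  ⟨1, 1 + d + h, d, one_pos, hd.le, by linarith⟩

section

variable {d h : ℝ} (hd : 0 < d) (hh : 0 < h)

theorem P_val (t : ℝ) : (thePar d h hd hh).P (π + t) = h + d - d * cos t := by
  have : cos (π + t) = - cos t := by rw [add_comm, Real.cos_add_pi]
  simp only [Par.P, thePar, this]; ring

theorem Q_val (t : ℝ) : (thePar d h hd hh).Q (π + t) = 2 + h + d + d * cos t := by
  have : cos (π + t) = - cos t := by rw [add_comm, Real.cos_add_pi]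
  simp only [Par.Q, thePar, this]; ring

theorem P_half (t : ℝ) : (thePar d h hd hh).P (π + t)
    = h * cos (t / 2) ^ 2 + (h + 2 * d) * sin (t / 2) ^ 2 := by
  have e : cos t = 2 * cos (t / 2) ^ 2 - 1 := by rw [← Real.cos_two_mul]; ring_nf
  have := Real.sin_sq_add_cos_sq (t / 2)
  rw [P_val, e]
  linear_combination -(h + 2 * d) * this

theorem Q_half (t : ℝ) : (thePar d h hd hh).Q (π + t)
    = (2 + 2 * d + h) * cos (t / 2) ^ 2 + (2 + h) * sin (t / 2) ^ 2 := by
  have e : cos t = 2 * cos (t / 2) ^ 2 - 1 := by rw [← Real.cos_two_mul]; ring_nf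
  have := Real.sin_sq_add_cos_sq (t / 2)
  rw [Q_val, e]
  linear_combination -(2 + h) * this

/-- density for the word of segments -/
noncomputable def w1 (t : ℝ) : ℝ :=
  1 / √((thePar d h hd hh).P (π + t) * (thePar d h hd hh).Q (π + t))

/-- density for the alternating word, at the segments -/
noncomputable def w2 (t : ℝ) : ℝ := 1 / √((thePar d h hd hh).P (π + t))

theorem w1_pos (t : ℝ) : 0 < w1 hd hh t :=
  one_div_pos.2 (Real.sqrt_pos.2 (mul_pos (Par.P_pos _ _) (Par.Q_pos _ _)))

theorem w2_pos (t : ℝ) : 0 < w2 hd hh t :=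
  one_div_pos.2 (Real.sqrt_pos.2 (Par.P_pos _ _))

theorem w1_cont : Continuous (w1 hd hh) := by
  have h1 : Continuous fun t => √((thePar d h hd hh).P (π + t) * (thePar d h hd hh).Q (π + t)) := by
    simp only [P_val, Q_val]
    fun_prop
  exact continuous_const.div h1
    (fun t => (Real.sqrt_pos.2 (mul_pos (Par.P_pos _ _) (Par.Q_pos _ _))).ne')

theorem w2_cont : Continuous (w2 hd hh) := by
  have h1 : Continuous fun t => √((thePar d h hd hh).P (π + t)) := by
    simp only [P_val]
    fun_prop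
  exact continuous_const.div h1 (fun t => (Real.sqrt_pos.2 (Par.P_pos _ _)).ne')

theorem w1_even (t : ℝ) : w1 hd hh (-t) = w1 hd hh t := by simp [w1, P_val, Q_val]
theorem w2_even (t : ℝ) : w2 hd hh (-t) = w2 hd hh t := by simp [w2, P_val]
theorem w1_per (t : ℝ) : w1 hd hh (t + 2 * π) = w1 hd hh t := by simp [w1, P_val, Q_val]
theorem w2_per (t : ℝ) : w2 hd hh (t + 2 * π) = w2 hd hh t := by simp [w2, P_val]

/-- the step from the angle `π` by the kinds `c`, `s` -/
noncomputable def del : ℝ := (thePar d h hd hh).f .c .s π - π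

/-- the step from the angle `π` by the kinds `s`, `s` -/
noncomputable def bet : ℝ := (thePar d h hd hh).f .s .s π - π

theorem del_pos : 0 < del hd hh := by have := Par.lt_f (thePar d h hd hh) .c .s π; simp only [del]; linarith
theorem bet_pos : 0 < bet hd hh := by have := Par.lt_f (thePar d h hd hh) .s .s π; simp only [bet]; linarith
theorem del_lt : del hd hh < π := by have := Par.f_lt (thePar d h hd hh) .c .s π; simp only [del]; linarith
theorem bet_lt : bet hd hh < π := by have := Par.f_lt (thePar d h hd hh) .s .s π; simp only [bet]; linarith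

theorem N_pi : (thePar d h hd hh).N π = h * (2 + 2 * d + h) := by
  simp only [Par.N, thePar, Real.cos_pi]; ring

theorem P_pi : (thePar d h hd hh).P π = h := by
  simp only [Par.P, thePar, Real.cos_pi]; ring

theorem Q_pi : (thePar d h hd hh).Q π = 2 + 2 * d + h := by
  simp only [Par.Q, thePar, Real.cos_pi]; ring

theorem tan_del : tan (del hd hh / 2) = √(h / 2) := by
  have hE : 0 < 2 + 2 * d + h := by positivity
  rw [del, Par.tan_half_f]
  simp only [Par.D, Par.S, Par.m, N_pi, Q_pi]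
  have hr : (thePar d h hd hh).r = 1 := rfl
  rw [hr, Real.sin_pi]
  simp only [mul_zero, add_zero]
  have e : 2 * 1 * (2 + 2 * d + h) * (h * (2 + 2 * d + h)) = (2 * h) * (2 + 2 * d + h) ^ 2 := by ring
  rw [e, Real.sqrt_mul (by positivity), Real.sqrt_sq hE.le]
  have hs : 0 < √(2 * h) := Real.sqrt_pos.2 (by positivity)
  have e2 : √(h / 2) = √(2 * h) / 2 := by
    rw [Real.sqrt_eq_iff_mul_self_eq (by positivity) (by positivity)]
    have := Real.mul_self_sqrt (show (0:ℝ) ≤ 2 * h by positivity)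
    nlinarith
  rw [e2]
  field_simp
  exact (Real.sq_sqrt (by positivity)).symm

theorem tan_bet : tan (bet hd hh / 2) = √(h * (2 + 2 * d + h)) := by
  have hE : 0 < 2 + 2 * d + h := by positivity
  rw [bet, Par.tan_half_f]
  simp only [Par.D, Par.S, Par.m, N_pi, Q_pi, P_pi]
  have hr : (thePar d h hd hh).r = 1 := rfl
  rw [hr, Real.sin_pi]
  simp only [one_mul, mul_zero, add_zero]
  exact Real.div_sqrt

/-! ### the two return maps -/

/-- the return map of the word of segments -/
noncomputable def A2 (x : ℝ) : ℝ := (thePar d h hd hh).f .s .s ((thePar d h hd hh).f .s .s x)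

/-- the return map of the alternating word -/
noncomputable def ZZ (x : ℝ) : ℝ := (thePar d h hd hh).f .c .s ((thePar d h hd hh).f .s .c x)

theorem f_ss_bet : (thePar d h hd hh).f .s .s (π - bet hd hh) = π := by
  have h1 := Par.f_neg_f (thePar d h hd hh) .s .s π
  have h2 := Par.f_add_two_pi (thePar d h hd hh) .s .s (-((thePar d h hd hh).f .s .s π))
  rw [h1] at h2
  have e : π - bet hd hh = -((thePar d h hd hh).f .s .s π) + 2 * π := by simp only [bet]; ring
  rw [e, h2]; ring

theorem f_sc_del : (thePar d h hd hh).f .s .c (π - del hd hh) = π := by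
  have h1 := Par.f_neg_f (thePar d h hd hh) .c .s π
  have h2 := Par.f_add_two_pi (thePar d h hd hh) .s .c (-((thePar d h hd hh).f .c .s π))
  rw [h1] at h2
  have e : π - del hd hh = -((thePar d h hd hh).f .c .s π) + 2 * π := by simp only [del]; ring
  rw [e, h2]; ring

theorem A2_bet : A2 hd hh (π - bet hd hh) = π + bet hd hh := by
  rw [A2, f_ss_bet]; simp only [bet]; ring

theorem ZZ_del : ZZ hd hh (π - del hd hh) = π + del hd hh := by
  rw [ZZ, f_sc_del]; simp only [del]; ring

/-- coordinate for the word of segments -/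
noncomputable def l (t : ℝ) : ℝ := prim (w1 hd hh) t
/-- coordinate for the alternating word -/
noncomputable def m (t : ℝ) : ℝ := prim (w2 hd hh) t

theorem l_fss (x : ℝ) :
    l hd hh ((thePar d h hd hh).f .s .s x - π) = l hd hh (x - π) + l hd hh (bet hd hh) := by
  have h1 := prim_conj (w1_cont hd hh) (Par.hasDerivAt_f_ss (thePar d h hd hh)) ?_ x π
  · simp only [sub_self, prim_zero, sub_zero] at h1
    simp only [l]
    simp only [bet]
    linarith
  · intro x
    simp only [w1]
    have e1 : π + ((thePar d h hd hh).f .s .s x - π) = (thePar d h hd hh).f .s .s x := by ring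
    have e2 : π + (x - π) = x := by ring
    rw [e1, e2]
    have h3 : 0 < √((thePar d h hd hh).P ((thePar d h hd hh).f .s .s x) *
      (thePar d h hd hh).Q ((thePar d h hd hh).f .s .s x)) :=
      Real.sqrt_pos.2 (mul_pos (Par.P_pos _ _) (Par.Q_pos _ _))
    have h4 : 0 < √((thePar d h hd hh).P x * (thePar d h hd hh).Q x) :=
      Real.sqrt_pos.2 (mul_pos (Par.P_pos _ _) (Par.Q_pos _ _))
    field_simp

theorem l_A2 (x : ℝ) :
    l hd hh (A2 hd hh x - π) = l hd hh (x - π) + 2 * l hd hh (bet hd hh) := by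
  rw [A2, l_fss, l_fss]; ring

theorem m_ZZ (x : ℝ) :
    m hd hh (ZZ hd hh x - π) = m hd hh (x - π) + 2 * m hd hh (del hd hh) := by
  have hder : ∀ x, HasDerivAt (ZZ hd hh)
      (√((thePar d h hd hh).P (ZZ hd hh x)) / √((thePar d h hd hh).P x)) x := by
    intro x
    have h1 := (Par.hasDerivAt_f_cs (thePar d h hd hh) ((thePar d h hd hh).f .s .c x)).comp x
      (Par.hasDerivAt_f_sc (thePar d h hd hh) x)
    refine h1.congr_deriv ?_
    have e1 : (thePar d h hd hh).f .c .s ((thePar d h hd hh).f .s .c x) = ZZ hd hh x := rfl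
    rw [e1]
    set y := (thePar d h hd hh).f .s .c x
    have hQN : 0 < √((thePar d h hd hh).Q y * (thePar d h hd hh).N y) :=
      Real.sqrt_pos.2 (mul_pos (Par.Q_pos _ _) (Par.N_pos _ _))
    have hW : 0 < √((thePar d h hd hh).W) := Real.sqrt_pos.2 (Par.W_pos _)
    have hP : 0 < √((thePar d h hd hh).P x) := Real.sqrt_pos.2 (Par.P_pos _ _)
    rw [Real.sqrt_mul (Par.W_pos _).le, Real.sqrt_mul (Par.W_pos _).le]
    field_simp
  have h1 := prim_conj (w2_cont hd hh) hder ?_ x (π - del hd hh)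
  · rw [ZZ_del] at h1
    have e1 : π + del hd hh - π = del hd hh := by ring
    have e2 : π - del hd hh - π = - del hd hh := by ring
    rw [e1, e2, prim_neg (w2_cont hd hh) (w2_even hd hh)] at h1
    simp only [m]
    linarith
  · intro x
    simp only [w2]
    have e1 : π + (ZZ hd hh x - π) = ZZ hd hh x := by ring
    have e2 : π + (x - π) = x := by ring
    rw [e1, e2]
    have h3 : 0 < √((thePar d h hd hh).P (ZZ hd hh x)) := Real.sqrt_pos.2 (Par.P_pos _ _)
    field_simp

theorem first_of {k : ℕ}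
    (hI : l hd hh (del hd hh) < k * (l hd hh π - l hd hh (bet hd hh))) :
    (A2 hd hh)^[k] (ZZ hd hh (π - del hd hh)) < (π - del hd hh) + 2 * π * k := by
  have h1 := prim_iterate (w := w1 hd hh) (A := A2 hd hh) (c := 2 * l hd hh (bet hd hh))
    (l_A2 hd hh) k (π + del hd hh)
  have h2 := prim_add_nat (w1_cont hd hh) (w1_even hd hh) (w1_per hd hh) (-del hd hh) k
  rw [prim_neg (w1_cont hd hh) (w1_even hd hh)] at h2
  have h3 : prim (w1 hd hh) ((A2 hd hh)^[k] (π + del hd hh) - π)
      < prim (w1 hd hh) (-del hd hh + 2 * π * k) := by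
    rw [h1, h2]
    have e : π + del hd hh - π = del hd hh := by ring
    rw [e]
    simp only [l] at hI ⊢
    nlinarith
  have h4 := (prim_strictMono (w1_cont hd hh) (w1_pos hd hh)).lt_iff_lt.1 h3
  rw [ZZ_del]
  linarith

theorem second_of {k : ℕ}
    (hII : k * (m hd hh π - m hd hh (del hd hh)) < m hd hh (bet hd hh)) :
    (π - bet hd hh) + 2 * π * k < (ZZ hd hh)^[k] (A2 hd hh (π - bet hd hh)) := by
  have h1 := prim_iterate (w := w2 hd hh) (A := ZZ hd hh) (c := 2 * m hd hh (del hd hh))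
    (m_ZZ hd hh) k (π + bet hd hh)
  have h2 := prim_add_nat (w2_cont hd hh) (w2_even hd hh) (w2_per hd hh) (-bet hd hh) k
  rw [prim_neg (w2_cont hd hh) (w2_even hd hh)] at h2
  have h3 : prim (w2 hd hh) (-bet hd hh + 2 * π * k)
      < prim (w2 hd hh) ((ZZ hd hh)^[k] (π + bet hd hh) - π) := by
    rw [h1, h2]
    have e : π + bet hd hh - π = bet hd hh := by ring
    rw [e]
    simp only [m] at hII ⊢
    nlinarith
  have h4 := (prim_strictMono (w2_cont hd hh) (w2_pos hd hh)).lt_iff_lt.1 h3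
  rw [A2_bet]
  linarith

/-! ### the four bounds -/

theorem half_cos_pos {t : ℝ} (h0 : 0 ≤ t) (h1 : t < π) : 0 < cos (t / 2) :=
  Real.cos_pos_of_mem_Ioo ⟨by linarith [Real.pi_pos], by linarith⟩

theorem half_sin_pos {t : ℝ} (h0 : 0 < t) (h1 : t ≤ π) : 0 < sin (t / 2) :=
  Real.sin_pos_of_pos_of_lt_pi (by linarith) (by linarith [Real.pi_pos])

theorem bound_a :
    l hd hh (del hd hh) ≤ 1 / √(2 + 2 * d + h) * (2 / √(h + 2 * d) *
      arsinh (√((h + 2 * d) / h) * √(h / 2))) := by
  have hE : 0 < 2 + 2 * d + h := by positivity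
  have hb : 0 < h + 2 * d := by positivity
  have h1 := sub_le_sub_of_deriv_le (F := l hd hh)
    (G := fun x => 1 / √(2 + 2 * d + h) * (2 / √(h + 2 * d) *
      arsinh (√((h + 2 * d) / h) * tan (x / 2)))) (del_pos hd hh).le
    (fun x _ => hasDerivAt_prim (w1_cont hd hh) x)
    (fun x hx => (hasDerivAt_phi hh hb
      (half_cos_pos hx.1 (hx.2.trans_lt (del_lt hd hh)))).const_mul _) ?_
  · simp only [zero_div, Real.tan_zero, mul_zero, Real.arsinh_zero, sub_zero] at h1
    rw [tan_del] at h1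
    simpa [l, prim_zero] using h1
  · intro x hx
    have hc := half_cos_pos hx.1 (hx.2.trans_lt (del_lt hd hh))
    simp only [w1]
    have hP := Par.P_pos (thePar d h hd hh) (π + x)
    have hsP := Real.sqrt_pos.2 hP
    rw [← P_half hd hh, div_mul_div_comm, one_mul]
    refine one_div_le_one_div_of_le (by positivity) ?_
    rw [Real.sqrt_mul hP.le, mul_comm (√((thePar d h hd hh).P (π + x)))]
    rw [← mul_assoc]
    refine mul_le_mul_of_nonneg_right ?_ hsP.le
    refine Real.le_sqrt_of_sq_le ?_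
    rw [mul_pow, Real.sq_sqrt hE.le, Q_half]
    have : 0 ≤ (2 + h) * sin (x / 2) ^ 2 := by positivity
    linarith

theorem bound_b :
    1 / √(2 * d + h + 1 / (2 + 2 * d + h)) * (2 / √(2 + 2 * d + h) *
      arsinh (√((2 + 2 * d + h) / (2 + h)) * (1 / √(h * (2 + 2 * d + h)))))
      ≤ l hd hh π - l hd hh (bet hd hh) := by
  have hE : 0 < 2 + 2 * d + h := by positivity
  have hb : 0 < 2 + h := by positivity
  have hG : 0 < 2 * d + h + 1 / (2 + 2 * d + h) := by positivity
  have h1 := sub_le_sub_of_deriv_le (G := l hd hh)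
    (F := fun x => 1 / √(2 * d + h + 1 / (2 + 2 * d + h)) * (-(2 / √(2 + 2 * d + h) *
      arsinh (√((2 + 2 * d + h) / (2 + h)) * (cos (x / 2) / sin (x / 2)))))) (bet_lt hd hh).le
    (fun x hx => (hasDerivAt_psi hE hb
      (half_sin_pos ((bet_pos hd hh).trans_le hx.1) hx.2)).const_mul _)
    (fun x _ => hasDerivAt_prim (w1_cont hd hh) x) ?_
  · simp only [Real.cos_pi_div_two, zero_div, mul_zero, Real.arsinh_zero, neg_zero] at h1
    have e : cos (bet hd hh / 2) / sin (bet hd hh / 2) = 1 / √(h * (2 + 2 * d + h)) := by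
      rw [← tan_bet hd hh, Real.tan_eq_sin_div_cos, one_div_div]
    rw [e] at h1
    linarith
  · intro x hx
    have hs := half_sin_pos ((bet_pos hd hh).trans_le hx.1) hx.2
    simp only [w1]
    have hP := Par.P_pos (thePar d h hd hh) (π + x)
    have hQ := Par.Q_pos (thePar d h hd hh) (π + x)
    have hsP := Real.sqrt_pos.2 hP
    have hsQ := Real.sqrt_pos.2 hQ
    have hsG := Real.sqrt_pos.2 hG
    rw [← Q_half hd hh, div_mul_div_comm, one_mul]
    refine one_div_le_one_div_of_le (by positivity) ?_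
    rw [Real.sqrt_mul hP.le, ← mul_assoc]
    refine mul_le_mul_of_nonneg_right ?_ hsQ.le
    rw [Real.sqrt_le_left (by positivity), mul_pow, Real.sq_sqrt hG.le, P_half]
    have hcb := half_cos_pos (bet_pos hd hh).le (bet_lt hd hh)
    have hc0 : 0 ≤ cos (x / 2) :=
      Real.cos_nonneg_of_mem_Icc ⟨by linarith [bet_pos hd hh, hx.1, Real.pi_pos], by linarith [hx.2]⟩
    have hcle : cos (x / 2) ≤ cos (bet hd hh / 2) :=
      Real.cos_le_cos_of_nonneg_of_le_pi (by linarith [bet_pos hd hh]) (by linarith [hx.2, Real.pi_pos])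
        (by linarith [hx.1])
    have hsle : sin (bet hd hh / 2) ≤ sin (x / 2) :=
      Real.sin_le_sin_of_le_of_le_pi_div_two (by linarith [bet_pos hd hh, Real.pi_pos])
        (by linarith [hx.2]) (by linarith [hx.1])
    have hsb := half_sin_pos (bet_pos hd hh) (bet_lt hd hh).le
    have ht := tan_bet hd hh
    rw [Real.tan_eq_sin_div_cos, div_eq_iff hcb.ne'] at ht
    have ht2 : sin (bet hd hh / 2) ^ 2 = h * (2 + 2 * d + h) * cos (bet hd hh / 2) ^ 2 := by
      rw [ht, mul_pow, Real.sq_sqrt (by positivity)]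
    have h5 : cos (x / 2) ^ 2 ≤ cos (bet hd hh / 2) ^ 2 := by gcongr
    have h6 : sin (bet hd hh / 2) ^ 2 ≤ sin (x / 2) ^ 2 := by gcongr
    have h7 : h * cos (x / 2) ^ 2 ≤ 1 / (2 + 2 * d + h) * sin (x / 2) ^ 2 := by
      rw [one_div, inv_mul_eq_div, le_div_iff₀ hE]
      calc h * cos (x / 2) ^ 2 * (2 + 2 * d + h)
          ≤ h * cos (bet hd hh / 2) ^ 2 * (2 + 2 * d + h) := by gcongr
        _ = sin (bet hd hh / 2) ^ 2 := by rw [ht2]; ring
        _ ≤ _ := h6
    linarith

theorem bound_c :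
    m hd hh π - m hd hh (del hd hh) ≤ 1 / √(h + 2 * d) * (2 * arsinh (√(2 / h))) := by
  have hb : 0 < h + 2 * d := by positivity
  have h1 := sub_le_sub_of_deriv_le (F := m hd hh)
    (G := fun x => 1 / √(h + 2 * d) * (-(2 / √1 *
      arsinh (√(1 / 1) * (cos (x / 2) / sin (x / 2)))))) (del_lt hd hh).le
    (fun x _ => hasDerivAt_prim (w2_cont hd hh) x)
    (fun x hx => (hasDerivAt_psi one_pos one_pos
      (half_sin_pos ((del_pos hd hh).trans_le hx.1) hx.2)).const_mul _) ?_
  · simp only [Real.cos_pi_div_two, zero_div, mul_zero, Real.arsinh_zero, neg_zero] at h1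
    have e : cos (del hd hh / 2) / sin (del hd hh / 2) = √(2 / h) := by
      rw [← inv_div, ← Real.tan_eq_sin_div_cos, tan_del, ← Real.sqrt_inv, inv_div]
    rw [e] at h1
    simp only [div_one, Real.sqrt_one, one_mul] at h1
    linarith
  · intro x hx
    have hs := half_sin_pos ((del_pos hd hh).trans_le hx.1) hx.2
    simp only [w2]
    rw [one_mul, one_mul, Real.cos_sq_add_sin_sq, Real.sqrt_one, mul_one, div_mul_div_comm, one_mul]
    refine one_div_le_one_div_of_le (by positivity) ?_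
    refine Real.le_sqrt_of_sq_le ?_
    rw [mul_pow, Real.sq_sqrt hb.le, P_half]
    have : 0 ≤ h * cos (x / 2) ^ 2 := by positivity
    linarith

theorem bound_d {t0 : ℝ} (h0 : 0 < t0) (ht : t0 ≤ √(h * (2 + 2 * d + h))) :
    1 / √(1 + t0 ^ 2) * (2 / √(h + 2 * d) * arsinh (√((h + 2 * d) / h) * t0))
      ≤ m hd hh (bet hd hh) := by
  have hb : 0 < h + 2 * d := by positivity
  set b' := 2 * arctan t0 with hb'
  have hb0 : 0 < b' := by have := Real.arctan_pos.2 h0; positivity
  have hb1 : b' < π := by have := Real.arctan_lt_pi_div_two t0; linarith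
  have htan : tan (b' / 2) = t0 := by
    rw [hb', mul_div_cancel_left₀ _ two_ne_zero, Real.tan_arctan]
  have hble : b' ≤ bet hd hh := by
    by_contra hcon
    push Not at hcon
    have := Real.tan_lt_tan_of_lt_of_lt_pi_div_two (x := bet hd hh / 2) (y := b' / 2)
      (by linarith [bet_pos hd hh, Real.pi_pos]) (by linarith) (by linarith)
    rw [htan, tan_bet] at this
    linarith
  have hmono : m hd hh b' ≤ m hd hh (bet hd hh) :=
    (prim_strictMono (w2_cont hd hh) (w2_pos hd hh)).monotone hble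
  refine le_trans ?_ hmono
  have h1 := sub_le_sub_of_deriv_le (G := m hd hh)
    (F := fun x => 1 / √(1 + t0 ^ 2) * (2 / √(h + 2 * d) *
      arsinh (√((h + 2 * d) / h) * tan (x / 2)))) hb0.le
    (fun x hx => (hasDerivAt_phi hh hb
      (half_cos_pos hx.1 (hx.2.trans_lt hb1))).const_mul _)
    (fun x _ => hasDerivAt_prim (w2_cont hd hh) x) ?_
  · simp only [zero_div, Real.tan_zero, mul_zero, Real.arsinh_zero, sub_zero] at h1
    rw [htan] at h1
    simpa [m, prim_zero] using h1
  · intro x hx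
    have hc := half_cos_pos hx.1 (hx.2.trans_lt hb1)
    simp only [w2]
    have hP := Par.P_pos (thePar d h hd hh) (π + x)
    have hsP := Real.sqrt_pos.2 hP
    have hcle : cos (b' / 2) ≤ cos (x / 2) :=
      Real.cos_le_cos_of_nonneg_of_le_pi (by linarith [hx.1]) (by linarith [Real.pi_pos])
        (by linarith [hx.2])
    have hcos : cos (b' / 2) = 1 / √(1 + t0 ^ 2) := by
      rw [hb', mul_div_cancel_left₀ _ two_ne_zero, Real.cos_arctan]
    rw [← P_half hd hh, ← hcos]
    calc cos (b' / 2) * (1 / (cos (x / 2) * √((thePar d h hd hh).P (π + x))))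
        ≤ cos (x / 2) * (1 / (cos (x / 2) * √((thePar d h hd hh).P (π + x)))) := by gcongr
      _ = 1 / √((thePar d h hd hh).P (π + x)) := by field_simp

end

/-! ### the numbers -/

theorem arsinh_le_log {x y : ℝ} (hx : 0 ≤ x) (hy : x + √(1 + x ^ 2) ≤ y) :
    arsinh x ≤ log y := by
  rw [Real.arsinh]
  exact Real.log_le_log (by positivity) hy

theorem log_le_arsinh {x y : ℝ} (hy : 0 < y) (h : y ≤ 2 * x) :
    log y ≤ arsinh x := by
  rw [Real.arsinh]
  refine Real.log_le_log hy (h.trans ?_)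
  have : x ≤ √(1 + x ^ 2) := Real.le_sqrt_of_sq_le (by linarith)
  linarith

theorem numI {κ d : ℝ} (hκ : 1 ≤ κ) (hd : 64 * κ ^ 2 ≤ d) :
    (1 + 1 / d) * (2 + 3 * κ * (4 * κ - 1)) < κ * (12 * κ) := by
  have hκ2 : κ ≤ κ ^ 2 := by nlinarith
  have hd0 : 0 < d := by nlinarith
  have e1 : (1 / d) * (2 + 3 * κ * (4 * κ - 1)) < 1 := by
    rw [one_div, inv_mul_eq_div, div_lt_one hd0]
    nlinarith
  nlinarith

theorem numII {κ q : ℝ} (hκ : 1 ≤ κ) (hq : 64 * κ ^ 2 ≤ q ^ 2) :
    κ * (2 + 12 * κ) < 1 / (1 + 1 / q ^ 2) * (2 + 3 * κ * (4 * κ + 2)) := by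
  have hκ2 : κ ≤ κ ^ 2 := by nlinarith
  have hq0 : 0 < q ^ 2 := by nlinarith
  have h1 : 0 < 1 + 1 / q ^ 2 := by positivity
  have e1 : κ * (2 + 12 * κ) * (1 / q ^ 2) < 1 := by
    rw [mul_one_div, div_lt_one hq0]
    nlinarith
  rw [one_div, inv_mul_eq_div, lt_div_iff₀ h1]
  calc κ * (2 + 12 * κ) * (1 + 1 / q ^ 2)
      = κ * (2 + 12 * κ) + κ * (2 + 12 * κ) * (1 / q ^ 2) := by ring
    _ < κ * (2 + 12 * κ) + 1 := by linarith
    _ ≤ 2 + 3 * κ * (4 * κ + 2) := by nlinarith

end AltParAux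

open AltParAux in
theorem exists_par (k : ℕ) (hk : 1 ≤ k) :
    ∃ p : Par,
      (∃ x, (fun t => p.f .s .s (p.f .s .s t))^[k] (p.f .c .s (p.f .s .c x)) < x + 2 * π * k) ∧
      ∃ y, y + 2 * π * k < (fun t => p.f .c .s (p.f .s .c t))^[k] (p.f .s .s (p.f .s .s y)) := by
  have hk' : (1 : ℝ) ≤ k := by exact_mod_cast hk
  obtain ⟨n, rfl⟩ : ∃ n, k = n + 1 := ⟨k - 1, by omega⟩
  set κ : ℝ := ((n + 1 : ℕ) : ℝ) with hκ
  set q : ℝ := 8 ^ (n + 1) with hq
  have hL : 0 < log 2 := Real.log_pos (by norm_num)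
  have hlogq : log q = 3 * κ * log 2 := by
    rw [hq, Real.log_pow, show (8 : ℝ) = 2 ^ 3 by norm_num, Real.log_pow, ← hκ]
    push_cast; ring
  have hqk : 8 * κ ≤ q := by
    rw [hq, hκ]
    have : ∀ n : ℕ, 8 * (((n + 1 : ℕ) : ℝ)) ≤ 8 ^ (n + 1) := by
      intro n
      induction n with
      | zero => norm_num
      | succ n ih => rw [pow_succ]; push_cast at ih ⊢; nlinarith
    exact this n
  have hq8 : 8 ≤ q := by linarith
  have hq0 : 0 < q := by linarith
  have hq1 : 1 ≤ q := by linarith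
  set d : ℝ := q ^ (8 * n + 6) with hd'
  set h : ℝ := 1 / q ^ 8 with hh'
  have hd : 0 < d := by positivity
  have hh : 0 < h := by positivity
  have hh1 : h ≤ 1 := by
    rw [hh', div_le_one (by positivity)]
    exact one_le_pow₀ hq1
  have hdq6 : q ^ 6 ≤ d := pow_le_pow_right₀ hq1 (by omega)
  have hdq2 : q ^ 2 ≤ d := pow_le_pow_right₀ hq1 (by omega)
  have hq2 : 64 * κ ^ 2 ≤ q ^ 2 := by nlinarith
  have hd64 : 64 ≤ d := by nlinarith
  have hsd : √d = q ^ (4 * n + 3) := by
    rw [Real.sqrt_eq_iff_mul_self_eq hd.le (by positivity), hd', ← pow_add]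
    congr 1; ring
  refine ⟨thePar d h hd hh, ⟨π - del hd hh, ?_⟩, ⟨π - bet hd hh, ?_⟩⟩
  · refine first_of hd hh ?_
    have ha := bound_a hd hh
    have hb := bound_b hd hh
    have hE : 0 < 2 + 2 * d + h := by positivity
    have hB : 0 < h + 2 * d := by positivity
    have hG : 0 < 2 * d + h + 1 / (2 + 2 * d + h) := by positivity
    have hsE := Real.sqrt_pos.2 hE
    have hsB := Real.sqrt_pos.2 hB
    have hsG := Real.sqrt_pos.2 hG
    set E := 2 + 2 * d + h with hEdef
    set B := h + 2 * d with hBdef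
    set G := 2 * d + h + 1 / E with hGdef
    -- the two arsinh bounds
    have h1 : arsinh (√(B / h) * √(h / 2)) ≤ log (4 * √d) := by
      rw [← Real.sqrt_mul (by positivity)]
      refine arsinh_le_log (Real.sqrt_nonneg _) ?_
      have e1 : B / h * (h / 2) = d + h / 2 := by rw [hBdef]; field_simp; ring
      rw [e1, Real.sq_sqrt (by positivity)]
      have e2 : √(d + h / 2) ≤ √(4 * d) := Real.sqrt_le_sqrt (by linarith)
      have e3 : √(1 + (d + h / 2)) ≤ √(4 * d) := Real.sqrt_le_sqrt (by linarith)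
      have e4 : √(4 * d) = 2 * √d := by
        rw [Real.sqrt_mul (by norm_num), show (4 : ℝ) = 2 ^ 2 by norm_num,
          Real.sqrt_sq (by norm_num)]
      linarith
    have h1' : log (4 * √d) = (2 + 3 * κ * (4 * κ - 1)) * log 2 := by
      rw [hsd, Real.log_mul (by norm_num) (by positivity), Real.log_pow, hlogq,
        show (4 : ℝ) = 2 ^ 2 by norm_num, Real.log_pow, hκ]
      push_cast; ring
    have h2 : 12 * κ * log 2 ≤ arsinh (√(E / (2 + h)) * (1 / √(h * E))) := by
      have e1 : √(E / (2 + h)) * (1 / √(h * E)) = 1 / √(h * (2 + h)) := by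
        rw [Real.sqrt_div hE.le, Real.sqrt_mul hh.le, Real.sqrt_mul hh.le]
        have : 0 < √(2 + h) := Real.sqrt_pos.2 (by positivity)
        have : 0 < √h := Real.sqrt_pos.2 hh
        field_simp
      have e2 : 12 * κ * log 2 = log (q ^ 4) := by
        rw [Real.log_pow, hlogq]; push_cast; ring
      rw [e1, e2]
      refine log_le_arsinh (by positivity) ?_
      have e3 : √(h * (2 + h)) ≤ 2 / q ^ 4 := by
        rw [Real.sqrt_le_left (by positivity)]
        calc h * (2 + h) ≤ h * 4 := by gcongr; linarith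
          _ = (2 / q ^ 4) ^ 2 := by rw [hh']; field_simp; norm_num
      have e4 : 0 < √(h * (2 + h)) := Real.sqrt_pos.2 (by positivity)
      rw [mul_one_div, le_div_iff₀ e4]
      calc q ^ 4 * √(h * (2 + h)) ≤ q ^ 4 * (2 / q ^ 4) := by gcongr
        _ = 2 := by field_simp
    have h3 : 1 / √B ≤ (1 + 1 / d) / √G := by
      rw [div_le_div_iff₀ hsB hsG, one_mul]
      rw [Real.sqrt_le_left (by positivity), mul_pow, Real.sq_sqrt hB.le]
      have e1 : 1 / E ≤ 1 := by
        rw [div_le_one hE]; linarith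
      have e2 : (1 + 1 / d) ^ 2 * B = B + (2 / d) * B + (1 / d) ^ 2 * B := by ring
      have e3 : (2 / d) * B = 2 * h / d + 4 := by rw [hBdef]; field_simp; ring
      have e4 : 0 ≤ 2 * h / d := by positivity
      have e5 : 0 ≤ (1 / d) ^ 2 * B := by positivity
      rw [e2, e3]
      linarith
    have h4 : (1 + 1 / d) * (2 + 3 * κ * (4 * κ - 1)) < κ * (12 * κ) :=
      numI hk' (hq2.trans hdq2)
    calc l hd hh (del hd hh) ≤ 1 / √E * (2 / √B * arsinh (√(B / h) * √(h / 2))) := ha
      _ = 2 / √E * arsinh (√(B / h) * √(h / 2)) * (1 / √B) := by ring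
      _ ≤ 2 / √E * ((2 + 3 * κ * (4 * κ - 1)) * log 2) * ((1 + 1 / d) / √G) := by
          rw [← h1']
          have h0 : 0 ≤ log (4 * √d) := by
            rw [h1']
            have : 0 ≤ 4 * κ - 1 := by linarith
            positivity
          gcongr
      _ = 2 / √E / √G * log 2 * ((1 + 1 / d) * (2 + 3 * κ * (4 * κ - 1))) := by ring
      _ < 2 / √E / √G * log 2 * (κ * (12 * κ)) := by gcongr
      _ = κ * (1 / √G * (2 / √E * (12 * κ * log 2))) := by ring
      _ ≤ κ * (1 / √G * (2 / √E * arsinh (√(E / (2 + h)) * (1 / √(h * E))))) := by gcongr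
      _ ≤ κ * (l hd hh π - l hd hh (bet hd hh)) := by gcongr
  · refine second_of hd hh ?_
    have hc := bound_c hd hh
    have ht : √(2 / q ^ 2) ≤ √(h * (2 + 2 * d + h)) := by
      refine Real.sqrt_le_sqrt ?_
      calc 2 / q ^ 2 = h * (2 * q ^ 6) := by rw [hh']; field_simp
        _ ≤ h * (2 + 2 * d + h) := by gcongr; linarith
    have hdd := bound_d hd hh (Real.sqrt_pos.2 (by positivity : 0 < 2 / q ^ 2)) ht
    rw [Real.sq_sqrt (by positivity)] at hdd
    have hB : 0 < h + 2 * d := by positivity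
    have hsB := Real.sqrt_pos.2 hB
    set B := h + 2 * d with hBdef
    have h1 : arsinh (√(2 / h)) ≤ (2 + 12 * κ) * log 2 := by
      have e1 : (2 + 12 * κ) * log 2 = log (4 * q ^ 4) := by
        rw [Real.log_mul (by norm_num) (by positivity), Real.log_pow, hlogq,
          show (4 : ℝ) = 2 ^ 2 by norm_num, Real.log_pow]
        push_cast; ring
      rw [e1]
      refine arsinh_le_log (Real.sqrt_nonneg _) ?_
      have e2 : 2 / h = 2 * q ^ 8 := by rw [hh']; field_simp
      rw [Real.sq_sqrt (by positivity), e2]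
      have e5 : 1 ≤ q ^ 8 := one_le_pow₀ hq1
      have e3 : √(2 * q ^ 8) ≤ 2 * q ^ 4 := by
        rw [Real.sqrt_le_left (by positivity)]
        nlinarith
      have e4 : √(1 + 2 * q ^ 8) ≤ 2 * q ^ 4 := by
        rw [Real.sqrt_le_left (by positivity)]
        nlinarith
      linarith
    have h2 : (2 + 3 * κ * (4 * κ + 2)) * log 2 ≤ arsinh (√(B / h) * √(2 / q ^ 2)) := by
      have e1 : (2 + 3 * κ * (4 * κ + 2)) * log 2 = log (4 * q ^ (4 * n + 6)) := by
        rw [Real.log_mul (by norm_num) (by positivity), Real.log_pow, hlogq,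
          show (4 : ℝ) = 2 ^ 2 by norm_num, Real.log_pow, hκ]
        push_cast; ring
      rw [e1, ← Real.sqrt_mul (by positivity)]
      refine log_le_arsinh (by positivity) ?_
      have e2 : 2 * q ^ (4 * n + 6) ≤ √(B / h * (2 / q ^ 2)) := by
        refine Real.le_sqrt_of_sq_le ?_
        calc (2 * q ^ (4 * n + 6)) ^ 2 = (2 * d) / h * (2 / q ^ 2) := by
              rw [hh', hd']
              field_simp
              ring
          _ ≤ B / h * (2 / q ^ 2) := by gcongr; linarith
      linarith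
    have h3 : 1 / (1 + 1 / q ^ 2) ≤ 1 / √(1 + 2 / q ^ 2) := by
      refine one_div_le_one_div_of_le (Real.sqrt_pos.2 (by positivity)) ?_
      rw [Real.sqrt_le_left (by positivity)]
      have : 0 ≤ (1 / q ^ 2) ^ 2 := by positivity
      have e : 2 / q ^ 2 = 2 * (1 / q ^ 2) := by ring
      rw [e]
      nlinarith
    have h4 : κ * (2 + 12 * κ) < 1 / (1 + 1 / q ^ 2) * (2 + 3 * κ * (4 * κ + 2)) :=
      numII hk' hq2
    calc κ * (m hd hh π - m hd hh (del hd hh)) ≤ κ * (1 / √B * (2 * arsinh (√(2 / h)))) := by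
          gcongr
      _ ≤ κ * (1 / √B * (2 * ((2 + 12 * κ) * log 2))) := by gcongr
      _ = 2 / √B * log 2 * (κ * (2 + 12 * κ)) := by ring
      _ < 2 / √B * log 2 * (1 / (1 + 1 / q ^ 2) * (2 + 3 * κ * (4 * κ + 2))) := by gcongr
      _ = 1 / (1 + 1 / q ^ 2) * (2 / √B * ((2 + 3 * κ * (4 * κ + 2)) * log 2)) := by ring
      _ ≤ 1 / √(1 + 2 / q ^ 2) * (2 / √B * arsinh (√(B / h) * √(2 / q ^ 2))) := by gcongr
      _ ≤ m hd hh (bet hd hh) := hdd

end Pool.Agent.Work.MP_68e044_gt
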