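import Pool.Agent.Work.MP_68e044_gt.Deriv

set_option autoImplicit false

/-!
# Orbits of the step maps
-/

namespace Pool.Agent.Work.MP_68e044_gt

open Real

namespace Par

variable (p : Par)

lemma f_add_nat (k l : Letter) (x : ℝ) (m : ℕ) :
    p.f k l (x + 2 * π * m) = p.f k l x + 2 * π * m := by
  induction m with
  | zero => simp
  | succ m ih =>
    rw [show x + 2 * π * ((m + 1 : ℕ) : ℝ) = (x + 2 * π * m) + 2 * π by push_cast; ring,
      p.f_add_two_pi, ih]
    push_cast
    ring

lemma f_add_int (k l : Letter) (x : ℝ) (m : ℤ) :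
    p.f k l (x + 2 * π * m) = p.f k l x + 2 * π * m := by
  obtain ⟨n, rfl | rfl⟩ := m.eq_nat_or_neg
  · simpa using p.f_add_nat k l x n
  · have h := p.f_add_nat k l (x + 2 * π * ((-(n : ℤ) : ℤ) : ℝ)) n
    rw [show x + 2 * π * ((-(n : ℤ) : ℤ) : ℝ) + 2 * π * n = x by push_cast; ring] at h
    push_cast at h ⊢
    linarith

theorem orb_strictMono (a : ℕ → Letter) (n : ℕ) : StrictMono (fun x => p.orb a x n) := by
  induction n with
  | zero => exact strictMono_id
  | succ n ih => exact (p.f_strictMono (a n) (a (n + 1))).comp ih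

theorem orb_continuous (a : ℕ → Letter) (n : ℕ) : Continuous (fun x => p.orb a x n) := by
  induction n with
  | zero => exact continuous_id
  | succ n ih => exact (p.f_continuous (a n) (a (n + 1))).comp ih

theorem orb_add_int (a : ℕ → Letter) (n : ℕ) (x : ℝ) (k : ℤ) :
    p.orb a (x + 2 * π * k) n = p.orb a x n + 2 * π * k := by
  induction n with
  | zero => rfl
  | succ n ih => rw [orb, orb, ih, p.f_add_int]

theorem orb_add (a : ℕ → Letter) (x : ℝ) (i j : ℕ) :
    p.orb a x (i + j) = p.orb (fun t => a (i + t)) (p.orb a x i) j := by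
  induction j with
  | zero => rfl
  | succ j ih =>
    rw [← Nat.add_assoc, orb, orb, ih]
    rfl

lemma periodic_mul {a : ℕ → Letter} {n : ℕ} (ha : ∀ i, a (i + n) = a i) (m i : ℕ) :
    a (m * n + i) = a i := by
  induction m with
  | zero => simp
  | succ m ih =>
    rw [show (m + 1) * n + i = (m * n + i) + n by ring, ha, ih]

/-- the rotated orbit -/
lemma orb_rotate {a : ℕ → Letter} {n : ℕ} (hn : 0 < n) (ha : ∀ i, a (i + n) = a i) (j : ℕ)
    (x : ℝ) :
    p.orb a (p.orb (fun t => a (j + t)) x ((n - 1) * j)) n =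
      p.orb (fun t => a (j + t)) (p.orb (fun t => a (j + t)) x n) ((n - 1) * j) := by
  have h1 := p.orb_add (fun t => a (j + t)) x ((n - 1) * j) n
  have h2 := p.orb_add (fun t => a (j + t)) x n ((n - 1) * j)
  rw [Nat.add_comm] at h1
  rw [h1] at h2
  have e1 : (fun t => a (j + ((n - 1) * j + t))) = a := by
    funext t
    obtain ⟨k, rfl⟩ : ∃ k, n = k + 1 := ⟨n - 1, by omega⟩
    have := periodic_mul ha j t
    rw [← this]
    congr 1
    simp only [Nat.add_sub_cancel]
    ring
  have e2 : (fun t => a (j + (n + t))) = fun t => a (j + t) := by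
    funext t
    rw [show j + (n + t) = (j + t) + n by ring, ha]
  rw [e1, e2] at h2
  exact h2

/-- rotation of a periodic sequence of letters preserves both signs -/
theorem lt_of_rotate_lt {a : ℕ → Letter} {n : ℕ} (hn : 0 < n) (ha : ∀ i, a (i + n) = a i) (j : ℕ)
    {x : ℝ} {K : ℤ} (h : p.orb (fun t => a (j + t)) x n < x + 2 * π * K) :
    ∃ y, p.orb a y n < y + 2 * π * K := by
  refine ⟨p.orb (fun t => a (j + t)) x ((n - 1) * j), ?_⟩
  rw [p.orb_rotate hn ha, ← p.orb_add_int]
  exact p.orb_strictMono _ _ h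

theorem gt_of_rotate_gt {a : ℕ → Letter} {n : ℕ} (hn : 0 < n) (ha : ∀ i, a (i + n) = a i) (j : ℕ)
    {x : ℝ} {K : ℤ} (h : x + 2 * π * K < p.orb (fun t => a (j + t)) x n) :
    ∃ y, y + 2 * π * K < p.orb a y n := by
  refine ⟨p.orb (fun t => a (j + t)) x ((n - 1) * j), ?_⟩
  rw [p.orb_rotate hn ha, ← p.orb_add_int]
  exact p.orb_strictMono _ _ h

theorem orb_mul {a : ℕ → Letter} {n : ℕ} (ha : ∀ i, a (i + n) = a i) {K : ℤ}
    (h : ∀ x, p.orb a x n = x + 2 * π * K) (m : ℕ) (x : ℝ) :
    p.orb a x (m * n) = x + 2 * π * (m * K : ℤ) := by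
  induction m with
  | zero => simp [orb]
  | succ m ih =>
    have e1 : (fun t => a (m * n + t)) = a := by
      funext t
      exact periodic_mul ha m t
    rw [Nat.succ_mul, p.orb_add, e1, ih, h]
    push_cast
    ring

end Par

end Pool.Agent.Work.MP_68e044_gt
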