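import Mathlib
import Pool.Agent.Work.MP_68e044_gt.AltPar
import Pool.Agent.Work.MP_68e044_gt.Orbit

/-!
# Words whose letters at even positions are all `s`
-/

namespace Pool.Agent.Work.MP_68e044_gt

open Real

theorem Par.D_ss_lt_D_sc (p : Par) (x : ℝ) : p.D .s .s x < p.D .s .c x := by
  have hr := p.hr
  have hd := p.hd
  have hW := p.W_pos
  have hN := p.N_pos x
  have hP := p.P_pos x
  have hQ := p.Q_pos x
  have h1 := p.S_sq_pos .s .s x
  have h2 := p.S_pos .s .s x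
  have h3 : |m .s .s * (p.d * p.r * sin x)| < p.S .s .s x := abs_lt_of_sq_lt_sq (by linarith) h2.le
  have h4 := (abs_lt.mp h3).1
  have h5 : 2 * p.S .s .s x ≤ p.S .s .c x := by
    simp only [Par.S]
    have e : 2 * (p.r * √(p.P x * p.Q x)) = √((2 * p.r) ^ 2 * (p.P x * p.Q x)) := by
      rw [sqrt_mul (sq_nonneg (2 * p.r)), sqrt_sq (by positivity)]; ring
    rw [e]
    apply sqrt_le_sqrt
    have h6 : 2 * p.r * p.Q x ≤ p.W := by rw [p.W_eq x]; linarith
    calc (2 * p.r) ^ 2 * (p.P x * p.Q x) = (2 * p.r * p.P x) * (2 * p.r * p.Q x) := by ring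
      _ ≤ (2 * p.r * p.P x) * p.W := mul_le_mul_of_nonneg_left h6 (by positivity)
      _ = _ := by ring
  unfold Par.D
  simp only [Par.m] at h4 ⊢
  linarith

theorem Par.f_sc_lt_f_ss (p : Par) (x : ℝ) : p.f .s .c x < p.f .s .s x := by
  rw [p.f_eq, p.f_eq]
  have h1 := p.D_ss_lt_D_sc x
  have h2 := p.D_pos .s .s x
  have h3 : p.N x / p.D .s .c x < p.N x / p.D .s .s x :=
    div_lt_div_of_pos_left (p.N_pos x) h2 h1
  have := arctan_strictMono h3
  linarith

theorem Par.f_cs_lt_f_ss (p : Par) (x : ℝ) : p.f .c .s x < p.f .s .s x := by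
  set y := p.f .c .s x with hy
  have h1 : p.f .s .c (-y) = -x := p.f_neg_f .c .s x
  have h2 : p.f .s .s (-(p.f .s .s (-y))) = y := by
    rw [p.f_neg_f, neg_neg]
  have h3 := p.f_sc_lt_f_ss (-y)
  rw [h1] at h3
  calc y = p.f .s .s (-(p.f .s .s (-y))) := h2.symm
    _ < p.f .s .s x := p.f_strictMono .s .s (by linarith)

namespace Par

variable (p : Par)

/-- The block map for the block `s c s`. -/
noncomputable def Z (x : ℝ) : ℝ := p.f .c .s (p.f .s .c x)

/-- The block map for the block `s s s`. -/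
noncomputable def A (x : ℝ) : ℝ := p.f .s .s (p.f .s .s x)

theorem Z_le_A (x : ℝ) : p.Z x ≤ p.A x := by
  unfold Z A
  exact ((p.f_strictMono .c .s (p.f_sc_lt_f_ss x)).trans (p.f_cs_lt_f_ss _)).le

theorem Z_mono : Monotone p.Z := fun _ _ h =>
  (p.f_strictMono .c .s).monotone ((p.f_strictMono .s .c).monotone h)

theorem A_mono : Monotone p.A := fun _ _ h =>
  (p.f_strictMono .s .s).monotone ((p.f_strictMono .s .s).monotone h)

theorem orb_block {a : ℕ → Letter} (hs : ∀ i, a (2 * i) = .s) (x : ℝ) (j : ℕ) :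
    p.orb a x (2 * (j + 1)) = p.Z (p.orb a x (2 * j)) ∧ a (2 * j + 1) = .c ∨
    p.orb a x (2 * (j + 1)) = p.A (p.orb a x (2 * j)) ∧ a (2 * j + 1) = .s := by
  have h1 := hs j
  have h2 := hs (j + 1)
  have e : 2 * (j + 1) = (2 * j + 1) + 1 := by ring
  rw [e] at h2 ⊢
  rw [orb, orb, h1, h2]
  rcases h : a (2 * j + 1) with _ | _
  · left; exact ⟨rfl, rfl⟩
  · right; exact ⟨rfl, rfl⟩

theorem orb_le_iter {a : ℕ → Letter} (hs : ∀ i, a (2 * i) = .s) (x : ℝ) (j : ℕ) :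
    p.orb a x (2 * j) ≤ p.A^[j] x := by
  induction j with
  | zero => exact le_rfl
  | succ j ih =>
    rw [Function.iterate_succ_apply']
    rcases p.orb_block hs x j with ⟨h, -⟩ | ⟨h, -⟩
    · rw [h]; exact (p.Z_le_A _).trans (p.A_mono ih)
    · rw [h]; exact p.A_mono ih

theorem iter_le_orb {a : ℕ → Letter} (hs : ∀ i, a (2 * i) = .s) (x : ℝ) (j : ℕ) :
    p.Z^[j] x ≤ p.orb a x (2 * j) := by
  induction j with
  | zero => exact le_rfl
  | succ j ih =>
    rw [Function.iterate_succ_apply']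
    rcases p.orb_block hs x j with ⟨h, -⟩ | ⟨h, -⟩
    · rw [h]; exact p.Z_mono ih
    · rw [h]; exact (p.Z_mono ih).trans (p.Z_le_A _)

theorem orb_le_of_c {a : ℕ → Letter} (hs : ∀ i, a (2 * i) = .s) (hc : a 1 = .c) (x : ℝ) (j : ℕ) :
    p.orb a x (2 * (j + 1)) ≤ p.A^[j] (p.Z x) := by
  have e : 2 * (j + 1) = 2 + 2 * j := by ring
  rw [e, p.orb_add]
  have h2 : p.orb a x 2 = p.Z x := by
    rcases p.orb_block hs x 0 with ⟨h, -⟩ | ⟨-, h⟩
    · exact h
    · rw [show 2 * 0 + 1 = 1 by rfl, hc] at h; cases h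
  rw [h2]
  exact p.orb_le_iter (fun i => by
    have := hs (i + 1)
    rwa [show 2 * (i + 1) = 2 + 2 * i by ring] at this) _ _

theorem le_orb_of_s {a : ℕ → Letter} (hs : ∀ i, a (2 * i) = .s) (hc : a 1 = .s) (x : ℝ) (j : ℕ) :
    p.Z^[j] (p.A x) ≤ p.orb a x (2 * (j + 1)) := by
  have e : 2 * (j + 1) = 2 + 2 * j := by ring
  rw [e, p.orb_add]
  have h2 : p.orb a x 2 = p.A x := by
    rcases p.orb_block hs x 0 with ⟨-, h⟩ | ⟨h, -⟩
    · rw [show 2 * 0 + 1 = 1 by rfl, hc] at h; cases h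
    · exact h
  rw [h2]
  exact p.iter_le_orb (fun i => by
    have := hs (i + 1)
    rwa [show 2 * (i + 1) = 2 + 2 * i by ring] at this) _ _

end Par

theorem alt_signs {a : ℕ → Letter} {K : ℕ} (hK : 0 < K) (ha : ∀ i, a (i + 2 * K) = a i)
    (hs : ∀ i, a (2 * i) = .s) (hc : ∃ i, a (2 * i + 1) = .c) (hs' : ∃ i, a (2 * i + 1) = .s) :
    ∃ p : Par, ∃ M : ℤ, (∃ x, p.orb a x (2 * K) < x + 2 * π * M) ∧
      ∃ y, y + 2 * π * M < p.orb a y (2 * K) := by
  obtain ⟨i, hi⟩ := hc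
  obtain ⟨j, hj⟩ := hs'
  obtain ⟨k, rfl⟩ : ∃ k, K = k + 1 := ⟨K - 1, by omega⟩
  have hk : 1 ≤ k := by
    by_contra hcon
    have h0 : k = 0 := by omega
    subst h0
    have h1 : ∀ i, a (2 * i + 1) = a 1 := by
      intro i
      induction i with
      | zero => rfl
      | succ i ih =>
        rw [← ih, ← ha (2 * i + 1)]
        congr 1
    rw [h1] at hi hj
    rw [hi] at hj
    cases hj
  obtain ⟨p, ⟨x, hx⟩, ⟨y, hy⟩⟩ := exists_par k hk
  refine ⟨p, k, ?_, ?_⟩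
  · refine p.lt_of_rotate_lt (by omega) ha (2 * i) (x := x) (K := k) ?_
    refine lt_of_le_of_lt (p.orb_le_of_c (a := fun t => a (2 * i + t)) (fun t => ?_) hi x k) ?_
    · have := hs (i + t)
      rwa [mul_add] at this
    · exact_mod_cast hx
  · refine p.gt_of_rotate_gt (by omega) ha (2 * j) (x := y) (K := k) ?_
    refine lt_of_lt_of_le ?_ (p.le_orb_of_s (a := fun t => a (2 * j + t)) (fun t => ?_) hj y k)
    · exact_mod_cast hy
    · have := hs (j + t)
      rwa [mul_add] at this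

end Pool.Agent.Work.MP_68e044_gt
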