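import Mathlib
import Pool.Agent.Work.MP_68e044_gt.Angle

/-!
# Geometry of the annulus: frames, parametrised objects, sides
-/

namespace Pool.Agent.Work.MP_68e044_gt

open Real

/-- The parameters of an annulus. -/
noncomputable def Annulus.par (a : Annulus) : Par where
  r := a.r
  R := a.R
  d := dist a.o a.O
  hr := a.r_pos
  hd := dist_nonneg
  hR := a.inside

/-- The radius of the inscribed circle at angle `x`. -/
noncomputable def Par.rho (p : Par) (x : ℝ) : ℝ := p.N x / (2 * p.Q x)

/-- A unit vector pointing from the inner centre to the outer centre. -/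
structure Frame (a : Annulus) where
  u : ℂ
  norm_u : ‖u‖ = 1
  hO : a.O = a.o + (a.par.d : ℂ) * u

namespace Frame

variable {a : Annulus} (F : Frame a)

/-- The unit vector at angle `θ` from the direction of the centres. -/
noncomputable def e (θ : ℝ) : ℂ := F.u * Complex.exp (θ * Complex.I)

/-- The point with coordinates `ξ`, `η` in the orthonormal frame at `o` with first vector `e θ`. -/
noncomputable def pt (θ ξ η : ℝ) : ℂ := a.o + F.e θ * (ξ + η * Complex.I)

/-- The complex coordinate of `p` in the frame at angle `θ`. -/
noncomputable def co (θ : ℝ) (p : ℂ) : ℂ := (starRingEnd ℂ) (F.e θ) * (p - a.o)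

/-- The object of kind `k` at angle `θ`. -/
noncomputable def obj : Letter → ℝ → Set ℂ
  | .c, θ => Metric.sphere (F.pt θ (a.r + a.par.rho θ) 0) (a.par.rho θ)
  | .s, θ => {w | ∃ s : ℝ, w = F.pt θ a.r s ∧ dist w a.O ≤ a.R}

/-- The contact point of the inscribed circle at angle `θ` with the outer circle. -/
noncomputable def Y (θ : ℝ) : ℂ :=
  F.pt θ (a.r + a.par.rho θ * a.par.Q θ / (a.R - a.par.rho θ))
    (a.par.rho θ * (a.par.d * sin θ) / (a.R - a.par.rho θ))

/-- Positive on one side of the object (the direction of increasing angle), negative on the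
other: for circles, up to a positive factor, the cross product of `Y - X` and `p - X`, where `X`,
`Y` are the contact points with the two boundary circles; for chords the coordinate along the
chord. -/
noncomputable def side : Letter → ℝ → ℂ → ℝ
  | .c, θ, p => a.par.Q θ * (F.co θ p).im - a.par.d * sin θ * ((F.co θ p).re - a.r)
  | .s, θ, p => (F.co θ p).im

end Frame

/-- The circles tangent to both boundary circles that enclose the inner circle. -/
def Encl (a : Annulus) (S : Set ℂ) : Prop :=
  ∃ (z : ℂ) (ρ : ℝ), 0 < ρ ∧ S = Metric.sphere z ρ ∧ dist z a.o + a.r = ρ ∧ dist z a.O + ρ = a.R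

end Pool.Agent.Work.MP_68e044_gt
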