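import Mathlib
import Pool.Agent.Work.MP_68e044_gt.GeoDefs

/-!
# Coordinates in the frames
-/

namespace Pool.Agent.Work.MP_68e044_gt

open Real

namespace Frame

variable {a : Annulus} (F : Frame a)

theorem norm_e (θ : ℝ) : ‖F.e θ‖ = 1 := by
  unfold Frame.e
  rw [norm_mul, F.norm_u, Complex.norm_exp_ofReal_mul_I, one_mul]

theorem e_mul_conj (θ : ℝ) : F.e θ * (starRingEnd ℂ) (F.e θ) = 1 := by
  rw [Complex.mul_conj, Complex.normSq_eq_norm_sq, F.norm_e]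
  norm_num

theorem co_pt (θ ξ η : ℝ) : F.co θ (F.pt θ ξ η) = ξ + η * Complex.I := by
  unfold Frame.co Frame.pt
  rw [add_sub_cancel_left, ← mul_assoc, mul_comm _ (F.e θ), F.e_mul_conj, one_mul]

theorem co_pt_re (θ ξ η : ℝ) : (F.co θ (F.pt θ ξ η)).re = ξ := by
  rw [F.co_pt]; simp

theorem co_pt_im (θ ξ η : ℝ) : (F.co θ (F.pt θ ξ η)).im = η := by
  rw [F.co_pt]; simp

theorem pt_co (θ : ℝ) (p : ℂ) : F.pt θ (F.co θ p).re (F.co θ p).im = p := by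
  unfold Frame.pt
  rw [Complex.re_add_im]
  unfold Frame.co
  rw [← mul_assoc, F.e_mul_conj, one_mul]
  ring

theorem exists_pt (θ : ℝ) (p : ℂ) : ∃ ξ η : ℝ, p = F.pt θ ξ η :=
  ⟨_, _, (F.pt_co θ p).symm⟩

theorem pt_inj {θ ξ η ξ' η' : ℝ} (h : F.pt θ ξ η = F.pt θ ξ' η') : ξ = ξ' ∧ η = η' := by
  have h1 := congrArg (F.co θ) h
  rw [F.co_pt, F.co_pt] at h1
  refine ⟨?_, ?_⟩
  · simpa using congrArg Complex.re h1
  · simpa using congrArg Complex.im h1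

theorem dist_pt (θ ξ η ξ' η' : ℝ) :
    dist (F.pt θ ξ η) (F.pt θ ξ' η') ^ 2 = (ξ - ξ') ^ 2 + (η - η') ^ 2 := by
  have h : F.pt θ ξ η - F.pt θ ξ' η' =
      F.e θ * (((ξ - ξ' : ℝ) : ℂ) + ((η - η' : ℝ) : ℂ) * Complex.I) := by
    unfold Frame.pt; push_cast; ring
  rw [Complex.dist_eq, h, norm_mul, F.norm_e, one_mul, ← Complex.normSq_eq_norm_sq,
    Complex.normSq_add_mul_I]

theorem o_eq (θ : ℝ) : a.o = F.pt θ 0 0 := by
  unfold Frame.pt; simp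

theorem O_eq (θ : ℝ) : a.O = F.pt θ (a.par.d * cos θ) (-(a.par.d * sin θ)) := by
  conv_lhs => rw [F.hO]
  unfold Frame.pt Frame.e
  rw [Complex.exp_mul_I]
  have h := Complex.cos_sq_add_sin_sq (θ : ℂ)
  push_cast
  linear_combination (-(a.par.d : ℂ) * F.u) * h +
    (a.par.d : ℂ) * F.u * (Complex.sin θ) ^ 2 * Complex.I_sq

theorem pt_add (θ Δ ξ η : ℝ) :
    F.pt (θ + Δ) ξ η = F.pt θ (ξ * cos Δ - η * sin Δ) (ξ * sin Δ + η * cos Δ) := by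
  unfold Frame.pt Frame.e
  have h : Complex.exp (((θ + Δ : ℝ) : ℂ) * Complex.I) =
      Complex.exp ((θ : ℂ) * Complex.I) * ((cos Δ : ℝ) + (sin Δ : ℝ) * Complex.I) := by
    push_cast
    rw [add_mul, Complex.exp_add, Complex.exp_mul_I (Δ : ℂ)]
  rw [h]
  push_cast
  linear_combination (F.u * Complex.exp ((θ : ℂ) * Complex.I) * (η : ℂ) * Complex.sin Δ) * Complex.I_sq

theorem dist_pt_o (θ ξ η : ℝ) : dist (F.pt θ ξ η) a.o ^ 2 = ξ ^ 2 + η ^ 2 := by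
  conv_lhs => rw [F.o_eq θ]
  rw [F.dist_pt]; ring

theorem dist_pt_O (θ ξ η : ℝ) : dist (F.pt θ ξ η) a.O ^ 2 =
    (ξ - a.par.d * cos θ) ^ 2 + (η + a.par.d * sin θ) ^ 2 := by
  conv_lhs => rw [F.O_eq θ]
  rw [F.dist_pt]; ring

end Frame

end Pool.Agent.Work.MP_68e044_gt
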