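import Mathlib
import Pool.Agent.Work.MP_68e044_gt.GeoBase
import Pool.Agent.Work.MP_68e044_gt.Basic

/-!
# Parametrisation of the inscribed circles and tangent chords
-/

namespace Pool.Agent.Work.MP_68e044_gt

open Real

theorem exists_frame' (a : Annulus) : Nonempty (Frame a) := by
  by_cases h : a.o = a.O
  · refine ⟨⟨1, by simp, ?_⟩⟩
    have : a.par.d = 0 := by simp [Annulus.par, h]
    rw [this, ← h]; simp
  · have h1 : a.O - a.o ≠ 0 := sub_ne_zero.mpr (Ne.symm h)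
    have h2 : ‖a.O - a.o‖ ≠ 0 := norm_ne_zero_iff.mpr h1
    refine ⟨⟨(a.O - a.o) / (‖a.O - a.o‖ : ℝ), ?_, ?_⟩⟩
    · rw [norm_div, Complex.norm_real, norm_norm, div_self h2]
    · have : a.par.d = ‖a.O - a.o‖ := by
        simp only [Annulus.par]
        rw [dist_comm, dist_eq_norm]
      rw [this]
      have h3 : ((‖a.O - a.o‖ : ℝ) : ℂ) ≠ 0 := by exact_mod_cast h2
      field_simp
      ring

theorem Par.rho_pos (p : Par) (x : ℝ) : 0 < p.rho x := by
  have h1 := p.N_pos x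
  have h2 := p.Q_pos x
  unfold Par.rho; positivity

theorem Par.two_rho_mul_Q (p : Par) (x : ℝ) : 2 * p.rho x * p.Q x = p.N x := by
  have h2 := p.Q_pos x
  unfold Par.rho; field_simp

theorem Par.rho_lt (p : Par) (x : ℝ) : p.rho x < p.R := by
  have h1 := p.two_rho_mul_Q x
  have h2 := p.Q_pos x
  have h3 : 2 * p.R * p.Q x - p.N x = p.Q x ^ 2 + p.d ^ 2 * sin x ^ 2 := by
    rw [sin_sq]; unfold Par.Q Par.N; ring
  have h4 : 0 < p.Q x ^ 2 + p.d ^ 2 * sin x ^ 2 := by positivity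
  rw [← h3, ← h1] at h4
  have h5 : 0 < (2 * p.Q x) * (p.R - p.rho x) := by
    calc 0 < 2 * p.R * p.Q x - 2 * p.rho x * p.Q x := h4
      _ = _ := by ring
  have := (mul_pos_iff_of_pos_left (by positivity : (0:ℝ) < 2 * p.Q x)).mp h5
  linarith

theorem Annulus.par_r (a : Annulus) : a.par.r = a.r := rfl
theorem Annulus.par_R (a : Annulus) : a.par.R = a.R := rfl

namespace Frame

variable {a : Annulus} (F : Frame a)

theorem exists_frame (a : Annulus) : Nonempty (Frame a) := exists_frame' a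

/-- `r + ρ < R` type facts: the inscribed circle at angle `θ` touches both circles -/
theorem dist_center_o (θ : ℝ) :
    dist (F.pt θ (a.r + a.par.rho θ) 0) a.o = a.r + a.par.rho θ := by
  have h := F.dist_pt_o θ (a.r + a.par.rho θ) 0
  have h1 := a.par.rho_pos θ
  have h2 := a.r_pos
  rw [zero_pow two_ne_zero, add_zero] at h
  exact (sq_eq_sq₀ dist_nonneg (by positivity)).mp h

theorem dist_center_O (θ : ℝ) :
    dist (F.pt θ (a.r + a.par.rho θ) 0) a.O = a.R - a.par.rho θ := by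
  have h := F.dist_pt_O θ (a.r + a.par.rho θ) 0
  have h1 := a.par.rho_lt θ
  have h2 := a.par.two_rho_mul_Q θ
  rw [a.par_R] at h1
  have e : (a.r + a.par.rho θ - a.par.d * cos θ) ^ 2 + (0 + a.par.d * sin θ) ^ 2 =
      (a.R - a.par.rho θ) ^ 2 := by
    rw [zero_add, mul_pow, sin_sq]
    unfold Par.Q Par.N at h2
    rw [a.par_r, a.par_R] at h2
    linear_combination h2
  rw [e] at h
  exact (sq_eq_sq₀ dist_nonneg (by linarith)).mp h

theorem dist_pt_eq_iff {θ ξ η : ℝ} {c : ℂ} {ξ' η' ρ : ℝ} (hc : c = F.pt θ ξ' η') (hρ : 0 ≤ ρ) :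
    dist (F.pt θ ξ η) c = ρ ↔ (ξ - ξ') ^ 2 + (η - η') ^ 2 = ρ ^ 2 := by
  rw [← sq_eq_sq₀ dist_nonneg hρ, hc, F.dist_pt]

theorem dist_pt_le_iff {θ ξ η : ℝ} {c : ℂ} {ξ' η' ρ : ℝ} (hc : c = F.pt θ ξ' η') (hρ : 0 ≤ ρ) :
    dist (F.pt θ ξ η) c ≤ ρ ↔ (ξ - ξ') ^ 2 + (η - η') ^ 2 ≤ ρ ^ 2 := by
  rw [← sq_le_sq₀ dist_nonneg hρ, hc, F.dist_pt]

theorem obj_inner (k : Letter) (θ : ℝ) : F.obj k θ ∩ a.inner = {F.pt θ a.r 0} := by
  have hr := a.r_pos
  have hρ := a.par.rho_pos θ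
  ext w
  obtain ⟨ξ, η, rfl⟩ := F.exists_pt θ w
  simp only [Set.mem_inter_iff, Set.mem_singleton_iff, Annulus.inner, Metric.mem_sphere]
  rw [F.dist_pt_eq_iff (F.o_eq θ) hr.le]
  cases k with
  | c =>
    simp only [obj, Metric.mem_sphere]
    rw [F.dist_pt_eq_iff rfl hρ.le]
    constructor
    · rintro ⟨h1, h2⟩
      have hsum : 0 < a.r + a.par.rho θ := by positivity
      have h3 : ξ = a.r := by
        have : (a.r + a.par.rho θ) * (ξ - a.r) = 0 := by linear_combination (h2 - h1) / 2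
        rcases mul_eq_zero.mp this with h | h
        · exact absurd h hsum.ne'
        · linarith
      have h4 : η ^ 2 = 0 := by rw [h3] at h2; linarith
      have h5 : η = 0 := by simpa using h4
      rw [h3, h5]
    · intro h
      obtain ⟨rfl, rfl⟩ := F.pt_inj h
      constructor <;> ring
  | s =>
    simp only [obj, Set.mem_ofPred_eq]
    constructor
    · rintro ⟨⟨s, h1, h2⟩, h3⟩
      obtain ⟨h4, rfl⟩ := F.pt_inj h1
      have h5 : η ^ 2 = 0 := by rw [h4] at h3; linarith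
      have h6 : η = 0 := by simpa using h5
      rw [h4, h6]
    · intro h
      obtain ⟨rfl, rfl⟩ := F.pt_inj h
      refine ⟨⟨0, rfl, ?_⟩, by ring⟩
      have h1 : dist (F.pt θ a.r 0) a.o = a.r := by
        rw [F.dist_pt_eq_iff (F.o_eq θ) hr.le]; ring
      have h2 := dist_triangle (F.pt θ a.r 0) a.o a.O
      have h3 := a.inside
      linarith

theorem obj_c_outer (θ : ℝ) : F.obj .c θ ∩ a.outer = {F.Y θ} := by
  have hr := a.r_pos
  have hρ := a.par.rho_pos θ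
  have hlt := a.par.rho_lt θ
  rw [a.par_R] at hlt
  have h2 := a.par.two_rho_mul_Q θ
  have e : (a.r + a.par.rho θ - a.par.d * cos θ) ^ 2 + (a.par.d * sin θ) ^ 2 =
      (a.R - a.par.rho θ) ^ 2 := by
    rw [mul_pow, sin_sq]
    unfold Par.Q Par.N at h2
    rw [a.par_r, a.par_R] at h2
    linear_combination h2
  have hQ : a.par.Q θ = a.R + a.r - a.par.d * cos θ := rfl
  ext w
  obtain ⟨ξ, η, rfl⟩ := F.exists_pt θ w
  simp only [Set.mem_inter_iff, Set.mem_singleton_iff, Annulus.outer, Metric.mem_sphere, obj]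
  rw [F.dist_pt_eq_iff (F.O_eq θ) (by linarith), F.dist_pt_eq_iff rfl hρ.le]
  rw [Y, hQ]
  generalize a.par.rho θ = ρ at *
  have hv : 0 < a.R - ρ := by linarith
  constructor
  · rintro ⟨h3, h4⟩
    have h5 : (ξ - (a.r + ρ) - ρ * (a.r + ρ - a.par.d * cos θ) / (a.R - ρ)) ^ 2 +
        (η - ρ * (a.par.d * sin θ) / (a.R - ρ)) ^ 2 = 0 := by
      have h6 : ((ξ - (a.r + ρ)) * (a.R - ρ) - ρ * (a.r + ρ - a.par.d * cos θ)) ^ 2 +
        (η * (a.R - ρ) - ρ * (a.par.d * sin θ)) ^ 2 = 0 := by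
        linear_combination ((a.R - ρ) ^ 2 + ρ * (a.R - ρ)) * h3 - ρ * (a.R - ρ) * h4 +
          (ρ ^ 2 + ρ * (a.R - ρ)) * e
      have h7 : (ξ - (a.r + ρ) - ρ * (a.r + ρ - a.par.d * cos θ) / (a.R - ρ)) ^ 2 +
        (η - ρ * (a.par.d * sin θ) / (a.R - ρ)) ^ 2 =
        (((ξ - (a.r + ρ)) * (a.R - ρ) - ρ * (a.r + ρ - a.par.d * cos θ)) ^ 2 +
        (η * (a.R - ρ) - ρ * (a.par.d * sin θ)) ^ 2) / (a.R - ρ) ^ 2 := by
        field_simp
      rw [h7, h6, zero_div]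
    have h8 := (add_eq_zero_iff_of_nonneg (sq_nonneg _) (sq_nonneg _)).mp h5
    have h9 := pow_eq_zero_iff (two_ne_zero) |>.mp h8.1
    have h10 := pow_eq_zero_iff (two_ne_zero) |>.mp h8.2
    have h11 : ξ = a.r + ρ * (a.R + a.r - a.par.d * cos θ) / (a.R - ρ) := by
      have : ξ = a.r + ρ + ρ * (a.r + ρ - a.par.d * cos θ) / (a.R - ρ) := by linarith
      rw [this]; field_simp; ring
    rw [h11, sub_eq_zero.mp h10]
  · intro h
    obtain ⟨rfl, rfl⟩ := F.pt_inj h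
    constructor
    · have h6 : (a.r + ρ * (a.R + a.r - a.par.d * cos θ) / (a.R - ρ) - (a.r + ρ)) =
        ρ * (a.r + ρ - a.par.d * cos θ) / (a.R - ρ) := by field_simp; ring
      rw [h6]
      have h7 : (ρ * (a.r + ρ - a.par.d * cos θ) / (a.R - ρ)) ^ 2 +
        (ρ * (a.par.d * sin θ) / (a.R - ρ) - 0) ^ 2 = ρ ^ 2 *
        ((a.r + ρ - a.par.d * cos θ) ^ 2 + (a.par.d * sin θ) ^ 2) / (a.R - ρ) ^ 2 := by
        field_simp; ring
      rw [h7, e]
      field_simp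
    · have h6 : a.r + ρ * (a.R + a.r - a.par.d * cos θ) / (a.R - ρ) - a.par.d * cos θ =
        a.R * (a.r + ρ - a.par.d * cos θ) / (a.R - ρ) := by field_simp; ring
      have h8 : ρ * (a.par.d * sin θ) / (a.R - ρ) - -(a.par.d * sin θ) =
        a.R * (a.par.d * sin θ) / (a.R - ρ) := by field_simp; ring
      rw [h6, h8]
      have h7 : (a.R * (a.r + ρ - a.par.d * cos θ) / (a.R - ρ)) ^ 2 +
        (a.R * (a.par.d * sin θ) / (a.R - ρ)) ^ 2 = a.R ^ 2 *
        ((a.r + ρ - a.par.d * cos θ) ^ 2 + (a.par.d * sin θ) ^ 2) / (a.R - ρ) ^ 2 := by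
        field_simp
      rw [h7, e]
      field_simp

/-- Half the length of the chord at angle `θ`. -/
noncomputable def hl (_F : Frame a) (θ : ℝ) : ℝ := √(a.par.P θ * a.par.Q θ)

theorem hl_pos (θ : ℝ) : 0 < F.hl θ :=
  sqrt_pos.mpr (mul_pos (a.par.P_pos θ) (a.par.Q_pos θ))

theorem hl_sq (θ : ℝ) : F.hl θ ^ 2 = a.R ^ 2 - (a.r - a.par.d * cos θ) ^ 2 := by
  unfold hl
  rw [sq_sqrt (mul_pos (a.par.P_pos θ) (a.par.Q_pos θ)).le]
  unfold Par.P Par.Q
  rw [a.par_r, a.par_R]; ring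

theorem R_pos' (_F : Frame a) : 0 < a.R := a.par.R_pos

theorem chord_dist_le (θ s : ℝ) :
    dist (F.pt θ a.r s) a.O ≤ a.R ↔
      -(a.par.d * sin θ) - F.hl θ ≤ s ∧ s ≤ -(a.par.d * sin θ) + F.hl θ := by
  rw [F.dist_pt_le_iff (F.O_eq θ) F.R_pos'.le]
  have h1 := F.hl_sq θ
  have h2 := F.hl_pos θ
  have e : (a.r - a.par.d * cos θ) ^ 2 + (s - -(a.par.d * sin θ)) ^ 2 ≤ a.R ^ 2 ↔
      (s - -(a.par.d * sin θ)) ^ 2 ≤ F.hl θ ^ 2 := by
    rw [h1]; constructor <;> intro h <;> linarith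
  rw [e, sq_le_sq, abs_of_pos h2, abs_le]
  constructor <;> rintro ⟨h3, h4⟩ <;> constructor <;> linarith

theorem chord_dist_eq (θ s : ℝ) :
    dist (F.pt θ a.r s) a.O = a.R ↔
      s = -(a.par.d * sin θ) - F.hl θ ∨ s = -(a.par.d * sin θ) + F.hl θ := by
  rw [F.dist_pt_eq_iff (F.O_eq θ) F.R_pos'.le]
  have h1 := F.hl_sq θ
  have e : (a.r - a.par.d * cos θ) ^ 2 + (s - -(a.par.d * sin θ)) ^ 2 = a.R ^ 2 ↔
      (s - -(a.par.d * sin θ)) ^ 2 = F.hl θ ^ 2 := by
    rw [h1]; constructor <;> intro h <;> linarith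
  rw [e, sq_eq_sq_iff_eq_or_eq_neg]
  constructor <;> rintro (h3 | h3)
  · right; linarith
  · left; linarith
  · right; linarith
  · left; linarith

theorem segment_pt (θ ξ η₁ η₂ : ℝ) (h : η₁ ≤ η₂) :
    segment ℝ (F.pt θ ξ η₁) (F.pt θ ξ η₂) = {w | ∃ s : ℝ, w = F.pt θ ξ s ∧ η₁ ≤ s ∧ s ≤ η₂} := by
  ext w
  rw [segment_eq_image]
  simp only [Set.mem_image, Set.mem_Icc, Set.mem_ofPred_eq]
  constructor
  · rintro ⟨t, ⟨ht0, ht1⟩, rfl⟩
    refine ⟨(1 - t) * η₁ + t * η₂, ?_, ?_, ?_⟩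
    · unfold pt; simp only [Complex.real_smul]; push_cast; ring
    · nlinarith
    · nlinarith
  · rintro ⟨s, rfl, h1, h2⟩
    rcases eq_or_lt_of_le h with h3 | h3
    · refine ⟨0, by simp, ?_⟩
      have : s = η₁ := by linarith
      simp [this]
    · have h4 : 0 < η₂ - η₁ := by linarith
      refine ⟨(s - η₁) / (η₂ - η₁), ⟨by apply div_nonneg <;> linarith, ?_⟩, ?_⟩
      · rw [div_le_one h4]; linarith
      · have h5 : s = (1 - (s - η₁) / (η₂ - η₁)) * η₁ + (s - η₁) / (η₂ - η₁) * η₂ := by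
          field_simp; ring
        conv_rhs => rw [h5]
        unfold pt; simp only [Complex.real_smul]; push_cast; ring

theorem obj_s_eq_segment (θ : ℝ) : F.obj .s θ =
    segment ℝ (F.pt θ a.r (-(a.par.d * sin θ) - F.hl θ)) (F.pt θ a.r (-(a.par.d * sin θ) + F.hl θ)) := by
  have h := F.hl_pos θ
  rw [F.segment_pt _ _ _ _ (by linarith)]
  ext w
  simp only [obj, Set.mem_ofPred_eq]
  constructor
  · rintro ⟨s, rfl, h1⟩
    exact ⟨s, rfl, (F.chord_dist_le θ s).mp h1⟩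
  · rintro ⟨s, rfl, h1⟩
    exact ⟨s, rfl, (F.chord_dist_le θ s).mpr h1⟩

theorem obj_isObj (k : Letter) (θ : ℝ) : a.IsObj k (F.obj k θ) := by
  have hr := a.r_pos
  have hρ := a.par.rho_pos θ
  cases k with
  | c =>
    refine ⟨F.pt θ (a.r + a.par.rho θ) 0, a.par.rho θ, hρ, rfl, ?_, ⟨_, F.obj_inner .c θ⟩,
      ⟨_, F.obj_c_outer θ⟩⟩
    intro w hw
    simp only [obj, Metric.mem_sphere] at hw
    have h1 := F.dist_center_o θ
    have h2 := F.dist_center_O θ
    refine ⟨?_, ?_⟩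
    · rw [Metric.mem_closedBall]
      have := dist_triangle w (F.pt θ (a.r + a.par.rho θ) 0) a.O
      linarith
    · rw [Metric.mem_ball]
      have := dist_triangle (F.pt θ (a.r + a.par.rho θ) 0) w a.o
      rw [dist_comm _ w] at this
      linarith
  | s =>
    have h := F.hl_pos θ
    refine ⟨F.pt θ a.r (-(a.par.d * sin θ) - F.hl θ), F.pt θ a.r (-(a.par.d * sin θ) + F.hl θ),
      (F.chord_dist_eq θ _).mpr (Or.inl rfl), (F.chord_dist_eq θ _).mpr (Or.inr rfl), ?_,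
      F.obj_s_eq_segment θ, ⟨_, F.obj_inner .s θ⟩⟩
    intro h1
    have := (F.pt_inj h1).2
    linarith

theorem exists_angle (z : ℂ) : ∃ θ, z = F.pt θ (dist z a.o) 0 := by
  have hu : F.u ≠ 0 := by
    intro h
    have := F.norm_u
    rw [h, norm_zero] at this
    exact zero_ne_one this
  refine ⟨Complex.arg ((z - a.o) / F.u), ?_⟩
  have h1 := Complex.norm_mul_exp_arg_mul_I ((z - a.o) / F.u)
  rw [norm_div, F.norm_u, div_one, ← dist_eq_norm] at h1
  unfold pt e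
  have h2 : (dist z a.o : ℂ) * Complex.exp (Complex.arg ((z - a.o) / F.u) * Complex.I) * F.u =
      z - a.o := by
    rw [h1]; field_simp
  push_cast
  linear_combination -h2

theorem exists_of_isTangentChord {S : Set ℂ} (h : a.IsTangentChord S) :
    ∃ θ, S = F.obj .s θ := by
  obtain ⟨p, q, hp, hq, hne, hS, t, ht⟩ := h
  have hr := a.r_pos
  have htS : t ∈ S ∩ a.inner := by rw [ht]; exact Set.mem_singleton t
  have hto : dist t a.o = a.r := htS.2
  obtain ⟨θ, hθ⟩ := F.exists_angle t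
  rw [hto] at hθ
  refine ⟨θ, ?_⟩
  obtain ⟨ξ₁, η₁, rfl⟩ := F.exists_pt θ p
  obtain ⟨ξ₂, η₂, rfl⟩ := F.exists_pt θ q
  have hfar : ∀ w ∈ a.outer, a.r < dist w a.o := by
    intro w hw
    have h1 : dist w a.O = a.R := hw
    have h2 := dist_triangle w a.o a.O
    have h3 := a.inside
    linarith
  have hp1 : a.r ^ 2 < ξ₁ ^ 2 + η₁ ^ 2 := by
    rw [← F.dist_pt_o θ]
    exact pow_lt_pow_left₀ (hfar _ hp) hr.le two_ne_zero
  have hq1 : a.r ^ 2 < ξ₂ ^ 2 + η₂ ^ 2 := by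
    rw [← F.dist_pt_o θ]
    exact pow_lt_pow_left₀ (hfar _ hq) hr.le two_ne_zero
  have htseg : t ∈ segment ℝ (F.pt θ ξ₁ η₁) (F.pt θ ξ₂ η₂) := hS ▸ htS.1
  have hconv : ∀ c : ℝ, (1 - c) • F.pt θ ξ₁ η₁ + c • F.pt θ ξ₂ η₂ =
      F.pt θ ((1 - c) * ξ₁ + c * ξ₂) ((1 - c) * η₁ + c * η₂) := by
    intro c
    unfold pt; simp only [Complex.real_smul]; push_cast; ring
  rw [segment_eq_image] at htseg
  obtain ⟨l, ⟨hl0, hl1⟩, hl⟩ := htseg
  simp only at hl
  rw [hconv, hθ] at hl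
  obtain ⟨hx, hy⟩ := F.pt_inj hl
  -- uniqueness of the contact point on the segment
  have huniq : ∀ c : ℝ, 0 ≤ c → c ≤ 1 →
      ((1 - c) * ξ₁ + c * ξ₂) ^ 2 + ((1 - c) * η₁ + c * η₂) ^ 2 = a.r ^ 2 →
      (1 - c) * ξ₁ + c * ξ₂ = a.r ∧ (1 - c) * η₁ + c * η₂ = 0 := by
    intro c hc0 hc1 hc
    have h1 : F.pt θ ((1 - c) * ξ₁ + c * ξ₂) ((1 - c) * η₁ + c * η₂) ∈ S ∩ a.inner := by
      refine ⟨?_, ?_⟩
      · rw [hS, segment_eq_image]
        exact ⟨c, ⟨hc0, hc1⟩, hconv c⟩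
      · show dist _ _ = _
        rw [F.dist_pt_eq_iff (F.o_eq θ) hr.le, sub_zero, sub_zero, hc]
    rw [ht, hθ] at h1
    exact F.pt_inj h1
  set w₁ := ξ₂ - ξ₁ with hw₁
  set w₂ := η₂ - η₁ with hw₂
  have hw : 0 < w₁ ^ 2 + w₂ ^ 2 := by
    rcases eq_or_ne w₁ 0 with h1 | h1
    · rcases eq_or_ne w₂ 0 with h2 | h2
      · exfalso; apply hne
        rw [show ξ₁ = ξ₂ by linarith, show η₁ = η₂ by linarith]
      · positivity
    · positivity
  have hξ₁ : ξ₁ = a.r - l * w₁ := by rw [← hx, hw₁]; ring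
  have hη₁ : η₁ = - l * w₂ := by
    have : η₁ = ((1 - l) * η₁ + l * η₂) - l * w₂ := by rw [hw₂]; ring
    rw [hy] at this; linarith
  have hξ₂ : ξ₂ = a.r + (1 - l) * w₁ := by
    have : ξ₂ = ξ₁ + w₁ := by rw [hw₁]; ring
    rw [this, hξ₁]; ring
  have hη₂ : η₂ = (1 - l) * w₂ := by
    have : η₂ = η₁ + w₂ := by rw [hw₂]; ring
    rw [this, hη₁]; ring
  have hp2 : 0 < l * (l * (w₁ ^ 2 + w₂ ^ 2) - 2 * a.r * w₁) := by
    rw [hξ₁, hη₁] at hp1; linarith
  have hq2 : 0 < (1 - l) * ((1 - l) * (w₁ ^ 2 + w₂ ^ 2) + 2 * a.r * w₁) := by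
    rw [hξ₂, hη₂] at hq1; linarith
  have hl0' : 0 < l := by
    rcases eq_or_lt_of_le hl0 with h1 | h1
    · rw [← h1] at hp2; simp at hp2
    · exact h1
  have hl1' : 0 < 1 - l := by
    rcases eq_or_lt_of_le hl1 with h1 | h1
    · rw [h1] at hq2; simp at hq2
    · linarith
  have hp3 := (mul_pos_iff_of_pos_left hl0').mp hp2
  have hq3 := (mul_pos_iff_of_pos_left hl1').mp hq2
  have hs := huniq (l - 2 * a.r * w₁ / (w₁ ^ 2 + w₂ ^ 2)) ?_ ?_ ?_
  · have h1 := hs.1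
    have h2 : (1 - (l - 2 * a.r * w₁ / (w₁ ^ 2 + w₂ ^ 2))) * ξ₁ +
        (l - 2 * a.r * w₁ / (w₁ ^ 2 + w₂ ^ 2)) * ξ₂ =
        ((1 - l) * ξ₁ + l * ξ₂) - 2 * a.r * w₁ / (w₁ ^ 2 + w₂ ^ 2) * w₁ := by
      rw [hw₁]; ring
    rw [h2, ← hx] at h1
    have h3 : 2 * a.r * w₁ / (w₁ ^ 2 + w₂ ^ 2) * w₁ = 0 := by linarith
    have h4 : w₁ = 0 := by
      have h5 : 2 * a.r * w₁ ^ 2 = 0 := by
        field_simp at h3
        nlinarith
      have h6 : w₁ ^ 2 = 0 := by
        rcases mul_eq_zero.mp h5 with h | h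
        · linarith
        · exact h
      simpa using h6
    rw [h4, mul_zero, sub_zero] at hξ₁
    rw [h4, mul_zero, add_zero] at hξ₂
    have hp' : dist (F.pt θ ξ₁ η₁) a.O = a.R := hp
    have hq' : dist (F.pt θ ξ₂ η₂) a.O = a.R := hq
    rw [hξ₁] at hp' hne hS
    rw [hξ₂] at hq' hne hS
    rw [F.chord_dist_eq] at hp' hq'
    rw [hS, F.obj_s_eq_segment]
    rcases hp' with h6 | h6 <;> rcases hq' with h7 | h7
    · exact absurd (by rw [h6, h7]) hne
    · rw [h6, h7]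
    · rw [h6, h7, segment_symm]
    · exact absurd (by rw [h6, h7]) hne
  · rw [sub_nonneg, div_le_iff₀ hw]; linarith
  · rw [sub_le_iff_le_add, ← sub_le_iff_le_add', le_div_iff₀ hw]; linarith
  · have h1 : (1 - (l - 2 * a.r * w₁ / (w₁ ^ 2 + w₂ ^ 2))) * ξ₁ +
        (l - 2 * a.r * w₁ / (w₁ ^ 2 + w₂ ^ 2)) * ξ₂ =
        a.r - 2 * a.r * w₁ / (w₁ ^ 2 + w₂ ^ 2) * w₁ := by
      rw [hξ₁, hξ₂]; ring
    have h2 : (1 - (l - 2 * a.r * w₁ / (w₁ ^ 2 + w₂ ^ 2))) * η₁ +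
        (l - 2 * a.r * w₁ / (w₁ ^ 2 + w₂ ^ 2)) * η₂ =
        - (2 * a.r * w₁ / (w₁ ^ 2 + w₂ ^ 2)) * w₂ := by
      rw [hη₁, hη₂]; ring
    rw [h1, h2]
    field_simp
    ring

theorem exists_unit (z c : ℂ) : ∃ v : ℂ, ‖v‖ = 1 ∧ z - c = (dist z c : ℂ) * v := by
  rcases eq_or_ne z c with h | h
  · exact ⟨1, norm_one, by simp [h]⟩
  · have h1 : (dist z c : ℂ) ≠ 0 := by exact_mod_cast dist_ne_zero.mpr h
    refine ⟨(z - c) / (dist z c : ℂ), ?_, by field_simp⟩
    rw [norm_div, Complex.norm_real, ← dist_eq_norm, Real.norm_eq_abs, abs_of_nonneg dist_nonneg,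
      div_self (dist_ne_zero.mpr h)]

theorem far_point (z c : ℂ) {ρ : ℝ} (hρ : 0 ≤ ρ) :
    ∃ w, dist w z = ρ ∧ dist w c = dist z c + ρ := by
  obtain ⟨v, hv, h⟩ := exists_unit z c
  refine ⟨z + ρ * v, ?_, ?_⟩
  · rw [dist_eq_norm, add_sub_cancel_left, norm_mul, hv, Complex.norm_real, Real.norm_eq_abs,
      abs_of_nonneg hρ, mul_one]
  · have : z + ρ * v - c = ((dist z c + ρ : ℝ) : ℂ) * v := by
      push_cast; linear_combination h
    rw [dist_eq_norm, this, norm_mul, hv, Complex.norm_real, Real.norm_eq_abs,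
      abs_of_nonneg (by positivity), mul_one]

theorem near_point (z c : ℂ) {ρ : ℝ} (hρ : 0 ≤ ρ) :
    ∃ w, dist w z = ρ ∧ dist w c = |dist z c - ρ| := by
  obtain ⟨v, hv, h⟩ := exists_unit z c
  refine ⟨z - ρ * v, ?_, ?_⟩
  · rw [dist_eq_norm, sub_sub_cancel_left, norm_neg, norm_mul, hv, Complex.norm_real,
      Real.norm_eq_abs, abs_of_nonneg hρ, mul_one]
  · have : z - ρ * v - c = ((dist z c - ρ : ℝ) : ℂ) * v := by
      push_cast; linear_combination h
    rw [dist_eq_norm, this, norm_mul, hv, Complex.norm_real, Real.norm_eq_abs, mul_one]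

theorem cases_of_isInscribed {S : Set ℂ} (h : a.IsInscribed S) :
    (∃ θ, S = F.obj .c θ) ∨ Encl a S := by
  obtain ⟨z, ρ, hρ, hS, hreg, ⟨x, hx⟩, ⟨y, hy⟩⟩ := h
  have hr := a.r_pos
  have hxS : x ∈ S ∩ a.inner := by rw [hx]; exact Set.mem_singleton x
  have hyS : y ∈ S ∩ a.outer := by rw [hy]; exact Set.mem_singleton y
  have hxz : dist x z = ρ := by
    have := hxS.1
    rw [hS] at this; exact this
  have hyz : dist y z = ρ := by
    have := hyS.1
    rw [hS] at this; exact this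
  have hxo : dist x a.o = a.r := hxS.2
  have hyO : dist y a.O = a.R := hyS.2
  have h1 : dist z a.O + ρ = a.R := by
    apply le_antisymm
    · obtain ⟨w, hw1, hw2⟩ := far_point z a.O hρ.le
      have h2 : w ∈ a.region := hreg (by rw [hS]; exact hw1)
      have h3 : dist w a.O ≤ a.R := h2.1
      linarith
    · have := dist_triangle y z a.O
      linarith
  have h2 : |dist z a.o - ρ| = a.r := by
    apply le_antisymm
    · have h3 := dist_triangle x z a.o
      have h4 := dist_triangle z x a.o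
      rw [dist_comm z x] at h4
      have h5 := dist_triangle x a.o z
      rw [dist_comm a.o z] at h5
      rw [abs_le]
      constructor <;> linarith
    · obtain ⟨w, hw1, hw2⟩ := near_point z a.o hρ.le
      have h3 : w ∈ a.region := hreg (by rw [hS]; exact hw1)
      have h4 : ¬ dist w a.o < a.r := h3.2
      linarith [not_lt.mp h4]
  rcases abs_eq hr.le |>.mp h2 with h3 | h3
  · left
    obtain ⟨θ, hθ⟩ := F.exists_angle z
    refine ⟨θ, ?_⟩
    have h4 : dist z a.o = a.r + ρ := by linarith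
    rw [h4] at hθ
    have h5 : dist z a.O = a.R - ρ := by linarith
    have h6 := F.dist_pt_O θ (a.r + ρ) 0
    rw [← hθ, h5] at h6
    have h7 : 2 * ρ * a.par.Q θ = a.par.N θ := by
      have hs := sin_sq θ
      unfold Par.Q Par.N
      rw [a.par_r, a.par_R]
      rw [zero_add, mul_pow, hs] at h6
      linear_combination -h6
    have h8 : ρ = a.par.rho θ := by
      unfold Par.rho
      rw [eq_div_iff (by have := a.par.Q_pos θ; positivity)]
      linarith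
    rw [hS]
    simp only [obj]
    rw [← h8, hθ]
  · right
    exact ⟨z, ρ, hρ, hS, by linarith, h1⟩

theorem e_add (x : ℝ) (n : ℤ) : F.e (x + 2 * π * n) = F.e x := by
  unfold e
  have : (((x + 2 * π * n : ℝ) : ℂ)) * Complex.I = x * Complex.I + n * (2 * π * Complex.I) := by
    push_cast; ring
  rw [this, Complex.exp_add, Complex.exp_int_mul_two_pi_mul_I, mul_one]

theorem pt_add_int (x : ℝ) (n : ℤ) (ξ η : ℝ) : F.pt (x + 2 * π * n) ξ η = F.pt x ξ η := by
  unfold pt; rw [F.e_add]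

theorem co_add_int (x : ℝ) (n : ℤ) (p : ℂ) : F.co (x + 2 * π * n) p = F.co x p := by
  unfold co; rw [F.e_add]

theorem cos_add_int (x : ℝ) (n : ℤ) : cos (x + 2 * π * n) = cos x := by
  rw [mul_comm, cos_add_int_mul_two_pi]

theorem sin_add_int (x : ℝ) (n : ℤ) : sin (x + 2 * π * n) = sin x := by
  rw [mul_comm, sin_add_int_mul_two_pi]

theorem rho_add_int (p : Par) (x : ℝ) (n : ℤ) : p.rho (x + 2 * π * n) = p.rho x := by
  unfold Par.rho Par.N Par.Q; rw [cos_add_int]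

theorem obj_add (k : Letter) (x : ℝ) (n : ℤ) : F.obj k (x + 2 * π * n) = F.obj k x := by
  cases k
  · simp only [obj]; rw [F.pt_add_int, rho_add_int]
  · simp only [obj, F.pt_add_int]

theorem side_add (k : Letter) (x : ℝ) (n : ℤ) (p : ℂ) :
    F.side k (x + 2 * π * n) p = F.side k x p := by
  cases k
  · simp only [side]
    rw [F.co_add_int, sin_add_int]
    unfold Par.Q
    rw [cos_add_int]
  · simp only [side, F.co_add_int]

theorem obj_eq_iff (k : Letter) (x y : ℝ) :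
    F.obj k x = F.obj k y ↔ ∃ n : ℤ, y = x + 2 * π * n := by
  constructor
  · intro h
    have h1 := F.obj_inner k x
    rw [h, F.obj_inner k y] at h1
    have h2 : F.pt y a.r 0 = F.pt x a.r 0 := by simpa using h1
    have hr : (a.r : ℂ) ≠ 0 := by exact_mod_cast a.r_pos.ne'
    have hu : F.u ≠ 0 := by
      intro h
      have := F.norm_u
      rw [h, norm_zero] at this
      exact zero_ne_one this
    unfold pt e at h2
    have h3 : Complex.exp (y * Complex.I) = Complex.exp (x * Complex.I) := by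
      have h4 : F.u * (a.r : ℂ) * (Complex.exp (y * Complex.I) - Complex.exp (x * Complex.I)) = 0 := by
        push_cast at h2
        linear_combination h2
      rcases mul_eq_zero.mp h4 with h5 | h5
      · exact absurd h5 (mul_ne_zero hu hr)
      · exact sub_eq_zero.mp h5
    rw [Complex.exp_eq_exp_iff_exists_int] at h3
    obtain ⟨n, hn⟩ := h3
    refine ⟨n, ?_⟩
    have h6 : ((y : ℂ)) * Complex.I = ((x + 2 * π * n : ℝ) : ℂ) * Complex.I := by
      rw [hn]; push_cast; ring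
    have h7 := mul_right_cancel₀ Complex.I_ne_zero h6
    exact_mod_cast h7
  · rintro ⟨n, rfl⟩
    rw [F.obj_add]

end Frame

end Pool.Agent.Work.MP_68e044_gt
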