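import Mathlib
import Pool.Agent.Work.MP_68e044_gt.Basic
import Pool.Agent.Work.MP_68e044_gt.GeoPar

/-!
# Contacts of parametrised objects
-/

namespace Pool.Agent.Work.MP_68e044_gt

open Real

namespace Par

variable (p : Par)

theorem two_Q_rho (x : ℝ) : 2 * p.Q x * p.rho x = p.N x := by
  have := p.Q_pos x
  unfold Par.rho; field_simp

theorem two_Q_r_add_rho (x : ℝ) : 2 * p.Q x * (p.r + p.rho x) = p.W := by
  rw [mul_add, p.two_Q_rho, p.W_eq x]; ring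

/-- the key inequality in terms of `rho` -/
theorem key_rho (x : ℝ) : p.r * (p.d * sin x) ^ 2 < p.Q x ^ 2 * p.rho x := by
  have h := p.key x
  rw [← p.two_Q_rho x] at h
  nlinarith [h]

theorem rel_symm {k l : Letter} {x y : ℝ} (h : p.Rel k l x y) : p.Rel l k y x := by
  have e : (x - y) / 2 = -((y - x) / 2) := by ring
  cases k <;> cases l <;> simp only [Par.Rel] at h ⊢ <;> rw [e] <;>
    simp only [sin_neg, cos_neg, neg_sq]
  · rw [h]; ring
  · exact h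
  · exact h
  · linarith

theorem sin_half_sq (t : ℝ) : sin (t / 2) ^ 2 = (1 - cos t) / 2 := by
  have := Real.cos_sq (t / 2)
  have h2 := Real.sin_sq_add_cos_sq (t / 2)
  have h3 : 2 * (t / 2) = t := by ring
  rw [h3] at this
  linarith

theorem cos_half_sq (t : ℝ) : cos (t / 2) ^ 2 = (1 + cos t) / 2 := by
  have := Real.cos_sq (t / 2)
  have h3 : 2 * (t / 2) = t := by ring
  rw [h3] at this
  linarith

end Par

namespace Frame

variable {a : Annulus} (F : Frame a)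

theorem pt_eq_add (θ Δ ξ η : ℝ) :
    F.pt θ ξ η = F.pt (θ + Δ) (ξ * cos Δ + η * sin Δ) (-(ξ * sin Δ) + η * cos Δ) := by
  have h := F.pt_add (θ + Δ) (-Δ) ξ η
  rw [add_neg_cancel_right, cos_neg, sin_neg] at h
  rw [h]; congr 1 <;> ring

theorem dist_center (θ Δ s : ℝ) :
    dist (F.pt (θ + Δ) a.r s) (F.pt θ (a.r + a.par.rho θ) 0) ^ 2 =
      (a.r - (a.r + a.par.rho θ) * cos Δ) ^ 2 + (s + (a.r + a.par.rho θ) * sin Δ) ^ 2 := by
  rw [F.pt_eq_add θ Δ (a.r + a.par.rho θ) 0, F.dist_pt]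
  ring

theorem mem_closedBall_of_mem_obj_c {θ : ℝ} {w : ℂ} (h : w ∈ F.obj .c θ) : dist w a.O ≤ a.R := by
  have h1 : dist w (F.pt θ (a.r + a.par.rho θ) 0) = a.par.rho θ := h
  have h2 := F.dist_center_O θ
  have := dist_triangle w (F.pt θ (a.r + a.par.rho θ) 0) a.O
  linarith

theorem mem_obj_c_iff (θ Δ s : ℝ) : F.pt (θ + Δ) a.r s ∈ F.obj .c θ ↔
    (a.r - (a.r + a.par.rho θ) * cos Δ) ^ 2 + (s + (a.r + a.par.rho θ) * sin Δ) ^ 2 =
      a.par.rho θ ^ 2 := by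
  rw [← F.dist_center]
  have h := a.par.rho_pos θ
  change dist _ _ = _ ↔ _
  constructor
  · intro h1; rw [h1]
  · intro h1
    exact (pow_left_inj₀ dist_nonneg h.le (by norm_num)).mp h1

theorem mem_obj_s_iff (θ s : ℝ) : F.pt θ a.r s ∈ F.obj .s θ ↔ dist (F.pt θ a.r s) a.O ≤ a.R := by
  constructor
  · rintro ⟨s', h1, h2⟩; exact h2
  · intro h; exact ⟨s, rfl, h⟩

theorem pt_r_zero_mem_inner (θ : ℝ) : F.pt θ a.r 0 ∈ a.inner := by
  have h : F.pt θ a.r 0 ∈ F.obj .s θ ∩ a.inner := by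
    rw [F.obj_inner .s θ]; rfl
  exact h.2

/-- circle and chord, forward -/
theorem cs_forward {θ Δ : ℝ} {p : ℂ} (h : F.obj .c θ ∩ F.obj .s (θ + Δ) = {p})
    (hp : p ∉ a.inner) :
    (a.r + a.par.rho θ) * cos Δ = a.r - a.par.rho θ ∧
      p = F.pt (θ + Δ) a.r (-((a.r + a.par.rho θ) * sin Δ)) := by
  have hpm : p ∈ F.obj .c θ ∩ F.obj .s (θ + Δ) := by rw [h]; rfl
  obtain ⟨hc, s0, hs0, hd0⟩ := hpm
  rw [hs0, F.mem_obj_c_iff] at hc
  set r := a.r with hr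
  set ρ := a.par.rho θ with hρ
  have hρ0 : 0 < ρ := a.par.rho_pos θ
  have hr0 : 0 < r := a.r_pos
  -- the reflected point
  have h1 : F.pt (θ + Δ) r (-(2 * ((r + ρ) * sin Δ)) - s0) ∈ F.obj .c θ := by
    rw [F.mem_obj_c_iff, ← hc]; ring
  have h2 : F.pt (θ + Δ) r (-(2 * ((r + ρ) * sin Δ)) - s0) ∈ F.obj .s (θ + Δ) :=
    (F.mem_obj_s_iff _ _).2 (F.mem_closedBall_of_mem_obj_c h1)
  have h3 : F.pt (θ + Δ) r (-(2 * ((r + ρ) * sin Δ)) - s0) = p := by
    have : F.pt (θ + Δ) r (-(2 * ((r + ρ) * sin Δ)) - s0) ∈ F.obj .c θ ∩ F.obj .s (θ + Δ) :=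
      ⟨h1, h2⟩
    rw [h] at this; exact this
  rw [hs0] at h3
  have h4 := (F.pt_inj h3).2
  have h5 : s0 = -((r + ρ) * sin Δ) := by linarith
  rw [h5] at hc hs0
  refine ⟨?_, hs0⟩
  have h6 : (r - (r + ρ) * cos Δ) ^ 2 = ρ ^ 2 := by nlinarith [hc]
  rcases sq_eq_sq_iff_eq_or_eq_neg.mp h6 with h7 | h7
  · linarith
  · exfalso
    have hcos : cos Δ = 1 := by
      have : (r + ρ) * (cos Δ - 1) = 0 := by linarith
      rcases mul_eq_zero.mp this with h8 | h8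
      · linarith
      · linarith
    have hsin : sin Δ = 0 := by
      have := Real.sin_sq_add_cos_sq Δ
      rw [hcos] at this
      have : sin Δ ^ 2 = 0 := by linarith
      exact pow_eq_zero_iff (two_ne_zero) |>.mp this
    rw [hsin] at hs0
    apply hp
    rw [hs0]
    have := F.pt_r_zero_mem_inner (θ + Δ)
    simpa using this

/-- circle and chord, backward -/
theorem cs_backward {θ Δ : ℝ} (h : (a.r + a.par.rho θ) * cos Δ = a.r - a.par.rho θ) :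
    F.obj .c θ ∩ F.obj .s (θ + Δ) = {F.pt (θ + Δ) a.r (-((a.r + a.par.rho θ) * sin Δ))} := by
  ext w
  simp only [Set.mem_inter_iff, Set.mem_singleton_iff]
  constructor
  · rintro ⟨hc, s, hs, hd⟩
    rw [hs, F.mem_obj_c_iff, h] at hc
    have h1 : (s + (a.r + a.par.rho θ) * sin Δ) ^ 2 = 0 := by nlinarith [hc]
    have h2 : s + (a.r + a.par.rho θ) * sin Δ = 0 := pow_eq_zero_iff (two_ne_zero) |>.mp h1
    rw [hs]; congr 1; linarith
  · intro hw
    have h1 : w ∈ F.obj .c θ := by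
      rw [hw, F.mem_obj_c_iff, h]; ring
    refine ⟨h1, ?_⟩
    have h2 := F.mem_closedBall_of_mem_obj_c h1
    rw [hw] at h2 ⊢
    exact (F.mem_obj_s_iff _ _).2 h2

theorem cs_rel_iff (θ Δ : ℝ) : (a.r + a.par.rho θ) * cos Δ = a.r - a.par.rho θ ↔
    a.par.Rel .c .s θ (θ + Δ) := by
  have hQ := a.par.Q_pos θ
  have h1 := a.par.two_Q_rho θ
  have h2 : 2 * a.par.Q θ * (a.r + a.par.rho θ) = a.par.W := a.par.two_Q_r_add_rho θ
  simp only [Par.Rel]
  rw [add_sub_cancel_left, Par.sin_half_sq, ← h1, ← h2]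
  constructor
  · intro h; linear_combination (-a.par.Q θ) * h
  · intro h
    have h3 : (2 * a.par.Q θ) * ((a.r + a.par.rho θ) * cos Δ) =
        (2 * a.par.Q θ) * (a.r - a.par.rho θ) := by linear_combination (-2) * h
    exact mul_left_cancel₀ (by positivity) h3

theorem cs_side_c {θ Δ : ℝ} (h : (a.r + a.par.rho θ) * cos Δ = a.r - a.par.rho θ) :
    F.side .c θ (F.pt (θ + Δ) a.r (-((a.r + a.par.rho θ) * sin Δ))) =
      a.par.rho θ * (a.par.Q θ * sin Δ - a.par.d * sin θ * (1 + cos Δ)) := by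
  have hsc := Real.sin_sq_add_cos_sq Δ
  rw [F.pt_add]
  simp only [Frame.side]
  rw [F.co_pt_re, F.co_pt_im]
  linear_combination (a.par.Q θ * sin Δ * (-1) + a.par.d * sin θ * cos Δ) * h
    - a.par.d * sin θ * (a.r + a.par.rho θ) * hsc

theorem sub_pos_of_sq_lt {A B : ℝ} (h : B ^ 2 < A ^ 2) (hA : 0 < A) : 0 < A - B := by
  have := (abs_lt_of_sq_lt_sq' h hA.le).2
  linarith

theorem sub_neg_of_sq_lt {A B : ℝ} (h : B ^ 2 < A ^ 2) (hA : A < 0) : A - B < 0 := by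
  have h' : (-B) ^ 2 < (-A) ^ 2 := by simpa using h
  have := (abs_lt_of_sq_lt_sq' h' (by linarith)).2
  linarith

theorem cs_signs {θ Δ : ℝ} (h : (a.r + a.par.rho θ) * cos Δ = a.r - a.par.rho θ) :
    sin Δ ≠ 0 ∧
    (0 < sin Δ → 0 < a.par.Q θ * sin Δ - a.par.d * sin θ * (1 + cos Δ)) ∧
    (sin Δ < 0 → a.par.Q θ * sin Δ - a.par.d * sin θ * (1 + cos Δ) < 0) := by
  have hsc := Real.sin_sq_add_cos_sq Δ
  have hr0 : 0 < a.r := a.r_pos
  have hρ0 : 0 < a.par.rho θ := a.par.rho_pos θ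
  have hQ := a.par.Q_pos θ
  have hkey : a.r * (a.par.d * sin θ) ^ 2 < a.par.Q θ ^ 2 * a.par.rho θ := a.par.key_rho θ
  have h1 : (a.r + a.par.rho θ) * (1 + cos Δ) = 2 * a.r := by linarith
  have h2 : (a.r + a.par.rho θ) * (1 - cos Δ) = 2 * a.par.rho θ := by linarith
  have hs : sin Δ ^ 2 = (1 + cos Δ) * (1 - cos Δ) := by linarith
  have hpos : 0 < a.r + a.par.rho θ := by linarith
  have h3 : 0 < 1 + cos Δ := by
    by_contra hneg
    have : (a.r + a.par.rho θ) * (1 + cos Δ) ≤ 0 :=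
      mul_nonpos_of_nonneg_of_nonpos hpos.le (by linarith)
    linarith
  have h4 : 0 < 1 - cos Δ := by
    by_contra hneg
    have : (a.r + a.par.rho θ) * (1 - cos Δ) ≤ 0 :=
      mul_nonpos_of_nonneg_of_nonpos hpos.le (by linarith)
    linarith
  have hne : sin Δ ≠ 0 := by
    intro h0
    rw [h0] at hs
    have : 0 < (1 + cos Δ) * (1 - cos Δ) := mul_pos h3 h4
    nlinarith
  have hsq : (a.par.d * sin θ * (1 + cos Δ)) ^ 2 < (a.par.Q θ * sin Δ) ^ 2 := by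
    have e1 : (a.par.Q θ * sin Δ) ^ 2 = (1 + cos Δ) * (a.par.Q θ ^ 2 * (1 - cos Δ)) := by
      rw [mul_pow, hs]; ring
    have e2 : (a.par.d * sin θ * (1 + cos Δ)) ^ 2 =
        (1 + cos Δ) * ((a.par.d * sin θ) ^ 2 * (1 + cos Δ)) := by ring
    rw [e1, e2]
    apply mul_lt_mul_of_pos_left _ h3
    have e3 : (a.r + a.par.rho θ) * ((a.par.d * sin θ) ^ 2 * (1 + cos Δ)) <
        (a.r + a.par.rho θ) * (a.par.Q θ ^ 2 * (1 - cos Δ)) := by
      have e4 : (a.r + a.par.rho θ) * ((a.par.d * sin θ) ^ 2 * (1 + cos Δ)) =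
          2 * (a.r * (a.par.d * sin θ) ^ 2) := by
        linear_combination ((a.par.d * sin θ) ^ 2) * h1
      have e5 : (a.r + a.par.rho θ) * (a.par.Q θ ^ 2 * (1 - cos Δ)) =
          2 * (a.par.Q θ ^ 2 * a.par.rho θ) := by
        linear_combination (a.par.Q θ ^ 2) * h2
      rw [e4, e5]; linarith
    exact lt_of_mul_lt_mul_left e3 hpos.le
  refine ⟨hne, fun hp => ?_, fun hn => ?_⟩
  · exact sub_pos_of_sq_lt hsq (mul_pos hQ hp)
  · exact sub_neg_of_sq_lt hsq (mul_neg_of_pos_of_neg hQ hn)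

/-! ### circle and circle -/

/-- the centre of the second circle in the frame of the first -/
theorem center_add (θ Δ : ℝ) : F.pt (θ + Δ) (a.r + a.par.rho (θ + Δ)) 0 =
    F.pt θ ((a.r + a.par.rho (θ + Δ)) * cos Δ) ((a.r + a.par.rho (θ + Δ)) * sin Δ) := by
  rw [F.pt_add]; congr 1 <;> ring

theorem dist_centers (θ Δ : ℝ) :
    dist (F.pt θ (a.r + a.par.rho θ) 0) (F.pt (θ + Δ) (a.r + a.par.rho (θ + Δ)) 0) ^ 2 =
      (a.par.rho θ - a.par.rho (θ + Δ)) ^ 2 +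
        2 * ((a.r + a.par.rho θ) * (a.r + a.par.rho (θ + Δ))) * (1 - cos Δ) := by
  have hsc := Real.sin_sq_add_cos_sq Δ
  rw [F.center_add, F.dist_pt]
  linear_combination (a.r + a.par.rho (θ + Δ)) ^ 2 * hsc

/-- two spheres in the plane meeting in one point: the point is on the line of centres -/
theorem line_of_inter_singleton {z1 z2 p : ℂ} {ρ1 ρ2 : ℝ}
    (h : Metric.sphere z1 ρ1 ∩ Metric.sphere z2 ρ2 = {p}) (hρ : 0 < ρ1) :
    z1 ≠ z2 ∧ ∃ t : ℝ, p = z1 + t * (z2 - z1) := by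
  have hp : p ∈ Metric.sphere z1 ρ1 ∩ Metric.sphere z2 ρ2 := by rw [h]; rfl
  have hp1 : ‖p - z1‖ = ρ1 := by rw [← Complex.dist_eq]; exact hp.1
  have hp2 : ‖p - z2‖ = ρ2 := by rw [← Complex.dist_eq]; exact hp.2
  have hne : z1 ≠ z2 := by
    rintro rfl
    have e : ρ1 = ρ2 := by rw [← hp1, hp2]
    subst e
    rw [Set.inter_self] at h
    have h1 : z1 + ρ1 ∈ Metric.sphere z1 ρ1 := by
      rw [mem_sphere_iff_norm]; simp [abs_of_pos hρ]
    have h2 : z1 - ρ1 ∈ Metric.sphere z1 ρ1 := by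
      rw [mem_sphere_iff_norm]; simp [abs_of_pos hρ]
    rw [h] at h1 h2
    have h3 : z1 + (ρ1 : ℂ) = z1 - ρ1 := by rw [h1, h2]
    have h4 : (ρ1 : ℂ) = 0 := by linear_combination h3 / 2
    exact hρ.ne' (by exact_mod_cast h4)
  refine ⟨hne, ?_⟩
  have hv : z2 - z1 ≠ 0 := sub_ne_zero.mpr hne.symm
  set v := z2 - z1 with hvdef
  set q := (p - z1) / v with hq
  have hpq : p - z1 = v * q := by rw [hq]; field_simp
  have hpq2 : p - z2 = v * (q - 1) := by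
    have : p - z2 = (p - z1) - v := by rw [hvdef]; ring
    rw [this, hpq]; ring
  have h1 : z1 + v * (starRingEnd ℂ) q ∈ Metric.sphere z1 ρ1 := by
    rw [mem_sphere_iff_norm, add_sub_cancel_left, norm_mul, Complex.norm_conj, ← norm_mul, ← hpq,
      hp1]
  have h2 : z1 + v * (starRingEnd ℂ) q ∈ Metric.sphere z2 ρ2 := by
    have e : z1 + v * (starRingEnd ℂ) q - z2 = v * (starRingEnd ℂ) (q - 1) := by
      rw [map_sub, map_one, hvdef]; ring
    rw [mem_sphere_iff_norm, e, norm_mul, Complex.norm_conj, ← norm_mul, ← hpq2, hp2]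
  have h3 : z1 + v * (starRingEnd ℂ) q = p := by
    have : z1 + v * (starRingEnd ℂ) q ∈ Metric.sphere z1 ρ1 ∩ Metric.sphere z2 ρ2 := ⟨h1, h2⟩
    rw [h] at this; exact this
  have h4 : (starRingEnd ℂ) q = q := by
    have : v * (starRingEnd ℂ) q = v * q := by rw [← hpq, ← h3]; ring
    exact mul_left_cancel₀ hv this
  obtain ⟨t, ht⟩ := Complex.conj_eq_iff_real.mp h4
  refine ⟨t, ?_⟩
  rw [← ht]
  have : p = z1 + (p - z1) := by ring
  rw [this, hpq]; ring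

/-- tangent circles: the distance of the centres -/
theorem dist_of_inter_singleton {z1 z2 p : ℂ} {ρ1 ρ2 : ℝ}
    (h : Metric.sphere z1 ρ1 ∩ Metric.sphere z2 ρ2 = {p}) (hρ1 : 0 < ρ1) :
    z1 ≠ z2 ∧ ((dist z1 z2 = ρ1 + ρ2 ∧ p = z1 + ((ρ1 / (ρ1 + ρ2) : ℝ) : ℂ) * (z2 - z1)) ∨
      dist z1 z2 ^ 2 = (ρ1 - ρ2) ^ 2) := by
  obtain ⟨hne, t, ht⟩ := line_of_inter_singleton h hρ1
  refine ⟨hne, ?_⟩
  have hp : p ∈ Metric.sphere z1 ρ1 ∩ Metric.sphere z2 ρ2 := by rw [h]; rfl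
  have hp1 : ‖p - z1‖ = ρ1 := by rw [← Complex.dist_eq]; exact hp.1
  have hp2 : ‖p - z2‖ = ρ2 := by rw [← Complex.dist_eq]; exact hp.2
  have e1 : p - z1 = (t : ℂ) * (z2 - z1) := by rw [ht]; ring
  have e2 : p - z2 = ((t - 1 : ℝ) : ℂ) * (z2 - z1) := by rw [ht]; push_cast; ring
  have hD : dist z1 z2 = ‖z2 - z1‖ := by rw [dist_comm, Complex.dist_eq]
  have hDpos : 0 < ‖z2 - z1‖ := norm_pos_iff.mpr (sub_ne_zero.mpr hne.symm)
  rw [e1, norm_mul, Complex.norm_real, Real.norm_eq_abs] at hp1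
  rw [e2, norm_mul, Complex.norm_real, Real.norm_eq_abs] at hp2
  rw [hD]
  set D := ‖z2 - z1‖
  rcases le_total 0 t with h0 | h0
  · rcases le_total t 1 with h1 | h1
    · left
      rw [abs_of_nonneg h0] at hp1
      rw [abs_of_nonpos (by linarith)] at hp2
      have hDs : D = ρ1 + ρ2 := by linarith
      refine ⟨hDs, ?_⟩
      rw [ht]
      congr 2
      have : t = ρ1 / (ρ1 + ρ2) := by
        rw [← hDs, ← hp1]; field_simp
      rw [this]
    · right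
      rw [abs_of_nonneg h0] at hp1
      rw [abs_of_nonneg (by linarith)] at hp2
      rw [← hp1, ← hp2]; ring
  · right
    rw [abs_of_nonpos h0] at hp1
    rw [abs_of_nonpos (by linarith)] at hp2
    rw [← hp1, ← hp2]; ring

theorem cc_forward {θ Δ : ℝ} {p : ℂ} (h : F.obj .c θ ∩ F.obj .c (θ + Δ) = {p}) :
    (a.r + a.par.rho θ) * (a.r + a.par.rho (θ + Δ)) * (1 - cos Δ) =
      2 * (a.par.rho θ * a.par.rho (θ + Δ)) ∧
    p = F.pt θ (a.r + a.par.rho θ) 0 +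
      ((a.par.rho θ / (a.par.rho θ + a.par.rho (θ + Δ)) : ℝ) : ℂ) *
      (F.pt (θ + Δ) (a.r + a.par.rho (θ + Δ)) 0 - F.pt θ (a.r + a.par.rho θ) 0) := by
  have h1 := a.par.rho_pos θ
  have h2 := a.par.rho_pos (θ + Δ)
  have hr := a.r_pos
  have hd := F.dist_centers θ Δ
  obtain ⟨hne, ⟨h3, h4⟩ | h3⟩ := dist_of_inter_singleton h h1
  · refine ⟨?_, h4⟩
    rw [h3] at hd
    linear_combination (-1 / 2) * hd
  · exfalso
    rw [h3] at hd
    have h5 : ((a.r + a.par.rho θ) * (a.r + a.par.rho (θ + Δ))) * (1 - cos Δ) = 0 := by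
      linear_combination (-1 / 2) * hd
    have h6 : 0 < (a.r + a.par.rho θ) * (a.r + a.par.rho (θ + Δ)) := by positivity
    have h7 : cos Δ = 1 := by
      rcases mul_eq_zero.mp h5 with h8 | h8
      · exact absurd h8 h6.ne'
      · linarith
    have h8 : sin Δ = 0 := by
      have := Real.sin_sq_add_cos_sq Δ
      rw [h7] at this
      have : sin Δ ^ 2 = 0 := by linarith
      exact pow_eq_zero_iff (two_ne_zero) |>.mp this
    have h9 : cos (θ + Δ) = cos θ := by rw [cos_add, h7, h8]; ring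
    have h10 : a.par.rho (θ + Δ) = a.par.rho θ := by
      unfold Par.rho Par.N Par.Q; rw [h9]
    apply hne
    rw [F.center_add, h7, h8, h10]; congr 1 <;> ring

theorem cc_backward {θ Δ : ℝ} (h : (a.r + a.par.rho θ) * (a.r + a.par.rho (θ + Δ)) * (1 - cos Δ) =
      2 * (a.par.rho θ * a.par.rho (θ + Δ))) :
    F.obj .c θ ∩ F.obj .c (θ + Δ) = {F.pt θ (a.r + a.par.rho θ) 0 +
      ((a.par.rho θ / (a.par.rho θ + a.par.rho (θ + Δ)) : ℝ) : ℂ) *
      (F.pt (θ + Δ) (a.r + a.par.rho (θ + Δ)) 0 - F.pt θ (a.r + a.par.rho θ) 0)} := by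
  have h1 := a.par.rho_pos θ
  have h2 := a.par.rho_pos (θ + Δ)
  have hr := a.r_pos
  have hd := F.dist_centers θ Δ
  set ρ1 := a.par.rho θ
  set ρ2 := a.par.rho (θ + Δ)
  set z1 := F.pt θ (a.r + ρ1) 0 with hz1
  set z2 := F.pt (θ + Δ) (a.r + ρ2) 0 with hz2
  have hD : dist z1 z2 = ρ1 + ρ2 := by
    have : dist z1 z2 ^ 2 = (ρ1 + ρ2) ^ 2 := by rw [hd]; linear_combination 2 * h
    exact (pow_left_inj₀ dist_nonneg (by positivity) (by norm_num)).mp this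
  have hDn : ‖z2 - z1‖ = ρ1 + ρ2 := by rw [← hD, dist_comm, Complex.dist_eq]
  change Metric.sphere z1 ρ1 ∩ Metric.sphere z2 ρ2 = _
  ext w
  simp only [Set.mem_inter_iff, Set.mem_singleton_iff, mem_sphere_iff_norm]
  constructor
  · rintro ⟨ha, hb⟩
    -- coordinates along z2 - z1
    have hv : z2 - z1 ≠ 0 := by
      intro h0; rw [h0, norm_zero] at hDn; linarith
    set v := z2 - z1 with hvdef
    set q := (w - z1) / v with hq
    have hwq : w - z1 = v * q := by rw [hq]; field_simp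
    have hwq2 : w - z2 = v * (q - 1) := by
      have : w - z2 = (w - z1) - v := by rw [hvdef]; ring
      rw [this, hwq]; ring
    rw [hwq, norm_mul, hDn] at ha
    rw [hwq2, norm_mul, hDn] at hb
    have hs : 0 < ρ1 + ρ2 := by positivity
    have na : ‖q‖ = ρ1 / (ρ1 + ρ2) := by rw [eq_div_iff hs.ne']; linarith
    have nb : ‖q - 1‖ = ρ2 / (ρ1 + ρ2) := by rw [eq_div_iff hs.ne']; linarith
    have na2 : q.re ^ 2 + q.im ^ 2 = (ρ1 / (ρ1 + ρ2)) ^ 2 := by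
      rw [← na, ← Complex.normSq_eq_norm_sq, Complex.normSq_apply]; ring
    have nb2 : (q.re - 1) ^ 2 + q.im ^ 2 = (ρ2 / (ρ1 + ρ2)) ^ 2 := by
      rw [← nb, ← Complex.normSq_eq_norm_sq, Complex.normSq_apply]
      simp; ring
    have hsum : ρ1 / (ρ1 + ρ2) + ρ2 / (ρ1 + ρ2) = 1 := by field_simp
    have hρ2' : ρ2 / (ρ1 + ρ2) = 1 - ρ1 / (ρ1 + ρ2) := by linarith
    rw [hρ2'] at nb2
    have hre : q.re = ρ1 / (ρ1 + ρ2) := by linarith
    have him : q.im = 0 := by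
      rw [hre] at na2
      have : q.im ^ 2 = 0 := by linarith
      exact pow_eq_zero_iff (two_ne_zero) |>.mp this
    have hqr : q = ((ρ1 / (ρ1 + ρ2) : ℝ) : ℂ) := by
      apply Complex.ext
      · rw [hre, Complex.ofReal_re]
      · rw [him, Complex.ofReal_im]
    rw [← hqr]
    have : w = z1 + (w - z1) := by ring
    rw [this, hwq]; ring
  · rintro rfl
    have hs : 0 < ρ1 + ρ2 := by positivity
    constructor
    · rw [add_sub_cancel_left, norm_mul, hDn, Complex.norm_real, Real.norm_eq_abs,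
        abs_of_pos (by positivity)]
      field_simp
    · have e : z1 + ((ρ1 / (ρ1 + ρ2) : ℝ) : ℂ) * (z2 - z1) - z2 =
          ((-(ρ2 / (ρ1 + ρ2)) : ℝ) : ℂ) * (z2 - z1) := by
        have : (-(ρ2 / (ρ1 + ρ2)) : ℝ) = ρ1 / (ρ1 + ρ2) - 1 := by field_simp; ring
        rw [this]; push_cast; ring
      rw [e, norm_mul, hDn, Complex.norm_real, Real.norm_eq_abs, abs_neg,
        abs_of_pos (by positivity)]
      field_simp

theorem cc_rel_iff (θ Δ : ℝ) :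
    (a.r + a.par.rho θ) * (a.r + a.par.rho (θ + Δ)) * (1 - cos Δ) =
      2 * (a.par.rho θ * a.par.rho (θ + Δ)) ↔ a.par.Rel .c .c θ (θ + Δ) := by
  have hQ := a.par.Q_pos θ
  have hQ' := a.par.Q_pos (θ + Δ)
  have h1 := a.par.two_Q_rho θ
  have h2 : 2 * a.par.Q θ * (a.r + a.par.rho θ) = a.par.W := a.par.two_Q_r_add_rho θ
  have h3 := a.par.two_Q_rho (θ + Δ)
  have h4 : 2 * a.par.Q (θ + Δ) * (a.r + a.par.rho (θ + Δ)) = a.par.W :=
    a.par.two_Q_r_add_rho (θ + Δ)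
  simp only [Par.Rel]
  rw [add_sub_cancel_left, Par.sin_half_sq, ← h1, ← h3, sq a.par.W]
  nth_rewrite 1 [← h2]
  rw [← h4]
  constructor
  · intro h; linear_combination (2 * a.par.Q θ * a.par.Q (θ + Δ)) * h
  · intro h
    have h5 : (4 * (a.par.Q θ * a.par.Q (θ + Δ))) *
        ((a.r + a.par.rho θ) * (a.r + a.par.rho (θ + Δ)) * (1 - cos Δ)) =
        (4 * (a.par.Q θ * a.par.Q (θ + Δ))) * (2 * (a.par.rho θ * a.par.rho (θ + Δ))) := by
      linear_combination 2 * h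
    exact mul_left_cancel₀ (by positivity) h5

/-- the contact point of two tangent circles -/
noncomputable def ccPt (θ Δ : ℝ) : ℂ := F.pt θ (a.r + a.par.rho θ) 0 +
      ((a.par.rho θ / (a.par.rho θ + a.par.rho (θ + Δ)) : ℝ) : ℂ) *
      (F.pt (θ + Δ) (a.r + a.par.rho (θ + Δ)) 0 - F.pt θ (a.r + a.par.rho θ) 0)

theorem pt_lerp (θ ξ η ξ' η' t : ℝ) :
    F.pt θ ξ η + (t : ℂ) * (F.pt θ ξ' η' - F.pt θ ξ η) =
      F.pt θ (ξ + t * (ξ' - ξ)) (η + t * (η' - η)) := by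
  unfold Frame.pt; push_cast; ring

theorem ccPt_neg (θ Δ : ℝ) : F.ccPt (θ + Δ) (-Δ) = F.ccPt θ Δ := by
  unfold Frame.ccPt
  rw [add_neg_cancel_right]
  have h1 := a.par.rho_pos θ
  have h2 := a.par.rho_pos (θ + Δ)
  have e : (a.par.rho (θ + Δ) / (a.par.rho (θ + Δ) + a.par.rho θ) : ℝ) =
      1 - a.par.rho θ / (a.par.rho θ + a.par.rho (θ + Δ)) := by
    field_simp; ring
  rw [e]; push_cast; ring

theorem ccPt_side (θ Δ : ℝ) : F.side .c θ (F.ccPt θ Δ) =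
    a.par.rho θ / (a.par.rho θ + a.par.rho (θ + Δ)) *
      (a.par.Q θ * ((a.r + a.par.rho (θ + Δ)) * sin Δ) -
        a.par.d * sin θ * (a.par.rho (θ + Δ) - a.r + (a.r + a.par.rho (θ + Δ)) * cos Δ)) := by
  unfold Frame.ccPt
  rw [F.center_add, F.pt_lerp]
  simp only [Frame.side]
  rw [F.co_pt_re, F.co_pt_im]
  have h1 := a.par.rho_pos θ
  have h2 := a.par.rho_pos (θ + Δ)
  field_simp
  ring

theorem cc_signs {θ Δ : ℝ}
    (h : (a.r + a.par.rho θ) * (a.r + a.par.rho (θ + Δ)) * (1 - cos Δ) =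
      2 * (a.par.rho θ * a.par.rho (θ + Δ))) :
    sin Δ ≠ 0 ∧
    (0 < sin Δ → 0 < F.side .c θ (F.ccPt θ Δ)) ∧
    (sin Δ < 0 → F.side .c θ (F.ccPt θ Δ) < 0) := by
  have hsc := Real.sin_sq_add_cos_sq Δ
  have hr : 0 < a.r := a.r_pos
  have hQ := a.par.Q_pos θ
  have hkey : a.r * (a.par.d * sin θ) ^ 2 < a.par.Q θ ^ 2 * a.par.rho θ := a.par.key_rho θ
  have h1 : 0 < a.par.rho θ := a.par.rho_pos θ
  have h2 : 0 < a.par.rho (θ + Δ) := a.par.rho_pos (θ + Δ)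
  rw [F.ccPt_side]
  set r := a.r
  set ρ1 := a.par.rho θ
  set ρ2 := a.par.rho (θ + Δ)
  set Q := a.par.Q θ
  set E := a.par.d * sin θ
  have hM : (r + ρ1) * (ρ2 - r + (r + ρ2) * cos Δ) = 2 * (r * ρ2) := by
    linear_combination (-1) * h
  have hP : (r + ρ1) * ((r + ρ2) * (1 + cos Δ)) = 2 * (r * (r + ρ1 + ρ2)) := by
    linear_combination (-1) * h
  have hS : ((r + ρ1) * ((r + ρ2) * sin Δ)) ^ 2 = 4 * (r * ρ1 * ρ2 * (r + ρ1 + ρ2)) := by
    have : ((r + ρ1) * ((r + ρ2) * sin Δ)) ^ 2 =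
        ((r + ρ1) * ((r + ρ2) * (1 + cos Δ))) * ((r + ρ1) * (r + ρ2) * (1 - cos Δ)) := by
      have hs : sin Δ ^ 2 = (1 + cos Δ) * (1 - cos Δ) := by linarith
      rw [mul_pow, mul_pow, hs]; ring
    rw [this, hP, h]; ring
  have hne : sin Δ ≠ 0 := by
    intro h0
    rw [h0] at hS
    have : 0 < 4 * (r * ρ1 * ρ2 * (r + ρ1 + ρ2)) := by positivity
    nlinarith
  have hsq : (E * (ρ2 - r + (r + ρ2) * cos Δ)) ^ 2 < (Q * ((r + ρ2) * sin Δ)) ^ 2 := by
    have e3 : (r + ρ1) ^ 2 * (E * (ρ2 - r + (r + ρ2) * cos Δ)) ^ 2 <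
        (r + ρ1) ^ 2 * (Q * ((r + ρ2) * sin Δ)) ^ 2 := by
      have e4 : (r + ρ1) ^ 2 * (E * (ρ2 - r + (r + ρ2) * cos Δ)) ^ 2 =
          (4 * (r * ρ2)) * (ρ2 * (r * E ^ 2)) := by
        have : (r + ρ1) ^ 2 * (E * (ρ2 - r + (r + ρ2) * cos Δ)) ^ 2 =
          E ^ 2 * ((r + ρ1) * (ρ2 - r + (r + ρ2) * cos Δ)) ^ 2 := by ring
        rw [this, hM]; ring
      have e5 : (r + ρ1) ^ 2 * (Q * ((r + ρ2) * sin Δ)) ^ 2 =
          (4 * (r * ρ2)) * ((r + ρ1 + ρ2) * (Q ^ 2 * ρ1)) := by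
        have : (r + ρ1) ^ 2 * (Q * ((r + ρ2) * sin Δ)) ^ 2 =
          Q ^ 2 * ((r + ρ1) * ((r + ρ2) * sin Δ)) ^ 2 := by ring
        rw [this, hS]; ring
      rw [e4, e5]
      apply mul_lt_mul_of_pos_left _ (by positivity)
      have e6 : ρ2 * (r * E ^ 2) ≤ ρ2 * (Q ^ 2 * ρ1) := mul_le_mul_of_nonneg_left hkey.le h2.le
      have e7 : ρ2 * (Q ^ 2 * ρ1) < (r + ρ1 + ρ2) * (Q ^ 2 * ρ1) :=
        mul_lt_mul_of_pos_right (by linarith) (by positivity)
      linarith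
    exact lt_of_mul_lt_mul_left e3 (by positivity)
  have hκ : 0 < ρ1 / (ρ1 + ρ2) := by positivity
  refine ⟨hne, fun hp => ?_, fun hn => ?_⟩
  · exact mul_pos hκ (sub_pos_of_sq_lt hsq (mul_pos hQ (mul_pos (by positivity) hp)))
  · refine mul_neg_of_pos_of_neg hκ (sub_neg_of_sq_lt hsq (mul_neg_of_pos_of_neg hQ
      (mul_neg_of_pos_of_neg (by positivity) hn)))

theorem cc_signs' {θ Δ : ℝ}
    (h : (a.r + a.par.rho θ) * (a.r + a.par.rho (θ + Δ)) * (1 - cos Δ) =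
      2 * (a.par.rho θ * a.par.rho (θ + Δ))) :
    (0 < sin Δ → F.side .c (θ + Δ) (F.ccPt θ Δ) < 0) ∧
    (sin Δ < 0 → 0 < F.side .c (θ + Δ) (F.ccPt θ Δ)) := by
  have h' : (a.r + a.par.rho (θ + Δ)) * (a.r + a.par.rho (θ + Δ + -Δ)) * (1 - cos (-Δ)) =
      2 * (a.par.rho (θ + Δ) * a.par.rho (θ + Δ + -Δ)) := by
    rw [add_neg_cancel_right, cos_neg]; linear_combination h
  obtain ⟨-, h2, h3⟩ := F.cc_signs h'
  rw [F.ccPt_neg, sin_neg] at h2 h3
  exact ⟨fun hp => h3 (by linarith), fun hn => h2 (by linarith)⟩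

/-! ### chord and chord -/

theorem mem_outer_iff (θ s : ℝ) : F.pt θ a.r s ∈ a.outer ↔
    s ^ 2 + 2 * (a.par.d * sin θ) * s = a.par.N θ := by
  have h : F.pt θ a.r s ∈ a.outer ↔ dist (F.pt θ a.r s) a.O ^ 2 = a.R ^ 2 := by
    have hR : 0 ≤ a.R := by
      have := a.inside; have := a.r_pos; have : 0 ≤ dist a.o a.O := dist_nonneg; linarith
    constructor
    · intro h; rw [show dist (F.pt θ a.r s) a.O = a.R from h]
    · intro h; exact (pow_left_inj₀ dist_nonneg hR (by norm_num)).mp h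
  have hsc := Real.sin_sq_add_cos_sq θ
  rw [h, F.dist_pt_O]
  have hN : a.par.N θ = a.R ^ 2 - a.r ^ 2 - a.par.d ^ 2 + 2 * a.par.d * a.r * cos θ := rfl
  rw [hN]
  constructor
  · intro h; linear_combination h - a.par.d ^ 2 * hsc
  · intro h; linear_combination h + a.par.d ^ 2 * hsc

theorem ss_coords {x Δ s t : ℝ} (h : F.pt x a.r s = F.pt (x + Δ) a.r t) :
    a.r = a.r * cos Δ - t * sin Δ ∧ s = a.r * sin Δ + t * cos Δ := by
  rw [F.pt_add] at h
  exact F.pt_inj h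

theorem pt_zero_dist_lt (θ : ℝ) : dist (F.pt θ a.r 0) a.O < a.R := by
  have h1 : dist (F.pt θ a.r 0) a.o = a.r := F.pt_r_zero_mem_inner θ
  have := a.inside
  have := dist_triangle (F.pt θ a.r 0) a.o a.O
  linarith

/-- two chords with a common endpoint, forward -/
theorem ss_forward {x Δ : ℝ} {p : ℂ} (h : F.obj .s x ∩ F.obj .s (x + Δ) = {p})
    (hp : p ∈ a.outer) :
    ∃ s : ℝ, s ≠ 0 ∧ s ^ 2 + 2 * (a.par.d * sin x) * s = a.par.N x ∧ p = F.pt x a.r s ∧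
      p = F.pt (x + Δ) a.r (-s) ∧ (a.r ^ 2 + s ^ 2) * cos Δ = a.r ^ 2 - s ^ 2 ∧
      (a.r ^ 2 + s ^ 2) * sin Δ = 2 * (a.r * s) := by
  have hsc := Real.sin_sq_add_cos_sq Δ
  have hr : 0 < a.r := a.r_pos
  have hpm : p ∈ F.obj .s x ∩ F.obj .s (x + Δ) := by rw [h]; rfl
  obtain ⟨⟨s, hs, -⟩, t, ht, -⟩ := hpm
  have hN : s ^ 2 + 2 * (a.par.d * sin x) * s = a.par.N x := by
    rw [hs] at hp; exact (F.mem_outer_iff x s).1 hp
  have hNpos := a.par.N_pos x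
  have hs0 : s ≠ 0 := by
    rintro rfl
    nlinarith
  have hst : F.pt x a.r s = F.pt (x + Δ) a.r t := by rw [← hs, ← ht]
  obtain ⟨e1, e2⟩ := F.ss_coords hst
  have hsq : s ^ 2 = t ^ 2 := by
    have h1 := F.dist_pt_o x a.r s
    have h2 := F.dist_pt_o (x + Δ) a.r t
    rw [hst, h2] at h1
    linarith
  rcases sq_eq_sq_iff_eq_or_eq_neg.mp hsq with h1 | h1
  · exfalso
    subst h1
    have h3 : (a.r ^ 2 + s ^ 2) * (1 - cos Δ) = 0 := by
      linear_combination a.r * e1 + s * e2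
    have h4 : cos Δ = 1 := by
      have : 0 < a.r ^ 2 + s ^ 2 := by positivity
      rcases mul_eq_zero.mp h3 with h5 | h5
      · exact absurd h5 this.ne'
      · linarith
    have h5 : sin Δ = 0 := by
      rw [h4] at hsc
      have : sin Δ ^ 2 = 0 := by linarith
      exact pow_eq_zero_iff (two_ne_zero) |>.mp this
    have h6 : F.pt (x + Δ) a.r 0 = F.pt x a.r 0 := by
      rw [F.pt_add, h4, h5]; congr 1 <;> ring
    have h7 : F.pt x a.r 0 ∈ F.obj .s x ∩ F.obj .s (x + Δ) := by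
      refine ⟨⟨0, rfl, (F.pt_zero_dist_lt x).le⟩, ⟨0, h6.symm, (F.pt_zero_dist_lt x).le⟩⟩
    rw [h] at h7
    have h8 : F.pt x a.r 0 = p := h7
    have h9 := F.pt_zero_dist_lt x
    rw [h8] at h9
    exact absurd (show dist p a.O = a.R from hp) h9.ne
  · have h2 : t = -s := by linarith
    subst h2
    refine ⟨s, hs0, hN, hs, ht, ?_, ?_⟩
    · linear_combination (-a.r) * e1 + s * e2 + 0 * hsc
    · linear_combination (-s) * e1 - a.r * e2

theorem ss_rel {x Δ s : ℝ} (hs : s ^ 2 + 2 * (a.par.d * sin x) * s = a.par.N x)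
    (h1 : (a.r ^ 2 + s ^ 2) * cos Δ = a.r ^ 2 - s ^ 2)
    (h2 : (a.r ^ 2 + s ^ 2) * sin Δ = 2 * (a.r * s)) : a.par.Rel .s .s x (x + Δ) := by
  have hr : 0 < a.r := a.r_pos
  have hpos : 0 < a.r ^ 2 + s ^ 2 := by positivity
  simp only [Par.Rel]
  rw [add_sub_cancel_left, Par.cos_half_sq, cos_add]
  have hN : a.par.N x = a.R ^ 2 - a.r ^ 2 - a.par.d ^ 2 + 2 * a.par.d * a.r * cos x := rfl
  rw [hN] at hs
  have e1 : a.par.r = a.r := rfl
  have e2 : a.par.R = a.R := rfl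
  rw [e1, e2]
  apply mul_left_cancel₀ hpos.ne'
  linear_combination (-(a.par.d * a.r * cos x) - (a.R ^ 2 - a.par.d ^ 2) / 2) * h1 +
    (a.par.d * a.r * sin x) * h2 + a.r ^ 2 * hs

theorem ss_backward {x Δ : ℝ} (h0 : 0 < Δ) (hπ : Δ < π) (h : a.par.Rel .s .s x (x + Δ)) :
    ∃ s : ℝ, 0 < s ∧ F.pt x a.r s = F.pt (x + Δ) a.r (-s) ∧ F.pt x a.r s ∈ a.outer ∧
      F.obj .s x ∩ F.obj .s (x + Δ) = {F.pt x a.r s} := by
  have hsc := Real.sin_sq_add_cos_sq Δ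
  have hr : 0 < a.r := a.r_pos
  have hsn : 0 < sin Δ := Real.sin_pos_of_pos_of_lt_pi h0 hπ
  have hc : 0 < 1 + cos Δ := by
    have h1 : 0 < (1 + cos Δ) * (1 - cos Δ) := by nlinarith
    have h2 := Real.cos_le_one Δ
    by_contra hneg
    have : (1 + cos Δ) * (1 - cos Δ) ≤ 0 :=
      mul_nonpos_of_nonpos_of_nonneg (by linarith) (by linarith)
    linarith
  set s := a.r * sin Δ / (1 + cos Δ) with hs
  have hspos : 0 < s := by positivity
  have hs1 : s * (1 + cos Δ) = a.r * sin Δ := by rw [hs]; field_simp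
  have hs2 : s * sin Δ = a.r * (1 - cos Δ) := by
    apply mul_left_cancel₀ hc.ne'
    linear_combination sin Δ * hs1 + a.r * hsc
  have e1 : a.r = a.r * cos Δ - (-s) * sin Δ := by linear_combination (-1) * hs2
  have e2 : s = a.r * sin Δ + (-s) * cos Δ := by linear_combination hs1
  have hpt : F.pt x a.r s = F.pt (x + Δ) a.r (-s) := by
    rw [F.pt_add, ← e1, ← e2]
  have hrs : (a.r ^ 2 + s ^ 2) * (1 + cos Δ) = 2 * a.r ^ 2 := by
    linear_combination s * hs1 + a.r * hs2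
  have hN : s ^ 2 + 2 * (a.par.d * sin x) * s = a.par.N x := by
    simp only [Par.Rel] at h
    rw [add_sub_cancel_left, Par.cos_half_sq, cos_add] at h
    have hN : a.par.N x = a.R ^ 2 - a.r ^ 2 - a.par.d ^ 2 + 2 * a.par.d * a.r * cos x := rfl
    rw [hN]
    have e1 : a.par.r = a.r := rfl
    have e2 : a.par.R = a.R := rfl
    rw [e1, e2] at h
    apply mul_left_cancel₀ hc.ne'
    linear_combination 2 * h + hrs + 2 * a.par.d * sin x * hs1
  have hout : F.pt x a.r s ∈ a.outer := (F.mem_outer_iff x s).2 hN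
  refine ⟨s, hspos, hpt, hout, ?_⟩
  ext w
  simp only [Set.mem_inter_iff, Set.mem_singleton_iff]
  constructor
  · rintro ⟨⟨α, hα, -⟩, β, hβ, -⟩
    have h3 : F.pt x a.r α = F.pt (x + Δ) a.r β := by rw [← hα, ← hβ]
    obtain ⟨g1, g2⟩ := F.ss_coords h3
    have h4 : α = s := by
      apply mul_right_cancel₀ hsn.ne'
      rw [hs2]
      linear_combination sin Δ * g2 + cos Δ * g1 + a.r * hsc
    rw [hα, h4]
  · rintro rfl
    have h5 : dist (F.pt x a.r s) a.O ≤ a.R := (show dist (F.pt x a.r s) a.O = a.R from hout).le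
    exact ⟨⟨s, rfl, h5⟩, ⟨-s, hpt, h5⟩⟩

theorem side_s_pt (θ ξ η : ℝ) : F.side .s θ (F.pt θ ξ η) = η := F.co_pt_im θ ξ η

theorem cs_all {θ Δ : ℝ} {p : ℂ} (h : F.obj .c θ ∩ F.obj .s (θ + Δ) = {p})
    (hp : p ∉ a.inner) :
    a.par.Rel .c .s θ (θ + Δ) ∧ sin Δ ≠ 0 ∧
      (0 < sin Δ → 0 < F.side .c θ p ∧ F.side .s (θ + Δ) p < 0) ∧
      (sin Δ < 0 → F.side .c θ p < 0 ∧ 0 < F.side .s (θ + Δ) p) := by
  obtain ⟨h1, h2⟩ := F.cs_forward h hp
  have hr := a.r_pos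
  have hρ := a.par.rho_pos θ
  have hpos : 0 < a.r + a.par.rho θ := by linarith
  obtain ⟨g1, g2, g3⟩ := cs_signs h1
  rw [h2, F.cs_side_c h1, F.side_s_pt]
  refine ⟨(cs_rel_iff (a := a) θ Δ).1 h1, g1, fun hs => ⟨mul_pos hρ (g2 hs), ?_⟩,
    fun hs => ⟨mul_neg_of_pos_of_neg hρ (g3 hs), ?_⟩⟩
  · have := mul_pos hpos hs
    linarith
  · have := mul_neg_of_pos_of_neg hpos hs
    linarith

theorem contact_core (k l : Letter) {x Δ : ℝ} {p : ℂ}
    (h : a.Contact k l (F.obj k x) (F.obj l (x + Δ)) p) (hp : p ∉ a.inner) :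
    a.par.Rel k l x (x + Δ) ∧ sin Δ ≠ 0 ∧
      (0 < sin Δ → 0 < F.side k x p ∧ F.side l (x + Δ) p < 0) ∧
      (sin Δ < 0 → F.side k x p < 0 ∧ 0 < F.side l (x + Δ) p) := by
  obtain ⟨h, hss⟩ := h
  cases k <;> cases l
  · obtain ⟨h1, h2⟩ := F.cc_forward h
    obtain ⟨g1, g2, g3⟩ := F.cc_signs h1
    obtain ⟨g4, g5⟩ := F.cc_signs' h1
    have h2' : p = F.ccPt x Δ := h2
    rw [h2']
    exact ⟨(cc_rel_iff (a := a) x Δ).1 h1, g1, fun hs => ⟨g2 hs, g4 hs⟩, fun hs => ⟨g3 hs, g5 hs⟩⟩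
  · exact F.cs_all h hp
  · have h' : F.obj .c (x + Δ) ∩ F.obj .s (x + Δ + -Δ) = {p} := by
      rw [add_neg_cancel_right, Set.inter_comm]; exact h
    obtain ⟨g1, g2, g3, g4⟩ := F.cs_all h' hp
    rw [sin_neg] at g2 g3 g4
    rw [add_neg_cancel_right] at g1 g3 g4
    refine ⟨a.par.rel_symm g1, by simpa using g2, fun hs => ?_, fun hs => ?_⟩
    · exact (g4 (by linarith)).symm
    · exact (g3 (by linarith)).symm
  · obtain ⟨s, hs0, hN, hs, ht, hc, hsn⟩ := F.ss_forward h (hss rfl rfl)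
    have hr := a.r_pos
    have hpos : 0 < a.r ^ 2 + s ^ 2 := by positivity
    refine ⟨ss_rel hN hc hsn, ?_, fun hp' => ?_, fun hn => ?_⟩
    · intro h0
      rw [h0, mul_zero] at hsn
      rcases mul_eq_zero.mp hsn.symm with h1 | h1
      · norm_num at h1
      · rcases mul_eq_zero.mp h1 with h2 | h2
        · exact hr.ne' h2
        · exact hs0 h2
    · have h1 : 0 < s := by
        have h2 : 0 < 2 * (a.r * s) := by rw [← hsn]; exact mul_pos hpos hp'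
        by_contra hneg
        have := mul_nonpos_of_nonneg_of_nonpos hr.le (not_lt.mp hneg)
        linarith
      constructor
      · rw [hs, F.side_s_pt]; exact h1
      · rw [ht, F.side_s_pt]; linarith
    · have h1 : s < 0 := by
        have h2 : 2 * (a.r * s) < 0 := by rw [← hsn]; exact mul_neg_of_pos_of_neg hpos hn
        by_contra hneg
        have := mul_nonneg hr.le (not_lt.mp hneg)
        linarith
      constructor
      · rw [hs, F.side_s_pt]; exact h1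
      · rw [ht, F.side_s_pt]; linarith

theorem contact_forward (k l : Letter) (x : ℝ) {T : Set ℂ} {p : ℂ} (hT : ∃ y, T = F.obj l y)
    (h : a.Contact k l (F.obj k x) T p) (hp : p ∉ a.inner) :
    ∃ y, T = F.obj l y ∧
      ((y = a.par.f k l x ∧ 0 < F.side k x p ∧ F.side l y p < 0) ∨
       (x = a.par.f l k y ∧ F.side k x p < 0 ∧ 0 < F.side l y p)) := by
  obtain ⟨y0, rfl⟩ := hT
  -- the representative of `y0` in `(x - π, x + π]`
  obtain ⟨n, hn⟩ : ∃ n : ℤ, y0 + 2 * π * n - x ∈ Set.Ioc (-π) π := by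
    have h2π : (0 : ℝ) < 2 * π := by positivity
    obtain ⟨m, hm, -⟩ := existsUnique_sub_zsmul_mem_Ioc h2π (y0 - x) (-π)
    refine ⟨-m, ?_⟩
    have e : y0 + 2 * π * ((-m : ℤ) : ℝ) - x = (y0 - x) - m • (2 * π) := by
      rw [zsmul_eq_mul]; push_cast; ring
    rw [e]
    have e2 : -π + 2 * π = π := by ring
    rw [e2] at hm
    exact hm
  set Δ := y0 + 2 * π * n - x with hΔ
  have hy : F.obj l y0 = F.obj l (x + Δ) := by
    rw [← F.obj_add l y0 n]; congr 1; rw [hΔ]; ring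
  rw [hy] at h
  obtain ⟨h1, h2, h3, h4⟩ := F.contact_core k l h hp
  refine ⟨x + Δ, hy, ?_⟩
  have hΔπ : Δ < π := by
    rcases lt_or_eq_of_le hn.2 with h5 | h5
    · exact h5
    · exfalso; apply h2; rw [h5, sin_pi]
  have hΔ0 : Δ ≠ 0 := by
    intro h5; apply h2; rw [h5, sin_zero]
  rcases lt_or_gt_of_ne hΔ0 with h5 | h5
  · right
    have h6 : sin Δ < 0 := Real.sin_neg_of_neg_of_neg_pi_lt h5 hn.1
    exact ⟨a.par.eq_f_of_rel (by linarith) (by linarith [hn.1]) (a.par.rel_symm h1), h4 h6⟩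
  · left
    have h6 : 0 < sin Δ := Real.sin_pos_of_pos_of_lt_pi h5 hΔπ
    exact ⟨a.par.eq_f_of_rel (by linarith) (by linarith) h1, h3 h6⟩

theorem cs_backward_all {θ Δ : ℝ} (h : a.par.Rel .c .s θ (θ + Δ)) :
    ∃ p, F.obj .c θ ∩ F.obj .s (θ + Δ) = {p} ∧
      (0 < sin Δ → 0 < F.side .c θ p ∧ F.side .s (θ + Δ) p < 0) ∧
      (sin Δ < 0 → F.side .c θ p < 0 ∧ 0 < F.side .s (θ + Δ) p) := by
  have h1 := (cs_rel_iff (a := a) θ Δ).2 h
  have hr := a.r_pos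
  have hρ := a.par.rho_pos θ
  have hpos : 0 < a.r + a.par.rho θ := by linarith
  obtain ⟨g1, g2, g3⟩ := cs_signs h1
  refine ⟨_, F.cs_backward h1, ?_, ?_⟩
  · intro hs
    rw [F.cs_side_c h1, F.side_s_pt]
    have := mul_pos hpos hs
    exact ⟨mul_pos hρ (g2 hs), by linarith⟩
  · intro hs
    rw [F.cs_side_c h1, F.side_s_pt]
    have := mul_neg_of_pos_of_neg hpos hs
    exact ⟨mul_neg_of_pos_of_neg hρ (g3 hs), by linarith⟩

theorem contact_exists (k l : Letter) (x : ℝ) :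
    ∃ p, a.Contact k l (F.obj k x) (F.obj l (a.par.f k l x)) p ∧
      0 < F.side k x p ∧ F.side l (a.par.f k l x) p < 0 := by
  have h1 := a.par.lt_f k l x
  have h2 := a.par.f_lt k l x
  have h3 := a.par.rel_f k l x
  obtain ⟨Δ, hΔ⟩ : ∃ Δ, a.par.f k l x = x + Δ := ⟨a.par.f k l x - x, by ring⟩
  rw [hΔ] at h1 h2 h3 ⊢
  have h0 : 0 < Δ := by linarith
  have hπ : Δ < π := by linarith
  have hs : 0 < sin Δ := Real.sin_pos_of_pos_of_lt_pi h0 hπ
  cases k <;> cases l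
  · have h4 := (cc_rel_iff (a := a) x Δ).2 h3
    refine ⟨F.ccPt x Δ, ⟨F.cc_backward h4, fun h5 => by cases h5⟩, (F.cc_signs h4).2.1 hs,
      (F.cc_signs' h4).1 hs⟩
  · obtain ⟨p, g1, g2, -⟩ := F.cs_backward_all h3
    exact ⟨p, ⟨g1, fun h5 => by cases h5⟩, g2 hs⟩
  · have h4 : a.par.Rel .c .s (x + Δ) (x + Δ + -Δ) := by
      rw [add_neg_cancel_right]; exact a.par.rel_symm h3
    obtain ⟨p, g1, -, g2⟩ := F.cs_backward_all h4
    rw [add_neg_cancel_right] at g1 g2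
    refine ⟨p, ⟨by rw [Set.inter_comm]; exact g1, fun _ h5 => by cases h5⟩, ?_⟩
    exact (g2 (by rw [sin_neg]; linarith)).symm
  · obtain ⟨s, g1, g2, g3, g4⟩ := F.ss_backward h0 hπ h3
    refine ⟨F.pt x a.r s, ⟨g4, fun _ _ => g3⟩, ?_, ?_⟩
    · rw [F.side_s_pt]; exact g1
    · rw [g2, F.side_s_pt]; linarith

end Frame

end Pool.Agent.Work.MP_68e044_gt
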