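import Mathlib
import Pool.Agent.Work.MP_68e044_gt.GeoDefs

/-!
# A circle enclosing the inner circle meets the other objects only at boundary contact points
-/

namespace Pool.Agent.Work.MP_68e044_gt

open Real Set

theorem Encl.inner_le {a : Annulus} {z : ℂ} {ρ : ℝ} (h : dist z a.o + a.r = ρ) {t : ℂ}
    (ht : t ∈ a.inner) : dist t z ≤ ρ := by
  have h1 : dist t a.o = a.r := ht
  have h2 := dist_triangle t a.o z
  rw [dist_comm a.o z] at h2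
  linarith

theorem Encl.outer_ge {a : Annulus} {z : ℂ} {ρ : ℝ} (h : dist z a.O + ρ = a.R) {t : ℂ}
    (ht : t ∈ a.outer) : ρ ≤ dist t z := by
  have h1 : dist t a.O = a.R := ht
  have h2 := dist_triangle t z a.O
  linarith

theorem encl_chord {a : Annulus} {z : ℂ} {ρ : ℝ} (h1 : dist z a.o + a.r = ρ)
    (h2 : dist z a.O + ρ = a.R) {T : Set ℂ} (hT : a.IsTangentChord T) {p : ℂ}
    (h : Metric.sphere z ρ ∩ T = {p}) : p ∈ a.inner := by
  obtain ⟨p₁, q₁, hp₁, hq₁, hne, rfl, t, ht⟩ := hT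
  have htT : t ∈ segment ℝ p₁ q₁ ∩ a.inner := by rw [ht]; rfl
  rw [segment_eq_image_lineMap] at htT h
  obtain ⟨⟨s, hs, rfl⟩, hti⟩ := htT
  have hcont : Continuous (fun x : ℝ => dist (AffineMap.lineMap p₁ q₁ x : ℂ) z) :=
    (AffineMap.lineMap_continuous).dist continuous_const
  have ht0 : dist (AffineMap.lineMap p₁ q₁ s : ℂ) z ≤ ρ := Encl.inner_le h1 hti
  have hp0 : ρ ≤ dist (AffineMap.lineMap p₁ q₁ (0 : ℝ) : ℂ) z := by
    rw [AffineMap.lineMap_apply_zero]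
    exact Encl.outer_ge h2 hp₁
  have hq0 : ρ ≤ dist (AffineMap.lineMap p₁ q₁ (1 : ℝ) : ℂ) z := by
    rw [AffineMap.lineMap_apply_one]
    exact Encl.outer_ge h2 hq₁
  obtain ⟨s₁, hs₁, he₁⟩ := intermediate_value_Icc' hs.1 hcont.continuousOn ⟨ht0, hp0⟩
  obtain ⟨s₂, hs₂, he₂⟩ := intermediate_value_Icc hs.2 hcont.continuousOn ⟨ht0, hq0⟩
  have hm₁ : (AffineMap.lineMap p₁ q₁ s₁ : ℂ) ∈
      Metric.sphere z ρ ∩ (AffineMap.lineMap p₁ q₁ : ℝ → ℂ) '' Icc 0 1 :=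
    ⟨he₁, s₁, ⟨hs₁.1, hs₁.2.trans hs.2⟩, rfl⟩
  have hm₂ : (AffineMap.lineMap p₁ q₁ s₂ : ℂ) ∈
      Metric.sphere z ρ ∩ (AffineMap.lineMap p₁ q₁ : ℝ → ℂ) '' Icc 0 1 :=
    ⟨he₂, s₂, ⟨hs.1.trans hs₂.1, hs₂.2⟩, rfl⟩
  rw [h, mem_singleton_iff] at hm₁ hm₂
  have heq : s₁ = s₂ := AffineMap.lineMap_injective ℝ hne (hm₁.trans hm₂.symm)
  have hs' : s₁ = s := le_antisymm hs₁.2 (heq ▸ hs₂.1)
  rw [← hm₁, hs']
  exact hti

theorem exists_angle {z w : ℂ} {ρ : ℝ} (hw : w ∈ Metric.sphere z ρ) (hρ : 0 < ρ) (θ₀ : ℝ)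
    (hne : w ≠ circleMap z ρ θ₀) :
    ∃ θ ∈ Ioo θ₀ (θ₀ + 2 * π), circleMap z ρ θ = w := by
  have h1 : w ∈ Metric.sphere z |ρ| := by rw [abs_of_pos hρ]; exact hw
  rw [← range_circleMap] at h1
  obtain ⟨φ, rfl⟩ := h1
  have h2 := toIcoMod_mem_Ico Real.two_pi_pos θ₀ φ
  have h3 : circleMap z ρ (toIcoMod Real.two_pi_pos θ₀ φ) = circleMap z ρ φ := by
    rw [toIcoMod]
    exact (periodic_circleMap z ρ).sub_zsmul_eq _
  refine ⟨_, ⟨lt_of_le_of_ne h2.1 ?_, h2.2⟩, h3⟩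
  intro h4
  apply hne
  rw [← h3, ← h4]

theorem encl_circle {a : Annulus} {z : ℂ} {ρ : ℝ} (h1 : dist z a.o + a.r = ρ)
    (h2 : dist z a.O + ρ = a.R) {T : Set ℂ} (hT : a.IsInscribed T) {p : ℂ}
    (h : Metric.sphere z ρ ∩ T = {p}) : p ∈ a.inner ∨ p ∈ a.outer := by
  obtain ⟨w, σ, hσ, rfl, -, ⟨X, hX⟩, ⟨Y, hY⟩⟩ := hT
  have hXm : X ∈ Metric.sphere w σ ∩ a.inner := by rw [hX]; rfl
  have hYm : Y ∈ Metric.sphere w σ ∩ a.outer := by rw [hY]; rfl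
  by_cases hXp : X = p
  · left; rw [← hXp]; exact hXm.2
  by_cases hYp : Y = p
  · right; rw [← hYp]; exact hYm.2
  exfalso
  have hpm : p ∈ Metric.sphere z ρ ∩ Metric.sphere w σ := by rw [h]; rfl
  have h3 : p ∈ Metric.sphere w |σ| := by rw [abs_of_pos hσ]; exact hpm.2
  rw [← range_circleMap] at h3
  obtain ⟨θ₀, hθ₀⟩ := h3
  obtain ⟨θX, hθX, eX⟩ := exists_angle hXm.1 hσ θ₀ (by rw [hθ₀]; exact hXp)
  obtain ⟨θY, hθY, eY⟩ := exists_angle hYm.1 hσ θ₀ (by rw [hθ₀]; exact hYp)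
  have hcont : Continuous (fun x : ℝ => dist (circleMap w σ x) z) :=
    (continuous_circleMap w σ).dist continuous_const
  have hX0 : dist (circleMap w σ θX) z ≤ ρ := by
    rw [eX]; exact Encl.inner_le h1 hXm.2
  have hY0 : ρ ≤ dist (circleMap w σ θY) z := by
    rw [eY]; exact Encl.outer_ge h2 hYm.2
  obtain ⟨θ, hθ, eθ⟩ := intermediate_value_uIcc hcont.continuousOn
    (mem_uIcc.2 (Or.inl ⟨hX0, hY0⟩))
  have hθm : circleMap w σ θ ∈ Metric.sphere z ρ ∩ Metric.sphere w σ :=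
    ⟨eθ, circleMap_mem_sphere w hσ.le θ⟩
  rw [h, mem_singleton_iff, ← hθ₀] at hθm
  rw [mem_uIcc] at hθ
  have hin : θ₀ < θ ∧ θ < θ₀ + 2 * π := by
    rcases hθ with hθ | hθ
    · exact ⟨hθX.1.trans_le hθ.1, hθ.2.trans_lt hθY.2⟩
    · exact ⟨hθY.1.trans_le hθ.1, hθ.2.trans_lt hθX.2⟩
  unfold circleMap at hθm
  have h5 := add_left_cancel hθm
  have h6 := mul_left_cancel₀ (Complex.ofReal_ne_zero.2 hσ.ne') h5
  rw [Complex.exp_eq_exp_iff_exists_int] at h6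
  obtain ⟨n, hn⟩ := h6
  have h7 : θ = θ₀ + n * (2 * π) := by
    have : ((θ : ℂ)) = ((θ₀ + n * (2 * π) : ℝ) : ℂ) := by
      apply mul_right_cancel₀ Complex.I_ne_zero
      rw [hn]
      push_cast
      ring
    exact_mod_cast this
  have hpi := Real.two_pi_pos
  rw [h7] at hin
  have h8 : (0 : ℝ) < n := by
    by_contra hneg
    push Not at hneg
    nlinarith [hin.1]
  have h9 : (n : ℝ) < 1 := by
    by_contra hneg
    push Not at hneg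
    nlinarith [hin.2]
  have h10 : (0 : ℤ) < n := by exact_mod_cast h8
  have h11 : n < (1 : ℤ) := by exact_mod_cast h9
  omega

theorem encl_obj {a : Annulus} {l : Letter} {S T : Set ℂ} {p : ℂ} (hS : Encl a S)
    (hT : a.IsObj l T) (h : S ∩ T = {p}) : p ∈ a.inner ∨ (l = .c ∧ p ∈ a.outer) := by
  obtain ⟨z, ρ, -, rfl, h1, h2⟩ := hS
  cases l with
  | c =>
    rcases encl_circle h1 h2 hT h with h3 | h3
    · exact Or.inl h3
    · exact Or.inr ⟨rfl, h3⟩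
  | s => exact Or.inl (encl_chord h1 h2 hT h)

theorem encl_contact {a : Annulus} {k l : Letter} {S T : Set ℂ} {p : ℂ} (hS : a.IsObj k S)
    (hT : a.IsObj l T) (h : a.Contact k l S T p)
    (hE : (k = .c ∧ Encl a S) ∨ (l = .c ∧ Encl a T)) :
    p ∈ a.inner ∨ (k = .c ∧ l = .c ∧ p ∈ a.outer) := by
  rcases hE with ⟨hk, hE⟩ | ⟨hl, hE⟩
  · rcases encl_obj hE hT h.1 with h1 | ⟨h1, h2⟩
    · exact Or.inl h1
    · exact Or.inr ⟨hk, h1, h2⟩
  · have h3 : T ∩ S = {p} := by rw [Set.inter_comm]; exact h.1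
    rcases encl_obj hE hS h3 with h1 | ⟨h1, h2⟩
    · exact Or.inl h1
    · exact Or.inr ⟨h1, hl, h2⟩

end Pool.Agent.Work.MP_68e044_gt
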