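import Pool.Agent.Work.MP_68e044_gt.GeoPar

set_option autoImplicit false

/-!
# Separated points on an object
-/

namespace Pool.Agent.Work.MP_68e044_gt

open Real

/-- the cross product of `y - x` and `p - x` -/
noncomputable def crs (x y p : ℂ) : ℝ := ((starRingEnd ℂ (y - x)) * (p - x)).im

lemma crs_affine (x y p q : ℂ) (s : ℝ) :
    crs x y (p + s * (q - p)) = crs x y p + s * (crs x y q - crs x y p) := by
  simp only [crs, Complex.mul_im, Complex.conj_re, Complex.conj_im, Complex.sub_re,
    Complex.sub_im, Complex.add_re, Complex.add_im, Complex.mul_re, Complex.ofReal_re,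
    Complex.ofReal_im]
  ring

lemma mem_line_iff' (x y p : ℂ) : p ∈ line[ℝ, x, y] ↔ ∃ t : ℝ, (t : ℂ) * (y - x) = p - x := by
  rw [← AffineSubspace.vsub_right_mem_direction_iff_mem (left_mem_affineSpan_pair ℝ x y),
    direction_affineSpan, mem_vectorSpan_pair_rev]
  simp only [vsub_eq_sub, Complex.real_smul]

lemma mem_line_iff {x y : ℂ} (h : x ≠ y) (p : ℂ) : p ∈ line[ℝ, x, y] ↔ crs x y p = 0 := by
  have h0 : y - x ≠ 0 := sub_ne_zero.mpr h.symm
  rw [mem_line_iff']
  constructor
  · rintro ⟨t, ht⟩
    simp only [crs]
    rw [← ht, show (starRingEnd ℂ) (y - x) * ((t : ℂ) * (y - x)) =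
      (t : ℂ) * ((y - x) * (starRingEnd ℂ) (y - x)) by ring, Complex.mul_conj,
      ← Complex.ofReal_mul, Complex.ofReal_im]
  · intro hc
    set z := (starRingEnd ℂ (y - x)) * (p - x) with hz
    have hzr : z = ((z.re : ℝ) : ℂ) := by
      apply Complex.ext
      · simp
      · rw [Complex.ofReal_im]
        exact hc
    refine ⟨z.re / Complex.normSq (y - x), ?_⟩
    have h1 : ((Complex.normSq (y - x) : ℝ) : ℂ) = (y - x) * (starRingEnd ℂ) (y - x) :=
      (Complex.mul_conj _).symm
    have h2 : (starRingEnd ℂ) (y - x) ≠ 0 := by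
      rw [Ne, map_eq_zero]
      exact h0
    rw [Complex.ofReal_div, ← hzr, h1, hz]
    field_simp

theorem sOppSide_iff {x y p q : ℂ} (h : x ≠ y) :
    (line[ℝ, x, y]).SOppSide p q ↔
      ((starRingEnd ℂ (y - x)) * (p - x)).im * ((starRingEnd ℂ (y - x)) * (q - x)).im < 0 := by
  show _ ↔ crs x y p * crs x y q < 0
  constructor
  · rintro ⟨hw, hp, hq⟩
    rw [mem_line_iff h] at hp hq
    obtain ⟨m, hm, t, ⟨ht0, ht1⟩, rfl⟩ := AffineSubspace.wOppSide_iff_exists_wbtw.mp hw
    rw [mem_line_iff h, AffineMap.lineMap_apply, vsub_eq_sub, vadd_eq_add, Complex.real_smul,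
      add_comm, crs_affine] at hm
    by_contra hcon
    push Not at hcon
    have hpos : 0 < crs x y p * crs x y q := lt_of_le_of_ne hcon (mul_ne_zero hp hq).symm
    rcases pos_and_pos_or_neg_and_neg_of_mul_pos hpos with ⟨h1, h2⟩ | ⟨h1, h2⟩
    · have : 0 < (1 - t) * crs x y p + t * crs x y q := by
        rcases eq_or_lt_of_le ht0 with h3 | h3
        · rw [← h3]; linarith
        · have := mul_pos h3 h2
          have := mul_nonneg (sub_nonneg.mpr ht1) h1.le
          linarith
      linarith
    · have : (1 - t) * crs x y p + t * crs x y q < 0 := by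
        rcases eq_or_lt_of_le ht0 with h3 | h3
        · rw [← h3]; linarith
        · have := mul_neg_of_pos_of_neg h3 h2
          have := mul_nonpos_of_nonneg_of_nonpos (sub_nonneg.mpr ht1) h1.le
          linarith
      linarith
  · intro hlt
    have hp : crs x y p ≠ 0 := by
      intro h0
      rw [h0, zero_mul] at hlt
      exact lt_irrefl _ hlt
    have hq : crs x y q ≠ 0 := by
      intro h0
      rw [h0, mul_zero] at hlt
      exact lt_irrefl _ hlt
    refine ⟨?_, by rwa [mem_line_iff h], by rwa [mem_line_iff h]⟩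
    rw [AffineSubspace.wOppSide_iff_exists_wbtw]
    set u := crs x y p with hu
    set v := crs x y q with hv
    have huv : u - v ≠ 0 := by
      intro h0
      have : u = v := by linarith
      rw [this] at hlt
      nlinarith [mul_self_nonneg v]
    refine ⟨p + ((u / (u - v) : ℝ) : ℂ) * (q - p), ?_, u / (u - v), ⟨?_, ?_⟩, ?_⟩
    · rw [mem_line_iff h, crs_affine, ← hu, ← hv]
      field_simp
      ring
    · rcases lt_or_gt_of_ne hp with h1 | h1
      · have h2 : 0 < v := by
          by_contra h3
          push Not at h3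
          nlinarith
        exact div_nonneg_of_nonpos h1.le (by linarith)
      · have h2 : v < 0 := by
          by_contra h3
          push Not at h3
          nlinarith
        exact div_nonneg h1.le (by linarith)
    · rcases lt_or_gt_of_ne hp with h1 | h1
      · have h2 : 0 < v := by
          by_contra h3
          push Not at h3
          nlinarith
        rw [div_le_one_of_neg (by linarith)]
        linarith
      · have h2 : v < 0 := by
          by_contra h3
          push Not at h3
          nlinarith
        rw [div_le_one (by linarith)]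
        linarith
    · rw [AffineMap.lineMap_apply, vsub_eq_sub, vadd_eq_add, Complex.real_smul, add_comm]

lemma Annulus.rho_pos (a : Annulus) (θ : ℝ) : 0 < a.par.rho θ :=
  div_pos (a.par.N_pos θ) (mul_pos two_pos (a.par.Q_pos θ))

lemma Annulus.rho_lt (a : Annulus) (θ : ℝ) : 0 < a.R - a.par.rho θ := by
  have hQ := a.par.Q_pos θ
  have hr := a.par.hr
  have hd := a.par.hd
  have hR := a.par.hR
  have e1 : a.R - a.par.rho θ = ((a.par.R + a.par.r) ^ 2 -
      2 * a.par.d * (a.par.R + a.par.r) * cos θ + a.par.d ^ 2) / (2 * a.par.Q θ) := by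
    rw [eq_div_iff (by positivity), sub_mul, Par.rho, div_mul_cancel₀ _ (by positivity)]
    show a.par.R * (2 * a.par.Q θ) - a.par.N θ = _
    simp only [Par.Q, Par.N]
    ring
  rw [e1]
  apply div_pos _ (by positivity)
  have h1 : a.par.d < a.par.R + a.par.r := by linarith
  have h2 : cos θ ≤ 1 := Real.cos_le_one θ
  have h3 : 0 ≤ a.par.d * (a.par.R + a.par.r) := mul_nonneg hd (by linarith)
  have h4 : 0 < (a.par.R + a.par.r - a.par.d) ^ 2 := by
    have : 0 < a.par.R + a.par.r - a.par.d := by linarith
    positivity
  nlinarith [mul_nonneg h3 (sub_nonneg.mpr h2)]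

lemma Frame.Y_sub {a : Annulus} (F : Frame a) (θ : ℝ) : F.Y θ - F.pt θ a.r 0 =
    ((a.par.rho θ / (a.R - a.par.rho θ) : ℝ) : ℂ) *
      (F.e θ * (a.par.Q θ + (a.par.d * sin θ : ℝ) * Complex.I)) := by
  unfold Frame.Y Frame.pt
  push_cast
  ring

lemma Frame.crs_eq {a : Annulus} (F : Frame a) (θ : ℝ) (p : ℂ) :
    crs (F.pt θ a.r 0) (F.Y θ) p =
      a.par.rho θ / (a.R - a.par.rho θ) * F.side .c θ p := by
  have hco : F.co θ p = (starRingEnd ℂ) (F.e θ) * (p - F.pt θ a.r 0) + a.r := by
    have h1 := F.co_pt θ a.r 0
    have h2 : F.co θ p - F.co θ (F.pt θ a.r 0) =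
        (starRingEnd ℂ) (F.e θ) * (p - F.pt θ a.r 0) := by
      unfold Frame.co
      ring
    rw [← h2, h1]
    push_cast
    ring
  set z : ℂ := (starRingEnd ℂ) (F.e θ) * (p - F.pt θ a.r 0) with hz
  have h3 : (starRingEnd ℂ) (F.Y θ - F.pt θ a.r 0) * (p - F.pt θ a.r 0) =
      ((a.par.rho θ / (a.R - a.par.rho θ) : ℝ) : ℂ) *
        ((a.par.Q θ - (a.par.d * sin θ : ℝ) * Complex.I) * z) := by
    rw [F.Y_sub, map_mul, map_mul, Complex.conj_ofReal, map_add, map_mul, Complex.conj_ofReal,
      Complex.conj_ofReal, Complex.conj_I, hz]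
    ring
  rw [crs, h3, Complex.im_ofReal_mul]
  congr 1
  simp only [Frame.side]
  rw [hco]
  simp only [Complex.mul_im, Complex.sub_re, Complex.ofReal_re, Complex.mul_re, Complex.ofReal_im,
    Complex.I_re, Complex.I_im, Complex.sub_im, Complex.add_im, Complex.add_re]
  ring

theorem Frame.separated_iff {a : Annulus} (F : Frame a) (k : Letter) (θ : ℝ) {p q : ℂ}
    (hp : p ∈ F.obj k θ) (hq : q ∈ F.obj k θ) :
    a.Separated k (F.obj k θ) p q ↔ F.side k θ p * F.side k θ q < 0 := by
  cases k with
  | c =>
    have hρ := a.rho_pos θ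
    have hR := a.rho_lt θ
    have hc : 0 < a.par.rho θ / (a.R - a.par.rho θ) := div_pos hρ hR
    have hne : F.pt θ a.r 0 ≠ F.Y θ := by
      intro h0
      have h1 := F.Y_sub θ
      rw [← h0, sub_self] at h1
      rcases mul_eq_zero.mp h1.symm with h2 | h2
      · rw [Complex.ofReal_eq_zero] at h2
        exact hc.ne' h2
      · rcases mul_eq_zero.mp h2 with h3 | h3
        · have := F.norm_e θ
          rw [h3, norm_zero] at this
          exact zero_ne_one this
        · have := congrArg Complex.re h3
          simp at this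
          exact (a.par.Q_pos θ).ne' this
    have key : (line[ℝ, F.pt θ a.r 0, F.Y θ]).SOppSide p q ↔
        F.side .c θ p * F.side .c θ q < 0 := by
      rw [sOppSide_iff hne]
      show crs (F.pt θ a.r 0) (F.Y θ) p * crs (F.pt θ a.r 0) (F.Y θ) q < 0 ↔ _
      rw [F.crs_eq, F.crs_eq]
      set c := a.par.rho θ / (a.R - a.par.rho θ)
      rw [show c * F.side .c θ p * (c * F.side .c θ q) =
        (c * c) * (F.side .c θ p * F.side .c θ q) by ring]
      constructor
      · intro h1
        by_contra h2
        push Not at h2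
        exact absurd h1 (not_lt.mpr (mul_nonneg (mul_pos hc hc).le h2))
      · exact mul_neg_of_pos_of_neg (mul_pos hc hc)
    rw [← key]
    constructor
    · rintro ⟨x, y, hx, hy, h⟩
      rw [F.obj_inner] at hx
      rw [F.obj_c_outer] at hy
      rw [← Set.singleton_injective hx, ← Set.singleton_injective hy] at h
      exact h
    · intro h
      exact ⟨_, _, F.obj_inner .c θ, F.obj_c_outer θ, h⟩
  | s =>
    obtain ⟨u, rfl, -⟩ := hp
    obtain ⟨v, rfl, -⟩ := hq
    have hsu : F.side .s θ (F.pt θ a.r u) = u := by
      simp only [Frame.side]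
      rw [F.co_pt]
      simp
    have hsv : F.side .s θ (F.pt θ a.r v) = v := by
      simp only [Frame.side]
      rw [F.co_pt]
      simp
    rw [hsu, hsv]
    have hinj : ∀ {s t : ℝ}, F.pt θ a.r s = F.pt θ a.r t → s = t := by
      intro s t h
      have h1 := congrArg (fun w => (F.co θ w).im) h
      simp only [F.co_pt] at h1
      simpa using h1
    have hline : ∀ t : ℝ, AffineMap.lineMap (F.pt θ a.r u) (F.pt θ a.r v) t =
        F.pt θ a.r (u + t * (v - u)) := by
      intro t
      rw [AffineMap.lineMap_apply, vsub_eq_sub, vadd_eq_add, Complex.real_smul]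
      unfold Frame.pt
      push_cast
      ring
    have key : Sbtw ℝ (F.pt θ a.r u) (F.pt θ a.r 0) (F.pt θ a.r v) ↔ u * v < 0 := by
      constructor
      · rintro ⟨⟨t, ⟨ht0, ht1⟩, ht⟩, h1, h2⟩
        rw [hline] at ht
        have h3 : u + t * (v - u) = 0 := hinj ht
        have hu : u ≠ 0 := by
          rintro rfl
          exact h1 rfl
        have hv : v ≠ 0 := by
          rintro rfl
          exact h2 rfl
        by_contra hcon
        push Not at hcon
        have hpos : 0 < u * v := lt_of_le_of_ne hcon (mul_ne_zero hu hv).symm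
        rcases pos_and_pos_or_neg_and_neg_of_mul_pos hpos with ⟨g1, g2⟩ | ⟨g1, g2⟩
        · rcases eq_or_lt_of_le ht0 with h4 | h4
          · rw [← h4] at h3; linarith
          · have := mul_pos h4 g2
            have := mul_nonneg (sub_nonneg.mpr ht1) g1.le
            linarith
        · rcases eq_or_lt_of_le ht0 with h4 | h4
          · rw [← h4] at h3; linarith
          · have := mul_neg_of_pos_of_neg h4 g2
            have := mul_nonpos_of_nonneg_of_nonpos (sub_nonneg.mpr ht1) g1.le
            linarith
      · intro hlt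
        have hu : u ≠ 0 := by
          rintro rfl
          rw [zero_mul] at hlt
          exact lt_irrefl _ hlt
        have hv : v ≠ 0 := by
          rintro rfl
          rw [mul_zero] at hlt
          exact lt_irrefl _ hlt
        have huv : u - v ≠ 0 := by
          intro h0
          have : u = v := by linarith
          rw [this] at hlt
          nlinarith [mul_self_nonneg v]
        refine ⟨⟨u / (u - v), ⟨?_, ?_⟩, ?_⟩, fun h0 => hu (hinj h0).symm,
          fun h0 => hv (hinj h0).symm⟩
        · rcases lt_or_gt_of_ne hu with h1 | h1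
          · have h2 : 0 < v := by
              by_contra h3
              push Not at h3
              nlinarith
            exact div_nonneg_of_nonpos h1.le (by linarith)
          · have h2 : v < 0 := by
              by_contra h3
              push Not at h3
              nlinarith
            exact div_nonneg h1.le (by linarith)
        · rcases lt_or_gt_of_ne hu with h1 | h1
          · have h2 : 0 < v := by
              by_contra h3
              push Not at h3
              nlinarith
            rw [div_le_one_of_neg (by linarith)]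
            linarith
          · have h2 : v < 0 := by
              by_contra h3
              push Not at h3
              nlinarith
            rw [div_le_one (by linarith)]
            linarith
        · rw [hline]
          congr 1
          field_simp
          ring
    rw [← key]
    constructor
    · rintro ⟨t, ht, h⟩
      rw [F.obj_inner] at ht
      rw [← Set.singleton_injective ht] at h
      exact h
    · intro h
      exact ⟨_, F.obj_inner .s θ, h⟩

/-- points separated on an object are no contact points with the boundary circles -/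
theorem Annulus.Separated.nondeg {a : Annulus} {k : Letter} {S : Set ℂ} {p q : ℂ}
    (h : a.Separated k S p q) (hp : p ∈ S) (hq : q ∈ S) :
    (p ∉ a.inner ∧ q ∉ a.inner) ∧ (k = .c → p ∉ a.outer ∧ q ∉ a.outer) := by
  cases k with
  | c =>
    obtain ⟨x, y, hx, hy, -, hps, hqs⟩ := h
    have hxl : x ∈ line[ℝ, x, y] := left_mem_affineSpan_pair ℝ x y
    have hyl : y ∈ line[ℝ, x, y] := right_mem_affineSpan_pair ℝ x y
    have f1 : ∀ w ∈ S, w ∉ line[ℝ, x, y] → w ∉ a.inner := by
      intro w hw hwl hwi
      have : w ∈ S ∩ a.inner := ⟨hw, hwi⟩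
      rw [hx, Set.mem_singleton_iff] at this
      exact hwl (this ▸ hxl)
    have f2 : ∀ w ∈ S, w ∉ line[ℝ, x, y] → w ∉ a.outer := by
      intro w hw hwl hwi
      have : w ∈ S ∩ a.outer := ⟨hw, hwi⟩
      rw [hy, Set.mem_singleton_iff] at this
      exact hwl (this ▸ hyl)
    exact ⟨⟨f1 p hp hps, f1 q hq hqs⟩, fun _ => ⟨f2 p hp hps, f2 q hq hqs⟩⟩
  | s =>
    obtain ⟨t, ht, -, h1, h2⟩ := h
    refine ⟨⟨?_, ?_⟩, fun h => by cases h⟩
    · intro hpi
      have : p ∈ S ∩ a.inner := ⟨hp, hpi⟩
      rw [ht, Set.mem_singleton_iff] at this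
      exact h1 this.symm
    · intro hqi
      have : q ∈ S ∩ a.inner := ⟨hq, hqi⟩
      rw [ht, Set.mem_singleton_iff] at this
      exact h2 this.symm

end Pool.Agent.Work.MP_68e044_gt
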