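import Mathlib
import Pool.Agent.Work.MP_68e044_gt.GeoContact
import Pool.Agent.Work.MP_68e044_gt.GeoSep
import Pool.Agent.Work.MP_68e044_gt.GeoEncl

/-!
# Chains in terms of angles
-/

namespace Pool.Agent.Work.MP_68e044_gt

open Real

theorem letterAt_add (w : List Letter) (i : ℕ) : letterAt w (i + w.length) = letterAt w i := by
  unfold letterAt; rw [Nat.add_mod_right]

theorem letterAt_length (w : List Letter) : letterAt w w.length = letterAt w 0 := by
  have := letterAt_add w 0
  rwa [zero_add] at this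

/-- a contact point lies on both objects -/
theorem Annulus.Contact.mem {a : Annulus} {k l : Letter} {S T : Set ℂ} {p : ℂ}
    (h : a.Contact k l S T p) : p ∈ S ∧ p ∈ T := by
  have : p ∈ S ∩ T := by rw [h.1]; rfl
  exact this

/-- contact points of a chain of length at least two are no contact points with the boundary
circles -/
theorem WChain.nondeg {a : Annulus} {w : List Letter} {u : ℕ → Set ℂ} {p : ℕ → ℂ}
    (h : WChain a w u p) (hw : 2 ≤ w.length) (i : ℕ) (hi : i < w.length) :
    p i ∉ a.inner ∧ (letterAt w i = .c → letterAt w (i + 1) = .c → p i ∉ a.outer) := by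
  by_cases hi' : i + 1 < w.length
  · have h1 := h.sep i hi'
    have h2 := (h.contact i hi).mem
    have h3 := (h.contact (i + 1) hi').mem
    have h4 := h1.nondeg h2.2 h3.1
    exact ⟨h4.1.1, fun _ h5 => (h4.2 h5).1⟩
  · obtain ⟨j, rfl⟩ : ∃ j, i = j + 1 := ⟨i - 1, by omega⟩
    have h1 := h.sep j hi
    have h2 := (h.contact j (by omega)).mem
    have h3 := (h.contact (j + 1) hi).mem
    have h4 := h1.nondeg h2.2 h3.1
    exact ⟨h4.1.2, fun h5 _ => (h4.2 h5).2⟩

theorem WChain.not_encl {a : Annulus} {w : List Letter} {u : ℕ → Set ℂ} {p : ℕ → ℂ}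
    (h : WChain a w u p) (hw : 2 ≤ w.length) (i : ℕ) (hi : i ≤ w.length) :
    ¬ (letterAt w i = .c ∧ Encl a (u i)) := by
  intro hE
  rcases Nat.lt_or_ge i w.length with hi' | hi'
  · have h1 := encl_contact (h.obj i hi) (h.obj (i + 1) hi') (h.contact i hi') (Or.inl hE)
    have h2 := h.nondeg hw i hi'
    rcases h1 with h1 | ⟨h1, h3, h4⟩
    · exact h2.1 h1
    · exact h2.2 h1 h3 h4
  · obtain ⟨j, rfl⟩ : ∃ j, i = j + 1 := ⟨i - 1, by omega⟩
    have hj : j < w.length := by omega
    have h1 := encl_contact (h.obj j hj.le) (h.obj (j + 1) hi) (h.contact j hj) (Or.inr hE)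
    have h2 := h.nondeg hw j hj
    rcases h1 with h1 | ⟨h1, h3, h4⟩
    · exact h2.1 h1
    · exact h2.2 h1 h3 h4

theorem WChain.exists_angle {a : Annulus} (F : Frame a) {w : List Letter} {u : ℕ → Set ℂ}
    {p : ℕ → ℂ} (h : WChain a w u p) (hw : 2 ≤ w.length) (i : ℕ) (hi : i ≤ w.length) :
    ∃ θ, u i = F.obj (letterAt w i) θ := by
  have h1 := h.obj i hi
  have h2 := h.not_encl hw i hi
  generalize letterAt w i = l at h1 h2 ⊢
  cases l
  · rcases F.cases_of_isInscribed h1 with h3 | h3
    · exact h3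
    · exact absurd ⟨rfl, h3⟩ h2
  · exact F.exists_of_isTangentChord h1

/-- a chain of length at least two runs through the orbit of an angle, in one of the two
directions -/
theorem WChain.angles {a : Annulus} (F : Frame a) {w : List Letter} {u : ℕ → Set ℂ}
    {p : ℕ → ℂ} (h : WChain a w u p) (hw : 2 ≤ w.length) :
    (∃ x, ∀ i ≤ w.length, u i = F.obj (letterAt w i) (a.par.orb (letterAt w) x i)) ∨
    (∃ x, ∀ i ≤ w.length, u i = F.obj (letterAt w i) (-(a.par.orb (letterAt w) x i))) := by
  set A := letterAt w with hA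
  have hang := fun i hi => h.exists_angle F hw i hi
  have hnd := fun i hi => (h.nondeg hw i hi).1
  obtain ⟨x0, hx0⟩ := hang 0 (Nat.zero_le _)
  have h0 := h.contact 0 (by omega)
  rw [hx0] at h0
  obtain ⟨y1, hy1, hcase⟩ := F.contact_forward _ _ x0 (hang 1 (by omega)) h0 (hnd 0 (by omega))
  rcases hcase with ⟨e1, -, e3⟩ | ⟨e1, -, e3⟩
  · left
    refine ⟨x0, ?_⟩
    have key : ∀ i, i < w.length → u i = F.obj (A i) (a.par.orb A x0 i) ∧
        u (i + 1) = F.obj (A (i + 1)) (a.par.orb A x0 (i + 1)) ∧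
        F.side (A (i + 1)) (a.par.orb A x0 (i + 1)) (p i) < 0 := by
      intro i
      induction i with
      | zero =>
        intro _
        refine ⟨hx0, ?_, ?_⟩
        · rw [zero_add, hy1, e1]; rfl
        · rw [e1] at e3; exact e3
      | succ i ih =>
        intro hi
        obtain ⟨-, g2, g3⟩ := ih (by omega)
        have hc := h.contact (i + 1) hi
        have hs := h.sep i hi
        have hm1 := (h.contact i (by omega)).mem
        have hm2 := hc.mem
        rw [g2] at hc hs hm1 hm2
        obtain ⟨y, hy, hcase⟩ := F.contact_forward _ _ _ (hang (i + 2) (by omega)) hc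
          (hnd (i + 1) hi)
        have hs' := (F.separated_iff _ _ hm1.2 hm2.1).1 hs
        have hpos : 0 < F.side (A (i + 1)) (a.par.orb A x0 (i + 1)) (p (i + 1)) := by
          by_contra hneg
          have := mul_nonneg_of_nonpos_of_nonpos g3.le (not_lt.mp hneg)
          exact absurd hs' (not_lt.mpr this)
        rcases hcase with ⟨c1, -, c3⟩ | ⟨-, c2, -⟩
        · refine ⟨g2, ?_, ?_⟩
          · rw [hy, c1]; rfl
          · rw [c1] at c3; exact c3
        · exact absurd c2 (not_lt.mpr hpos.le)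
    intro i hi
    rcases Nat.lt_or_ge i w.length with hi' | hi'
    · exact (key i hi').1
    · obtain ⟨j, rfl⟩ : ∃ j, i = j + 1 := ⟨i - 1, by omega⟩
      exact (key j (by omega)).2.1
  · right
    refine ⟨-x0, ?_⟩
    have step : ∀ {k l : Letter} {x y : ℝ}, x = a.par.f l k y → y = -(a.par.f k l (-x)) := by
      intro k l x y hxy
      rw [hxy, a.par.f_neg_f, neg_neg]
    have key : ∀ i, i < w.length → u i = F.obj (A i) (-(a.par.orb A (-x0) i)) ∧
        u (i + 1) = F.obj (A (i + 1)) (-(a.par.orb A (-x0) (i + 1))) ∧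
        0 < F.side (A (i + 1)) (-(a.par.orb A (-x0) (i + 1))) (p i) := by
      intro i
      induction i with
      | zero =>
        intro _
        have e1' : y1 = -(a.par.orb A (-x0) (0 + 1)) := step e1
        refine ⟨?_, ?_, ?_⟩
        · change u 0 = F.obj (A 0) (- -x0)
          rw [neg_neg]; exact hx0
        · rw [← e1']; exact hy1
        · rw [← e1']; exact e3
      | succ i ih =>
        intro hi
        obtain ⟨-, g2, g3⟩ := ih (by omega)
        have hc := h.contact (i + 1) hi
        have hs := h.sep i hi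
        have hm1 := (h.contact i (by omega)).mem
        have hm2 := hc.mem
        rw [g2] at hc hs hm1 hm2
        obtain ⟨y, hy, hcase⟩ := F.contact_forward _ _ _ (hang (i + 2) (by omega)) hc
          (hnd (i + 1) hi)
        have hs' := (F.separated_iff _ _ hm1.2 hm2.1).1 hs
        have hneg : F.side (A (i + 1)) (-(a.par.orb A (-x0) (i + 1))) (p (i + 1)) < 0 := by
          by_contra hneg
          have := mul_nonneg g3.le (not_lt.mp hneg)
          exact absurd hs' (not_lt.mpr this)
        rcases hcase with ⟨-, c2, -⟩ | ⟨c1, -, c3⟩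
        · exact absurd c2 (not_lt.mpr hneg.le)
        · have c1' := step c1
          rw [neg_neg] at c1'
          have c1'' : y = -(a.par.orb A (-x0) (i + 1 + 1)) := c1'
          refine ⟨g2, ?_, ?_⟩
          · rw [← c1'']; exact hy
          · rw [← c1'']; exact c3
    intro i hi
    rcases Nat.lt_or_ge i w.length with hi' | hi'
    · exact (key i hi').1
    · obtain ⟨j, rfl⟩ : ∃ j, i = j + 1 := ⟨i - 1, by omega⟩
      exact (key j (by omega)).2.1

/-- every angle is the start of a chain -/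
theorem exists_wChain {a : Annulus} (F : Frame a) (w : List Letter) (x : ℝ) :
    ∃ p, WChain a w (fun i => F.obj (letterAt w i) (a.par.orb (letterAt w) x i)) p := by
  set A := letterAt w with hA
  choose p hp using fun i => F.contact_exists (A i) (A (i + 1)) (a.par.orb A x i)
  refine ⟨p, ⟨fun i _ => F.obj_isObj _ _, fun i _ => (hp i).1, fun i _ => ?_⟩⟩
  have h1 := (hp i).1.mem.2
  have h2 := (hp (i + 1)).1.mem.1
  exact (F.separated_iff _ _ h1 h2).2 (mul_neg_of_neg_of_pos (hp i).2.2 (hp (i + 1)).2.1)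

theorem WChain.closes_iff {a : Annulus} (F : Frame a) {w : List Letter} {u : ℕ → Set ℂ}
    {x : ℝ} (h : ∀ i ≤ w.length, u i = F.obj (letterAt w i) (a.par.orb (letterAt w) x i)) :
    u w.length = u 0 ↔ ∃ k : ℤ, a.par.orb (letterAt w) x w.length = x + 2 * π * k := by
  rw [h _ le_rfl, h 0 (Nat.zero_le _), letterAt_length, eq_comm, F.obj_eq_iff]
  rfl

theorem WChain.closes_iff' {a : Annulus} (F : Frame a) {w : List Letter} {u : ℕ → Set ℂ}
    {x : ℝ} (h : ∀ i ≤ w.length, u i = F.obj (letterAt w i) (-(a.par.orb (letterAt w) x i))) :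
    u w.length = u 0 ↔ ∃ k : ℤ, a.par.orb (letterAt w) x w.length = x + 2 * π * k := by
  rw [h _ le_rfl, h 0 (Nat.zero_le _), letterAt_length, F.obj_eq_iff]
  change (∃ n : ℤ, -x = -(a.par.orb (letterAt w) x w.length) + 2 * π * n) ↔ _
  constructor
  · rintro ⟨n, hn⟩; exact ⟨n, by linarith⟩
  · rintro ⟨n, hn⟩; exact ⟨n, by linarith⟩

/-- an annulus with given parameters -/
noncomputable def Par.annulus (p : Par) : Annulus where
  o := 0
  r := p.r
  O := (p.d : ℂ)
  R := p.R
  r_pos := p.hr
  inside := by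
    rw [dist_zero_left, Complex.norm_real, Real.norm_eq_abs, abs_of_nonneg p.hd]
    exact p.hR

theorem Par.annulus_par (p : Par) : p.annulus.par = p := by
  obtain ⟨r, R, d, hr, hd, hR⟩ := p
  simp only [Annulus.par, Par.annulus, dist_zero_left, Complex.norm_real, Real.norm_eq_abs,
    abs_of_nonneg hd]

theorem isClosureSeq_iff (w : List Letter) (hw : 2 ≤ w.length) :
    IsClosureSeq w ↔
      (∀ p : Par, (∃ (x : ℝ) (k : ℤ), p.orb (letterAt w) x w.length = x + 2 * π * k) →
        ∀ x : ℝ, ∃ k : ℤ, p.orb (letterAt w) x w.length = x + 2 * π * k) ∧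
      ∃ (p : Par) (x : ℝ) (k : ℤ), p.orb (letterAt w) x w.length = x + 2 * π * k := by
  constructor
  · rintro ⟨-, h1, a, u, q, h2, h3⟩
    refine ⟨?_, ?_⟩
    · intro p hx x
      obtain ⟨F⟩ := Frame.exists_frame p.annulus
      obtain ⟨x0, k, hk⟩ := hx
      rw [← p.annulus_par] at hk ⊢
      obtain ⟨q0, hq0⟩ := exists_wChain F w x0
      obtain ⟨q1, hq1⟩ := exists_wChain F w x
      have h4 := h1 p.annulus ⟨_, q0, hq0,
        (WChain.closes_iff F (fun i _ => rfl)).2 ⟨k, hk⟩⟩ _ q1 hq1
      exact (WChain.closes_iff F (fun i _ => rfl)).1 h4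
    · obtain ⟨F⟩ := Frame.exists_frame a
      rcases h2.angles F hw with ⟨x, hx⟩ | ⟨x, hx⟩
      · exact ⟨a.par, x, (WChain.closes_iff F hx).1 h3⟩
      · exact ⟨a.par, x, (WChain.closes_iff' F hx).1 h3⟩
  · rintro ⟨h1, p, x, k, hk⟩
    refine ⟨?_, ?_, ?_⟩
    · rintro rfl; simp at hw
    · rintro a ⟨u0, q0, h2, h3⟩ u q h4
      obtain ⟨F⟩ := Frame.exists_frame a
      have h5 : ∃ (x : ℝ) (k : ℤ), a.par.orb (letterAt w) x w.length = x + 2 * π * k := by
        rcases h2.angles F hw with ⟨x, hx⟩ | ⟨x, hx⟩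
        · exact ⟨x, (WChain.closes_iff F hx).1 h3⟩
        · exact ⟨x, (WChain.closes_iff' F hx).1 h3⟩
      have h6 := h1 a.par h5
      rcases h4.angles F hw with ⟨x, hx⟩ | ⟨x, hx⟩
      · exact (WChain.closes_iff F hx).2 (h6 x)
      · exact (WChain.closes_iff' F hx).2 (h6 x)
    · obtain ⟨F⟩ := Frame.exists_frame p.annulus
      rw [← p.annulus_par] at hk
      obtain ⟨q0, hq0⟩ := exists_wChain F w x
      exact ⟨p.annulus, _, q0, hq0, (WChain.closes_iff F (fun i _ => rfl)).2 ⟨k, hk⟩⟩

theorem IsObj.ne_singleton {a : Annulus} {k : Letter} {S : Set ℂ} (h : a.IsObj k S) (p : ℂ) :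
    S ≠ {p} := by
  rintro rfl
  cases k
  · obtain ⟨z, ρ, hρ, hS, -⟩ := h
    have h1 : z + ρ ∈ Metric.sphere z ρ := by
      rw [mem_sphere_iff_norm]; simp [abs_of_pos hρ]
    have h2 : z - ρ ∈ Metric.sphere z ρ := by
      rw [mem_sphere_iff_norm]; simp [abs_of_pos hρ]
    rw [← hS] at h1 h2
    have h3 : z + (ρ : ℂ) = z - ρ := by
      rw [Set.mem_singleton_iff.mp h1, Set.mem_singleton_iff.mp h2]
    have h4 : (ρ : ℂ) = 0 := by linear_combination h3 / 2
    exact hρ.ne' (by exact_mod_cast h4)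
  · obtain ⟨x, y, -, -, hxy, hS, -⟩ := h
    have h1 := left_mem_segment ℝ x y
    have h2 := right_mem_segment ℝ x y
    rw [← hS] at h1 h2
    apply hxy
    rw [Set.mem_singleton_iff.mp h1, Set.mem_singleton_iff.mp h2]

theorem two_le_length_of_isClosureSeq {w : List Letter} (hw : IsClosureSeq w) :
    2 ≤ w.length := by
  obtain ⟨h1, -, a, u, p, h2, h3⟩ := hw
  by_contra hlt
  have h4 : w.length ≠ 0 := by simpa using h1
  have h5 : w.length = 1 := by omega
  have h6 := (h2.contact 0 (by omega)).1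
  rw [h5] at h3
  rw [zero_add, h3, Set.inter_self] at h6
  exact IsObj.ne_singleton (h2.obj 0 (Nat.zero_le _)) _ h6

end Pool.Agent.Work.MP_68e044_gt
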