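import Pool.Agent.Work.MP_68e044_gt.Orbit

set_option autoImplicit false

/-!
# Words with an even gap

If the cyclic word contains an `s`, and two consecutive `c` are separated by an even number of
`s`, then the rotation defect takes both signs in one annulus near the degenerate one.
-/

namespace Pool.Agent.Work.MP_68e044_gt

open Real Filter Topology Set

namespace NA

/-! ### The scaled coefficients -/

noncomputable def N' (κ r x : ℝ) : ℝ := 2 - κ - κ * r ^ 2 + 2 * (1 - κ) * r * cos x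
noncomputable def Q' (κ r x : ℝ) : ℝ := 1 + κ * r - (1 - κ) * cos x
noncomputable def P' (κ r x : ℝ) : ℝ := 1 - κ * r + (1 - κ) * cos x
noncomputable def W' (κ r : ℝ) : ℝ := (1 + r) * (2 - κ + r * κ)

noncomputable def D' : Letter → Letter → ℝ → ℝ → ℝ → ℝ
  | .c, .c, κ, r, x => √(4 * r * W' κ r) + 2 * ((1 - κ) * r * sin x)
  | .c, .s, κ, r, x => √(2 * r * Q' κ r x * N' κ r x)
  | .s, .c, κ, r, x => √(2 * r * W' κ r * P' κ r x) + 2 * ((1 - κ) * r * sin x)
  | .s, .s, κ, r, x => r * √(P' κ r x * Q' κ r x) + (1 - κ) * r * sin x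

/-- the step map, defined also for `κ = 0` -/
noncomputable def G (k l : Letter) (κ r x : ℝ) : ℝ := x + π - 2 * arctan (D' k l κ r x / N' κ r x)

/-- the annulus with `R = 1/κ`, `R - d = 1` -/
noncomputable def par (κ r : ℝ) : Par :=
  if h : 0 < κ ∧ κ ≤ 1 ∧ 0 < r ∧ r < 1 then
    { r := r
      R := 1 / κ
      d := 1 / κ - 1
      hr := h.2.2.1
      hd := by
        have := (one_le_div h.1).mpr h.2.1
        linarith
      hR := by linarith [h.2.2.2] }
  else
    { r := 1
      R := 2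
      d := 0
      hr := one_pos
      hd := le_rfl
      hR := by norm_num }

lemma par_f {κ r : ℝ} (h : 0 < κ ∧ κ ≤ 1 ∧ 0 < r ∧ r < 1) (k l : Letter) (x : ℝ) :
    (par κ r).f k l x = G k l κ r x := by
  have hκ : 0 < κ := h.1
  have hr' : (par κ r).r = r := by simp only [par, dif_pos h]
  have hR' : (par κ r).R = 1 / κ := by simp only [par, dif_pos h]
  have hd' : (par κ r).d = 1 / κ - 1 := by simp only [par, dif_pos h]
  have hN : (par κ r).N x = N' κ r x / κ := by
    simp only [Par.N, hr', hR', hd', N']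
    field_simp
    ring
  have hQ : (par κ r).Q x = Q' κ r x / κ := by
    simp only [Par.Q, hr', hR', hd', Q']
    field_simp
  have hP : (par κ r).P x = P' κ r x / κ := by
    simp only [Par.P, hr', hR', hd', P']
    field_simp
  have hW : (par κ r).W = W' κ r / κ := by
    simp only [Par.W, hr', hR', hd', W']
    field_simp
    ring
  have hsq : ∀ y : ℝ, √(y / κ ^ 2) = √y / κ := by
    intro y
    rw [Real.sqrt_div' _ (by positivity), Real.sqrt_sq hκ.le]
  have hD : (par κ r).D k l x = D' k l κ r x / κ := by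
    cases k <;> cases l
    · simp only [Par.D, Par.S, Par.m, D', hr', hR', hd', hW]
      rw [show 4 * r * (1 / κ) * (W' κ r / κ) = (4 * r * W' κ r) / κ ^ 2 by field_simp, hsq]
      field_simp
    · simp only [Par.D, Par.S, Par.m, D', hr', hN, hQ]
      rw [show 2 * r * (Q' κ r x / κ) * (N' κ r x / κ) = (2 * r * Q' κ r x * N' κ r x) / κ ^ 2 by
        field_simp, hsq]
      ring
    · simp only [Par.D, Par.S, Par.m, D', hr', hd', hW, hP]
      rw [show 2 * r * (W' κ r / κ) * (P' κ r x / κ) = (2 * r * W' κ r * P' κ r x) / κ ^ 2 by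
        field_simp, hsq]
      field_simp
    · simp only [Par.D, Par.S, Par.m, D', hr', hd', hP, hQ]
      rw [show (P' κ r x / κ) * (Q' κ r x / κ) = (P' κ r x * Q' κ r x) / κ ^ 2 by
        field_simp, hsq]
      field_simp
  simp only [Par.f, G]
  rw [hD, hN, div_div_div_cancel_right₀ hκ.ne']

/-! ### Continuity -/

lemma continuous_N' : Continuous (fun t : ℝ × ℝ × ℝ => N' t.1 t.2.1 t.2.2) := by
  unfold N'
  fun_prop

lemma continuous_D' (k l : Letter) :
    Continuous (fun t : ℝ × ℝ × ℝ => D' k l t.1 t.2.1 t.2.2) := by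
  cases k <;> cases l <;> simp only [D', Q', P', W', N'] <;> fun_prop

lemma continuousAt_G (k l : Letter) (κ r x : ℝ) (h : N' κ r x ≠ 0) :
    ContinuousAt (fun t : ℝ × ℝ × ℝ => G k l t.1 t.2.1 t.2.2) (κ, r, x) := by
  have h1 : ContinuousAt (fun t : ℝ × ℝ × ℝ => D' k l t.1 t.2.1 t.2.2 / N' t.1 t.2.1 t.2.2)
      (κ, r, x) := (continuous_D' k l).continuousAt.div continuous_N'.continuousAt h
  have h2 := Real.continuous_arctan.continuousAt.comp h1
  have h3 : ContinuousAt (fun t : ℝ × ℝ × ℝ => t.2.2 + π) (κ, r, x) := by fun_prop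
  exact h3.sub (h2.const_mul 2)

lemma N'_zero (r x : ℝ) : N' 0 r x = 2 * (1 + r * cos x) := by
  simp only [N']
  ring

lemma one_add_pos {r : ℝ} (hr : 0 < r) (hr1 : r < 1) (x : ℝ) : 0 < 1 + r * cos x := by
  have := Real.neg_one_le_cos x
  nlinarith

lemma tendsto_κ (k l : Letter) {r : ℝ} (hr : 0 < r) (hr1 : r < 1) (x : ℝ) :
    Tendsto (fun κ => G k l κ r x) (𝓝[>] 0) (𝓝 (G k l 0 r x)) := by
  have h1 : N' 0 r x ≠ 0 := by
    rw [N'_zero]
    have := one_add_pos hr hr1 x
    positivity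
  have h2 : ContinuousAt (fun κ : ℝ => (κ, r, x)) 0 := by fun_prop
  have h3 : ContinuousAt (fun κ : ℝ => G k l κ r x) 0 :=
    ContinuousAt.comp (g := fun t : ℝ × ℝ × ℝ => G k l t.1 t.2.1 t.2.2)
      (f := fun κ : ℝ => (κ, r, x)) (continuousAt_G k l 0 r x h1) h2
  exact h3.tendsto.mono_left nhdsWithin_le_nhds

lemma tendsto_r (k l : Letter) {x : ℝ} (hx : 0 < 1 + cos x) :
    Tendsto (fun r => G k l 0 r x) (𝓝[<] 1) (𝓝 (G k l 0 1 x)) := by
  have h1 : N' 0 1 x ≠ 0 := by
    rw [N'_zero, one_mul]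
    positivity
  have h2 : ContinuousAt (fun r : ℝ => ((0 : ℝ), r, x)) 1 := by fun_prop
  have h3 : ContinuousAt (fun r : ℝ => G k l 0 r x) 1 :=
    ContinuousAt.comp (g := fun t : ℝ × ℝ × ℝ => G k l t.1 t.2.1 t.2.2)
      (f := fun r : ℝ => ((0 : ℝ), r, x)) (continuousAt_G k l 0 1 x h1) h2
  exact h3.tendsto.mono_left nhdsWithin_le_nhds

/-! ### The limit maps -/

lemma half {x : ℝ} (h0 : 0 < x) (h1 : x < π) : 0 < sin (x / 2) ∧ 0 < cos (x / 2) ∧
    cos x = 2 * cos (x / 2) ^ 2 - 1 ∧ sin x = 2 * sin (x / 2) * cos (x / 2) ∧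
    sin (x / 2) ^ 2 + cos (x / 2) ^ 2 = 1 ∧
    arctan (sin (x / 2) / cos (x / 2)) = x / 2 := by
  refine ⟨Real.sin_pos_of_pos_of_lt_pi (by linarith) (by linarith),
    Real.cos_pos_of_mem_Ioo ⟨by linarith, by linarith⟩, ?_, ?_, Real.sin_sq_add_cos_sq _, ?_⟩
  · rw [← Real.cos_two_mul]
    congr 1
    ring
  · rw [← Real.sin_two_mul]
    congr 1
    ring
  · rw [← Real.tan_eq_sin_div_cos, Real.arctan_tan (by linarith) (by linarith)]

lemma sqrt_lemma {u v : ℝ} (hu : 0 ≤ u) (h : v = u ^ 2) : √v = u := by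
  rw [h, Real.sqrt_sq hu]

lemma lim_ss {r x : ℝ} (hr : 0 < r) (hr1 : r < 1) (h0 : 0 < x) (h1 : x < π) :
    π < G .s .s 0 r x := by
  obtain ⟨hs, hc, e1, e2, e3, e4⟩ := half h0 h1
  set s := sin (x / 2)
  set c := cos (x / 2)
  have hN := one_add_pos hr hr1 x
  have hD : D' .s .s 0 r x = 4 * r * s * c := by
    simp only [D', P', Q']
    rw [sqrt_lemma (u := 2 * s * c) (by positivity), e2]
    · ring
    · rw [e1]
      nlinarith
  have hlt : D' .s .s 0 r x / N' 0 r x < s / c := by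
    rw [hD, N'_zero, div_lt_div_iff₀ (by positivity) hc, e1]
    have : r * c ^ 2 * 2 < 1 + r * (2 * c ^ 2 - 1) := by nlinarith
    nlinarith [mul_pos hs hc]
  have := Real.arctan_strictMono hlt
  rw [e4] at this
  simp only [G]
  linarith

lemma lim_cs {r x : ℝ} (hr : 0 < r) (hr1 : r < 1) (h0 : 0 < x) (h1 : x < π) :
    π < G .c .s 0 r x := by
  obtain ⟨hs, hc, e1, e2, e3, e4⟩ := half h0 h1
  set s := sin (x / 2)
  set c := cos (x / 2)
  have hN := one_add_pos hr hr1 x
  have hN' : 0 < N' 0 r x := by rw [N'_zero]; positivity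
  have hlt : D' .c .s 0 r x / N' 0 r x < s / c := by
    rw [div_lt_iff₀ hN']
    simp only [D']
    rw [Real.sqrt_lt' (by positivity)]
    have hQ : Q' 0 r x = 2 * s ^ 2 := by
      simp only [Q']
      rw [e1]
      nlinarith
    rw [hQ, mul_pow, div_pow, div_mul_eq_mul_div, lt_div_iff₀ (by positivity)]
    have h2 : 4 * r * c ^ 2 < N' 0 r x := by
      rw [N'_zero, e1]
      nlinarith
    have h3 : 0 < s ^ 2 * N' 0 r x := by positivity
    nlinarith
  have := Real.arctan_strictMono hlt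
  rw [e4] at this
  simp only [G]
  linarith

lemma lim_ss' {r x : ℝ} (h0 : 0 < x) (h1 : x < π) :
    0 < G .s .s 0 r (x - π) := by
  obtain ⟨hs, hc, e1, e2, e3, e4⟩ := half h0 h1
  set s := sin (x / 2)
  set c := cos (x / 2)
  have f1 : cos (x - π) = -cos x := Real.cos_sub_pi x
  have f2 : sin (x - π) = -sin x := Real.sin_sub_pi x
  have hD : D' .s .s 0 r (x - π) = 0 := by
    simp only [D', P', Q']
    rw [f1, f2, sqrt_lemma (u := 2 * s * c) (by positivity), e2]
    · ring
    · rw [e1]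
      nlinarith
  simp only [G]
  rw [hD, zero_div, Real.arctan_zero]
  linarith

lemma sqrt_bound {r : ℝ} (hr : 0 < r) (hr1 : r < 1) : √(2 * r * (1 + r)) < 1 + r := by
  rw [Real.sqrt_lt' (by linarith)]
  nlinarith

lemma lim_sc' {r x : ℝ} (hr : 0 < r) (hr1 : r < 1) (h0 : 0 < x) (h1 : x < π) :
    0 < G .s .c 0 r (x - π) := by
  obtain ⟨hs, hc, e1, e2, e3, e4⟩ := half h0 h1
  have hc1 : cos (x / 2) ≤ 1 := Real.cos_le_one _
  set s := sin (x / 2)
  set c := cos (x / 2)
  have f1 : cos (x - π) = -cos x := Real.cos_sub_pi x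
  have f2 : sin (x - π) = -sin x := Real.sin_sub_pi x
  have hN := one_add_pos hr hr1 (x - π)
  have hb := sqrt_bound hr hr1
  have hb0 : 0 ≤ √(2 * r * (1 + r)) := Real.sqrt_nonneg _
  have hbs : √(2 * r * (1 + r)) ^ 2 = 2 * r * (1 + r) := Real.sq_sqrt (by positivity)
  have hD : D' .s .c 0 r (x - π) = 2 * s * √(2 * r * (1 + r)) - 4 * r * s * c := by
    simp only [D', P', W']
    rw [f1, f2, sqrt_lemma (u := 2 * s * √(2 * r * (1 + r))) (by positivity), e2]
    · ring
    · rw [mul_pow, hbs, e1]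
      have : s ^ 2 = 1 - c ^ 2 := by linarith
      rw [mul_pow, this]
      ring
  have hlt : D' .s .c 0 r (x - π) / N' 0 r (x - π) < s / c := by
    rw [hD, N'_zero, div_lt_div_iff₀ (by positivity) hc, f1, e1]
    have h2 : c * √(2 * r * (1 + r)) < 1 + r := by
      calc c * √(2 * r * (1 + r)) ≤ 1 * √(2 * r * (1 + r)) :=
            mul_le_mul_of_nonneg_right hc1 hb0
        _ < 1 + r := by linarith
    have h3 := mul_lt_mul_of_pos_left h2 hs
    nlinarith
  have := Real.arctan_strictMono hlt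
  rw [e4] at this
  simp only [G]
  linarith

lemma lim_zero (k : Letter) {r : ℝ} (hr : 0 < r) (hr1 : r < 1) : 1 < G k .c 0 r 0 := by
  have hD : D' k .c 0 r 0 = √(8 * r * (1 + r)) := by
    cases k
    · simp only [D', W', Real.sin_zero, mul_zero, add_zero]
      congr 1
      ring
    · simp only [D', W', P', Real.sin_zero, Real.cos_zero, mul_zero, add_zero]
      congr 1
      ring
  have hlt : D' k .c 0 r 0 / N' 0 r 0 < 1 := by
    rw [hD, N'_zero, Real.cos_zero, mul_one, div_lt_one (by positivity),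
      Real.sqrt_lt' (by positivity)]
    nlinarith
  have := Real.arctan_strictMono hlt
  rw [Real.arctan_one] at this
  simp only [G]
  linarith [Real.pi_gt_three]

lemma lim_one_s (k : Letter) {x : ℝ} (h0 : 0 < x) (h1 : x < π) : G k .s 0 1 x = π := by
  obtain ⟨hs, hc, e1, e2, e3, e4⟩ := half h0 h1
  set s := sin (x / 2)
  set c := cos (x / 2)
  have hN : N' 0 1 x = 4 * c ^ 2 := by
    rw [N'_zero, e1]
    ring
  have hD : D' k .s 0 1 x = 4 * s * c := by
    cases k
    · simp only [D']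
      rw [hN]
      apply sqrt_lemma (by positivity)
      simp only [Q']
      rw [e1]
      have : s ^ 2 = 1 - c ^ 2 := by linarith
      rw [mul_pow, mul_pow, this]
      ring
    · simp only [D', P', Q']
      rw [sqrt_lemma (u := 2 * s * c) (by positivity), e2]
      · ring
      · rw [e1]
        nlinarith
  have hdiv : D' k .s 0 1 x / N' 0 1 x = s / c := by
    rw [hD, hN]
    field_simp
  simp only [G]
  rw [hdiv, e4]
  ring

lemma lim_one_c (k : Letter) {x : ℝ} (h0 : 0 < x) (h1 : x < π) : G k .c 0 1 x < π := by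
  obtain ⟨hs, hc, e1, e2, e3, e4⟩ := half h0 h1
  set s := sin (x / 2)
  set c := cos (x / 2)
  have hN : N' 0 1 x = 4 * c ^ 2 := by
    rw [N'_zero, e1]
    ring
  have hlt : s / c < D' k .c 0 1 x / N' 0 1 x := by
    cases k
    · have hD : D' .c .c 0 1 x = 4 + 4 * s * c := by
        simp only [D', W']
        rw [sqrt_lemma (u := 4) (by norm_num) (by norm_num), e2]
        ring
      rw [hD, hN, div_lt_div_iff₀ hc (by positivity)]
      nlinarith
    · have hD : D' .s .c 0 1 x = 4 * c + 4 * s * c := by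
        simp only [D', W', P']
        rw [sqrt_lemma (u := 4 * c) (by positivity), e2]
        · ring
        · rw [e1]
          ring
      rw [hD, hN, div_lt_div_iff₀ hc (by positivity)]
      have : 0 < c ^ 2 := by positivity
      nlinarith
  have := Real.arctan_strictMono hlt
  rw [e4] at this
  simp only [G]
  linarith

/-! ### The counter -/

/-- the number of half turns -/
def bb (a : ℕ → Letter) : ℕ → ℕ
  | 0 => 0
  | i + 1 => if Even (bb a i) ∧ a (i + 1) = .c then bb a i else bb a i + 1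

lemma bb_succ (a : ℕ → Letter) (i : ℕ) :
    bb a (i + 1) = if Even (bb a i) ∧ a (i + 1) = .c then bb a i else bb a i + 1 := rfl

lemma bb_even_of_c {a : ℕ → Letter} {i : ℕ} (h : a i = .c) : Even (bb a i) := by
  cases i with
  | zero => exact ⟨0, rfl⟩
  | succ i =>
    rw [bb_succ]
    by_cases he : Even (bb a i)
    · rw [if_pos ⟨he, h⟩]; exact he
    · rw [if_neg (fun h => he h.1)]
      exact (Nat.not_even_iff_odd.mp he).add_one

lemma bb_s {a : ℕ → Letter} {i : ℕ} (h : a (i + 1) = .s) : bb a (i + 1) = bb a i + 1 := by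
  rw [bb_succ, if_neg]
  rintro ⟨-, h2⟩
  rw [h] at h2
  cases h2

lemma bb_odd {a : ℕ → Letter} {i : ℕ} (h : ¬ Even (bb a i)) : bb a (i + 1) = bb a i + 1 := by
  rw [bb_succ, if_neg (fun h' => h h'.1)]

lemma bb_gain {a : ℕ → Letter} {i : ℕ} (h : Even (bb a i)) (h' : a (i + 1) = .c) :
    bb a (i + 1) = bb a i := by
  rw [bb_succ, if_pos ⟨h, h'⟩]

lemma bb_add {a : ℕ → Letter} {i : ℕ} (h : Even (bb a i)) (j : ℕ) :
    bb a (i + j) = bb a i + bb (fun t => a (i + t)) j := by
  induction j with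
  | zero => rfl
  | succ j ih =>
    have h1 : Even (bb a (i + j)) ↔ Even (bb (fun t => a (i + t)) j) := by
      rw [ih, Nat.even_add]
      tauto
    rw [← Nat.add_assoc, bb_succ, bb_succ]
    by_cases h2 : Even (bb (fun t => a (i + t)) j) ∧ a (i + j + 1) = .c
    · rw [if_pos ⟨h1.mpr h2.1, h2.2⟩, if_pos ⟨h2.1, h2.2⟩, ih]
    · rw [if_neg (fun h3 => h2 ⟨h1.mp h3.1, h3.2⟩), if_neg (fun h3 => h2 ⟨h3.1, h3.2⟩), ih]
      ring

/-! ### Estimates of orbits -/

lemma f_even (p : Par) (k l : Letter) {b : ℕ} (hb : Even b) (y : ℝ) :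
    p.f k l (π * b + y) = π * b + p.f k l y := by
  obtain ⟨c, rfl⟩ := hb
  have h := p.orb_add_int (fun i => if i = 0 then k else l) 1 y c
  simp only [Par.orb] at h
  simp only [if_true, Nat.zero_add, Nat.one_ne_zero, if_false] at h
  push_cast
  rw [show π * ((c : ℝ) + c) + y = y + 2 * π * ((c : ℤ) : ℝ) by push_cast; ring, h]
  push_cast
  ring

lemma ev_range (r : ℝ) (hr : 0 < r) (hr1 : r < 1) :
    ∀ᶠ κ in 𝓝[>] (0 : ℝ), 0 < κ ∧ κ ≤ 1 ∧ 0 < r ∧ r < 1 := by
  have h1 : ∀ᶠ κ in 𝓝[>] (0 : ℝ), 0 < κ := self_mem_nhdsWithin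
  have h2 : ∀ᶠ κ in 𝓝[>] (0 : ℝ), κ < 1 :=
    (gt_mem_nhds one_pos).filter_mono nhdsWithin_le_nhds
  filter_upwards [h1, h2] with κ h1 h2
  exact ⟨h1, h2.le, hr, hr1⟩

lemma lower (a : ℕ → Letter) {r : ℝ} (hr : 0 < r) (hr1 : r < 1) (i : ℕ) :
    ∃ χ : ℝ, 0 < χ ∧ χ < π ∧ ∀ᶠ κ in 𝓝[>] (0 : ℝ),
      π * bb a i + χ ≤ (par κ r).orb a 1 i := by
  induction i with
  | zero =>
    refine ⟨1, one_pos, by linarith [Real.pi_gt_three], Eventually.of_forall fun κ => ?_⟩
    simp [bb, Par.orb]
  | succ i ih =>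
    obtain ⟨χ, h0, h1, hev⟩ := ih
    by_cases he : Even (bb a i)
    · cases hl : a (i + 1)
      · -- gain
        refine ⟨χ, h0, h1, ?_⟩
        rw [bb_gain he hl]
        filter_upwards [hev] with κ hκ
        simp only [Par.orb]
        exact hκ.trans (Par.lt_f _ _ _ _).le
      · have hL : π < G (a i) .s 0 r χ := by
          cases a i
          · exact lim_cs hr hr1 h0 h1
          · exact lim_ss hr hr1 h0 h1
        set L := G (a i) .s 0 r χ with hLdef
        obtain ⟨χ', g1, g2, g3⟩ : ∃ χ', 0 < χ' ∧ χ' < π ∧ π + χ' < L :=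
          ⟨min ((L - π) / 2) 1, lt_min (by linarith) one_pos,
            (min_le_right _ _).trans_lt (by linarith [Real.pi_gt_three]), by
            have := min_le_left ((L - π) / 2) 1
            linarith⟩
        refine ⟨χ', g1, g2, ?_⟩
        rw [bb_s hl]
        have e1 : ∀ᶠ κ in 𝓝[>] (0 : ℝ), π + χ' < G (a i) .s κ r χ :=
          (tendsto_κ (a i) .s hr hr1 χ).eventually (lt_mem_nhds g3)
        filter_upwards [hev, e1, ev_range r hr hr1] with κ hκ h2 h3
        simp only [Par.orb]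
        rw [hl]
        have h4 := (Par.f_strictMono (par κ r) (a i) .s).monotone hκ
        rw [f_even _ _ _ he, par_f h3] at h4
        push_cast
        linarith
    · have hai : a i = .s := by
        cases h : a i
        · exact absurd (bb_even_of_c h) he
        · rfl
      have hb : Even (bb a i + 1) := (Nat.not_even_iff_odd.mp he).add_one
      have hL : 0 < G .s (a (i + 1)) 0 r (χ - π) := by
        cases a (i + 1)
        · exact lim_sc' hr hr1 h0 h1
        · exact lim_ss' h0 h1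
      set L := G .s (a (i + 1)) 0 r (χ - π) with hLdef
      obtain ⟨χ', g1, g2, g3⟩ : ∃ χ', 0 < χ' ∧ χ' < π ∧ χ' < L :=
        ⟨min (L / 2) 1, lt_min (by linarith) one_pos,
          (min_le_right _ _).trans_lt (by linarith [Real.pi_gt_three]), by
          have := min_le_left (L / 2) 1
          linarith⟩
      refine ⟨χ', g1, g2, ?_⟩
      rw [bb_odd he]
      have e1 : ∀ᶠ κ in 𝓝[>] (0 : ℝ), χ' < G .s (a (i + 1)) κ r (χ - π) :=
        (tendsto_κ .s (a (i + 1)) hr hr1 (χ - π)).eventually (lt_mem_nhds g3)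
      filter_upwards [hev, e1, ev_range r hr hr1] with κ hκ h2 h3
      simp only [Par.orb]
      have h4 := (Par.f_strictMono (par κ r) (a i) (a (i + 1))).monotone hκ
      rw [show π * (bb a i : ℝ) + χ = π * ((bb a i + 1 : ℕ) : ℝ) + (χ - π) by push_cast; ring,
        f_even _ _ _ hb, par_f h3, hai] at h4
      rw [hai]
      linarith

lemma lower_final (a : ℕ → Letter) {r : ℝ} (hr : 0 < r) (hr1 : r < 1) {k : ℕ}
    (he : Even (bb a k)) (hc : a (k + 1) = .c) :
    ∀ᶠ κ in 𝓝[>] (0 : ℝ), π * bb a (k + 1) + 1 < (par κ r).orb a 1 (k + 1) := by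
  obtain ⟨χ, h0, h1, hev⟩ := lower a hr hr1 k
  have e1 : ∀ᶠ κ in 𝓝[>] (0 : ℝ), 1 < G (a k) .c κ r 0 :=
    (tendsto_κ (a k) .c hr hr1 0).eventually (lt_mem_nhds (lim_zero (a k) hr hr1))
  filter_upwards [hev, e1, ev_range r hr hr1] with κ hκ h2 h3
  simp only [Par.orb]
  rw [hc, bb_gain he hc]
  have h4 := Par.f_strictMono (par κ r) (a k) .c
    (show π * (bb a k : ℝ) + 0 < (par κ r).orb a 1 k by linarith)
  rw [f_even _ _ _ he, par_f h3] at h4
  linarith

lemma ev_two {x B : ℝ} (k l : Letter) (h0 : 0 < x) (h1 : x < π) (hB : G k l 0 1 x < B) :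
    ∀ᶠ r in 𝓝[<] (1 : ℝ), ∀ᶠ κ in 𝓝[>] (0 : ℝ), (par κ r).f k l x < B := by
  have hx : 0 < 1 + cos x := by
    obtain ⟨hs, hc, e1, -⟩ := half h0 h1
    rw [e1]
    have : 0 < cos (x / 2) ^ 2 := by positivity
    linarith
  have e1 : ∀ᶠ r in 𝓝[<] (1 : ℝ), G k l 0 r x < B :=
    (tendsto_r k l hx).eventually (gt_mem_nhds hB)
  have e2 : ∀ᶠ r in 𝓝[<] (1 : ℝ), r < 1 := self_mem_nhdsWithin
  have e3 : ∀ᶠ r in 𝓝[<] (1 : ℝ), 0 < r :=
    (lt_mem_nhds one_pos).filter_mono nhdsWithin_le_nhds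
  filter_upwards [e1, e2, e3] with r g1 g2 g3
  have e4 : ∀ᶠ κ in 𝓝[>] (0 : ℝ), G k l κ r x < B :=
    (tendsto_κ k l g3 g2 x).eventually (gt_mem_nhds g1)
  filter_upwards [e4, ev_range r g3 g2] with κ g4 g5
  rw [par_f g5]
  exact g4

lemma upper (a : ℕ → Letter) (i : ℕ) :
    (Even (bb a i) → ∃ η : ℝ, 0 < η ∧ η < π ∧ ∀ᶠ r in 𝓝[<] (1 : ℝ), ∀ᶠ κ in 𝓝[>] (0 : ℝ),
      (par κ r).orb a 1 i ≤ π * bb a i + (π - η)) ∧
    (¬ Even (bb a i) → ∀ ε : ℝ, 0 < ε → ∀ᶠ r in 𝓝[<] (1 : ℝ), ∀ᶠ κ in 𝓝[>] (0 : ℝ),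
      (par κ r).orb a 1 i ≤ π * bb a i + ε) := by
  induction i with
  | zero =>
    constructor
    · intro _
      refine ⟨π - 1, by linarith [Real.pi_gt_three], by linarith,
        Eventually.of_forall fun r => Eventually.of_forall fun κ => ?_⟩
      simp [bb, Par.orb]
    · intro h
      exact absurd ⟨0, rfl⟩ h
  | succ i ih =>
    by_cases he : Even (bb a i)
    · obtain ⟨η, h0, h1, hev⟩ := ih.1 he
      cases hl : a (i + 1)
      · rw [bb_gain he hl]
        refine ⟨fun _ => ?_, fun h => absurd he h⟩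
        have hL := lim_one_c (a i) (x := π - η) (by linarith) (by linarith)
        set L := G (a i) .c 0 1 (π - η) with hLdef
        obtain ⟨η', g1, g2, g3⟩ : ∃ η', 0 < η' ∧ η' < π ∧ L < π - η' :=
          ⟨min ((π - L) / 2) 1, lt_min (by linarith) one_pos,
            (min_le_right _ _).trans_lt (by linarith [Real.pi_gt_three]), by
            have := min_le_left ((π - L) / 2) 1
            linarith⟩
        refine ⟨η', g1, g2, ?_⟩
        filter_upwards [hev, ev_two (a i) .c (by linarith) (by linarith) g3] with r k1 k2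
        filter_upwards [k1, k2] with κ k3 k4
        simp only [Par.orb]
        rw [hl]
        have h4 := (Par.f_strictMono (par κ r) (a i) .c).monotone k3
        rw [f_even _ _ _ he] at h4
        linarith
      · rw [bb_s hl]
        refine ⟨fun h => absurd he (by
          have := Nat.even_add_one.mp h
          exact this), fun _ ε hε => ?_⟩
        have hL := lim_one_s (a i) (x := π - η) (by linarith) (by linarith)
        have g3 : G (a i) .s 0 1 (π - η) < π + ε := by rw [hL]; linarith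
        filter_upwards [hev, ev_two (a i) .s (by linarith) (by linarith) g3] with r k1 k2
        filter_upwards [k1, k2] with κ k3 k4
        simp only [Par.orb]
        rw [hl]
        have h4 := (Par.f_strictMono (par κ r) (a i) .s).monotone k3
        rw [f_even _ _ _ he] at h4
        push_cast
        linarith
    · rw [bb_odd he]
      have hb : Even (bb a i + 1) := (Nat.not_even_iff_odd.mp he).add_one
      refine ⟨fun _ => ?_, fun h => absurd hb h⟩
      refine ⟨π - 1, by linarith [Real.pi_gt_three], by linarith, ?_⟩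
      filter_upwards [ih.2 he 1 one_pos] with r k1
      filter_upwards [k1] with κ k3
      simp only [Par.orb]
      have h4 := Par.f_lt (par κ r) (a i) (a (i + 1)) ((par κ r).orb a 1 i)
      push_cast
      linarith

lemma upper_final (a : ℕ → Letter) {k : ℕ} (ho : ¬ Even (bb a k)) :
    ∀ᶠ r in 𝓝[<] (1 : ℝ), ∀ᶠ κ in 𝓝[>] (0 : ℝ),
      (par κ r).orb a 1 (k + 1) < π * bb a (k + 1) + 1 := by
  rw [bb_odd ho]
  filter_upwards [(upper a k).2 ho (1 / 2) (by norm_num)] with r k1
  filter_upwards [k1] with κ k3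
  simp only [Par.orb]
  have h4 := Par.f_lt (par κ r) (a k) (a (k + 1)) ((par κ r).orb a 1 k)
  push_cast
  linarith

end NA

open NA in
theorem nonAlt_signs {a : ℕ → Letter} {n : ℕ} (hn : 0 < n) (ha : ∀ i, a (i + n) = a i)
    (hs : ∃ i, a i = .s)
    (hgap : ∃ i g : ℕ, a i = .c ∧ a (i + 2 * g + 1) = .c ∧
      ∀ j, i < j → j < i + 2 * g + 1 → a j = .s) :
    ∃ p : Par, ∃ K : ℤ, (∃ x, p.orb a x n < x + 2 * π * K) ∧
      ∃ y, y + 2 * π * K < p.orb a y n := by
  obtain ⟨i₀, g, hi₀, hg, hgs⟩ := hgap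
  -- the sequence read from `i₀`
  set a' : ℕ → Letter := fun t => a (i₀ + t) with ha'
  have ha'0 : a' 0 = .c := hi₀
  have hper : ∀ i, a' (i + n) = a' i := fun i => by
    simp only [ha', ← Nat.add_assoc]
    exact ha _
  have hper2 : (fun t => a' (n + t)) = a' := by
    funext t
    rw [Nat.add_comm n t]
    exact hper t
  have hmul : ∀ m i, a (i + m * n) = a i := by
    intro m i
    induction m with
    | zero => simp
    | succ m ih => rw [Nat.succ_mul, ← Nat.add_assoc, ha, ih]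
  -- the total number of half turns
  have hnE : Even (bb a' n) := bb_even_of_c (by
    have := hper 0
    rw [Nat.zero_add] at this
    rw [this, ha'0])
  obtain ⟨K, hK⟩ := hnE
  have hshift : ∀ i, Even (bb a' i) → bb (fun t => a' (i + t)) n = K + K := by
    intro i hi
    have e1 := bb_add hi n
    have e2 := bb_add (a := a') (i := n) ⟨K, hK⟩ i
    rw [hper2, Nat.add_comm n i, e1] at e2
    omega
  have hshift' : ∀ i, Even (bb a' i) → ∀ j, Even (bb (fun t => a' (i + t)) j) ↔
      Even (bb a' (i + j)) := by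
    intro i hi j
    rw [bb_add hi j, Nat.even_add]
    tauto
  -- the first rotation: the last step is a gain
  have hbg : ∀ j, j ≤ 2 * g → bb a' j = j := by
    intro j
    induction j with
    | zero => intro _; rfl
    | succ j ih =>
      intro hj
      have h5 : a' (j + 1) = .s := hgs (i₀ + (j + 1)) (by omega) (by omega)
      rw [bb_s h5, ih (by omega)]
  have hj1 : a' (2 * g + 1) = .c := by
    simp only [ha', ← Nat.add_assoc]
    exact hg
  have hj1e : Even (bb a' (2 * g + 1)) := bb_even_of_c hj1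
  obtain ⟨k, rfl⟩ : ∃ k, n = k + 1 := ⟨n - 1, by omega⟩
  have h1e : Even (bb (fun t => a' (2 * g + 1 + t)) k) := by
    rw [hshift' _ hj1e, show 2 * g + 1 + k = k + 1 + 2 * g by ring,
      bb_add (a := a') (i := k + 1) ⟨K, hK⟩ (2 * g), hper2, hbg _ le_rfl, hK]
    exact ⟨K + g, by ring⟩
  have h1c : (fun t => a' (2 * g + 1 + t)) (k + 1) = .c := by
    show a' (2 * g + 1 + (k + 1)) = .c
    rw [hper]
    exact hj1
  -- the second rotation: the last step comes from an odd position
  have hexs : ∃ m, a' m = .s := by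
    obtain ⟨i, hi⟩ := hs
    refine ⟨i + i₀ * (k + 1) - i₀, ?_⟩
    have h3 : i₀ ≤ i + i₀ * (k + 1) := by
      have : i₀ * 1 ≤ i₀ * (k + 1) := Nat.mul_le_mul_left _ (by omega)
      omega
    simp only [ha']
    rw [Nat.add_sub_cancel' h3, hmul, hi]
  classical
  let m := Nat.find hexs
  have hm : a' m = .s := Nat.find_spec hexs
  have hm0 : m ≠ 0 := by
    intro h
    rw [h, ha'0] at hm
    cases hm
  obtain ⟨q, hq⟩ : ∃ q, m = q + 1 := ⟨m - 1, by omega⟩
  have hqc : a' q = .c := by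
    cases h : a' q
    · rfl
    · exact absurd h (Nat.find_min hexs (by show q < m; omega))
  have hqe : Even (bb a' q) := bb_even_of_c hqc
  rw [hq] at hm
  have hmo : ¬ Even (bb a' (q + 1)) := by
    rw [bb_s hm]
    exact Nat.even_add_one.not.mpr (by simpa using hqe)
  have hj2e : Even (bb a' (q + 2)) := by
    rw [show q + 2 = (q + 1) + 1 from rfl, bb_odd hmo]
    exact (Nat.not_even_iff_odd.mp hmo).add_one
  have h2o : ¬ Even (bb (fun t => a' (q + 2 + t)) k) := by
    rw [hshift' _ hj2e, show q + 2 + k = k + 1 + (q + 1) by ring,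
      bb_add (a := a') (i := k + 1) ⟨K, hK⟩ (q + 1), hper2, hK]
    intro h
    rw [Nat.even_add] at h
    exact hmo (h.mp ⟨K, rfl⟩)
  -- choice of the annulus
  have hup := upper_final (fun t => a' (q + 2 + t)) h2o
  have e2 : ∀ᶠ r in 𝓝[<] (1 : ℝ), r < 1 := self_mem_nhdsWithin
  have e3 : ∀ᶠ r in 𝓝[<] (1 : ℝ), 0 < r :=
    (lt_mem_nhds one_pos).filter_mono nhdsWithin_le_nhds
  obtain ⟨r, hr, hr1, hr0⟩ := (hup.and (e2.and e3)).exists
  have hlow := lower_final (fun t => a' (2 * g + 1 + t)) hr0 hr1 h1e h1c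
  obtain ⟨κ, hκ1, hκ2⟩ := (hr.and hlow).exists
  rw [hshift _ hj2e] at hκ1
  rw [hshift _ hj1e] at hκ2
  refine ⟨par κ r, K, ?_, ?_⟩
  · apply Par.lt_of_rotate_lt (par κ r) hn ha (i₀ + (q + 2)) (x := 1)
    have e1 : (fun t => a (i₀ + (q + 2) + t)) = fun t => a' (q + 2 + t) := by
      funext t
      simp only [ha', Nat.add_assoc]
    rw [e1]
    push_cast at hκ1 ⊢
    linarith
  · apply Par.gt_of_rotate_gt (par κ r) hn ha (i₀ + (2 * g + 1)) (x := 1)
    have e1 : (fun t => a (i₀ + (2 * g + 1) + t)) = fun t => a' (2 * g + 1 + t) := by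
      funext t
      simp only [ha', Nat.add_assoc]
    rw [e1]
    push_cast at hκ2 ⊢
    linarith

end Pool.Agent.Work.MP_68e044_gt
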