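import Pool.Agent.Work.MP_68e044_gt.Orbit

set_option autoImplicit false

/-!
# The porisms for constant and alternating words
-/

namespace Pool.Agent.Work.MP_68e044_gt

open Real

namespace Par

variable (p : Par)

lemma continuous_N : Continuous p.N := by
  unfold N
  fun_prop

lemma continuous_Q : Continuous p.Q := by
  unfold Q
  fun_prop

lemma continuous_P : Continuous p.P := by
  unfold P
  fun_prop

lemma N_add (x : ℝ) : p.N (x + 2 * π) = p.N x := by
  simp only [N, Real.cos_add_two_pi]

lemma Q_add (x : ℝ) : p.Q (x + 2 * π) = p.Q x := by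
  simp only [Q, Real.cos_add_two_pi]

lemma P_add (x : ℝ) : p.P (x + 2 * π) = p.P x := by
  simp only [P, Real.cos_add_two_pi]

lemma hasDerivAt_orb {a : ℕ → Letter} (v : Letter → ℝ → ℝ) (hp : ∀ l x, 0 < v l x)
    (hd : ∀ i x, HasDerivAt (p.f (a i) (a (i + 1)))
      (v (a (i + 1)) (p.f (a i) (a (i + 1)) x) / v (a i) x) x) (i : ℕ) (x : ℝ) :
    HasDerivAt (fun x => p.orb a x i) (v (a i) (p.orb a x i) / v (a 0) x) x := by
  induction i with
  | zero =>
    have h1 : v (a 0) (p.orb a x 0) / v (a 0) x = 1 := div_self (hp _ _).ne'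
    rw [h1]
    exact hasDerivAt_id x
  | succ i ih =>
    have h1 := HasDerivAt.comp x (hd i (p.orb a x i)) ih
    have h2 : v (a (i + 1)) (p.f (a i) (a (i + 1)) (p.orb a x i)) / v (a i) (p.orb a x i) *
        (v (a i) (p.orb a x i) / v (a 0) x) = v (a (i + 1)) (p.orb a x (i + 1)) / v (a 0) x := by
      have g1 := (hp (a i) (p.orb a x i)).ne'
      have g2 := (hp (a 0) x).ne'
      rw [orb]
      field_simp
    rw [h2] at h1
    exact h1

/-- the abstract porism: an invariant measure with continuous positive density -/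
lemma porism_aux {a : ℕ → Letter} (v : Letter → ℝ → ℝ) (hc : ∀ l, Continuous (v l))
    (hp : ∀ l x, 0 < v l x) (hper : ∀ l x, v l (x + 2 * π) = v l x)
    (hd : ∀ i x, HasDerivAt (p.f (a i) (a (i + 1)))
      (v (a (i + 1)) (p.f (a i) (a (i + 1)) x) / v (a i) x) x)
    {n : ℕ} (hn : a n = a 0) {x : ℝ} {k : ℤ} (h : p.orb a x n = x + 2 * π * k) (y : ℝ) :
    p.orb a y n = y + 2 * π * k := by
  set w : ℝ → ℝ := fun t => 1 / v (a 0) t with hw
  have hwc : Continuous w := continuous_const.div (hc _) (fun t => (hp _ t).ne')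
  have hwp : ∀ t, 0 < w t := fun t => one_div_pos.mpr (hp _ t)
  set ν : ℝ → ℝ := fun t => ∫ s in (0:ℝ)..t, w s with hν
  have hνd : ∀ t, HasDerivAt ν (w t) t := fun t => (hwc.integral_hasStrictDerivAt 0 t).hasDerivAt
  have hνm : StrictMono ν := by
    apply strictMono_of_deriv_pos
    intro t
    rw [(hνd t).deriv]
    exact hwp t
  have hperk : ∀ t, w (t + 2 * π * k) = w t := by
    intro t
    have h1 : Function.Periodic (v (a 0)) (2 * π) := hper (a 0)
    have h2 := h1.int_mul k t
    simp only [hw]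
    rw [mul_comm (2 * π) (k : ℝ), h2]
  have hG : ∀ t, HasDerivAt (fun t => ν (p.orb a t n) - ν (t + 2 * π * k)) 0 t := by
    intro t
    have h1 := HasDerivAt.comp t (hνd (p.orb a t n)) (p.hasDerivAt_orb v hp hd n t)
    have h2 := HasDerivAt.comp t (hνd (t + 2 * π * k)) ((hasDerivAt_id t).add_const (2 * π * k))
    have h3 := h1.sub h2
    have h4 : w (p.orb a t n) * (v (a n) (p.orb a t n) / v (a 0) t) -
        w (t + 2 * π * k) * 1 = 0 := by
      rw [hperk, hn]
      simp only [hw]
      have g1 := (hp (a 0) (p.orb a t n)).ne'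
      have g2 := (hp (a 0) t).ne'
      field_simp
      ring
    rw [h4] at h3
    exact h3
  have hconst := is_const_of_deriv_eq_zero (fun t => (hG t).differentiableAt)
    (fun t => (hG t).deriv) y x
  rw [h, sub_self, sub_eq_zero] at hconst
  exact hνm.injective hconst

theorem porism {a : ℕ → Letter}
    (ha : (∀ i, a i = .c) ∨ (∀ i, a i = .s) ∨ (∀ i, a (i + 1) ≠ a i))
    {n : ℕ} (hn : a n = a 0) {x : ℝ} {k : ℤ} (h : p.orb a x n = x + 2 * π * k) (y : ℝ) :
    p.orb a y n = y + 2 * π * k := by
  rcases ha with ha | ha | ha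
  · refine p.porism_aux (fun _ => p.N) (fun _ => p.continuous_N) (fun _ => p.N_pos)
      (fun _ => p.N_add) (fun i x => ?_) hn h y
    rw [ha i, ha (i + 1)]
    exact p.hasDerivAt_f_cc x
  · refine p.porism_aux (fun _ x => √(p.P x * p.Q x))
      (fun _ => (p.continuous_P.mul p.continuous_Q).sqrt)
      (fun _ x => Real.sqrt_pos.mpr (mul_pos (p.P_pos x) (p.Q_pos x)))
      (fun _ x => by rw [p.P_add, p.Q_add]) (fun i x => ?_) hn h y
    rw [ha i, ha (i + 1)]
    exact p.hasDerivAt_f_ss x
  · refine p.porism_aux (fun l x => match l with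
        | .c => √(p.Q x * p.N x)
        | .s => √(p.W * p.P x)) ?_ ?_ ?_ (fun i x => ?_) hn h y
    · intro l
      cases l
      · exact (p.continuous_Q.mul p.continuous_N).sqrt
      · exact (continuous_const.mul p.continuous_P).sqrt
    · intro l x
      cases l
      · exact Real.sqrt_pos.mpr (mul_pos (p.Q_pos x) (p.N_pos x))
      · exact Real.sqrt_pos.mpr (mul_pos p.W_pos (p.P_pos x))
    · intro l x
      cases l
      · show √(p.Q (x + 2 * π) * p.N (x + 2 * π)) = √(p.Q x * p.N x)
        rw [p.Q_add, p.N_add]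
      · show √(p.W * p.P (x + 2 * π)) = √(p.W * p.P x)
        rw [p.P_add]
    · have h1 := ha i
      cases h2 : a i <;> cases h3 : a (i + 1)
      · exact absurd (h3.trans h2.symm) h1
      · exact p.hasDerivAt_f_cs x
      · exact p.hasDerivAt_f_sc x
      · exact absurd (h3.trans h2.symm) h1

end Par

end Pool.Agent.Work.MP_68e044_gt
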