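import Mathlib
import Pool.Agent.Work.MP_68e044_gt.Porism
import Pool.Agent.Work.MP_68e044_gt.NonAlt
import Pool.Agent.Work.MP_68e044_gt.Alt
import Pool.Agent.Work.MP_68e044_gt.GeoChain

/-!
# Assembly: powers of closure sequences are closure sequences
-/

namespace Pool.Agent.Work.MP_68e044_gt

open Real

/-- If two letters `c` are at an odd distance, then some two consecutive letters `c` are at an odd
distance. -/
theorem asm_exists_gap {a : ℕ → Letter} : ∀ (t : ℕ) (i : ℕ), Odd t → a i = .c →
    a (i + t) = .c → ∃ i g : ℕ, a i = .c ∧ a (i + 2 * g + 1) = .c ∧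
      ∀ j, i < j → j < i + 2 * g + 1 → a j = .s := by
  intro t
  induction t using Nat.strong_induction_on with
  | _ t ih =>
    intro i ht hi hit
    by_cases h : ∃ j, i < j ∧ j < i + t ∧ a j = .c
    · obtain ⟨j, h1, h2, h3⟩ := h
      obtain ⟨u, rfl⟩ := Nat.exists_eq_add_of_lt h1
      rcases Nat.even_or_odd (u + 1) with he | ho
      · have e : i + u + 1 + (t - (u + 1)) = i + t := by omega
        refine ih (t - (u + 1)) (by omega) (i + u + 1) ?_ h3 (by rw [e]; exact hit)
        exact Nat.Odd.sub_even (by omega) ht he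
      · exact ih (u + 1) (by omega) i ho hi h3
    · obtain ⟨g, rfl⟩ := ht
      refine ⟨i, g, hi, hit, fun j h1 h2 => ?_⟩
      by_contra h3
      apply h
      refine ⟨j, h1, h2, ?_⟩
      cases hj : a j with
      | c => rfl
      | s => exact absurd hj h3

/-- the classification at the level of the letter sequence -/
theorem letter_cases {a : ℕ → Letter} {n : ℕ} (hn : 0 < n) (ha : ∀ i, a (i + n) = a i) :
    ((∀ i, a i = .c) ∨ (∀ i, a i = .s) ∨ (∀ i, a (i + 1) ≠ a i)) ∨
    ∃ p : Par, ∃ K : ℤ, (∃ x, p.orb a x n < x + 2 * π * K) ∧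
      ∃ y, y + 2 * π * K < p.orb a y n := by
  have hper : ∀ k i, a (i + n * k) = a i := by
    intro k
    induction k with
    | zero => intro i; rfl
    | succ k ih =>
      intro i
      rw [Nat.mul_succ, ← Nat.add_assoc, ha, ih]
  by_cases hC : ∀ i, a i = .c
  · exact Or.inl (Or.inl hC)
  by_cases hS : ∀ i, a i = .s
  · exact Or.inl (Or.inr (Or.inl hS))
  push Not at hC hS
  have hs : ∃ i, a i = .s := by
    obtain ⟨i, hi⟩ := hC
    refine ⟨i, ?_⟩
    cases h : a i with
    | c => exact absurd h hi
    | s => rfl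
  have hc : ∃ i, a i = .c := by
    obtain ⟨i, hi⟩ := hS
    refine ⟨i, ?_⟩
    cases h : a i with
    | c => rfl
    | s => exact absurd h hi
  by_cases hgap : ∃ i g : ℕ, a i = .c ∧ a (i + 2 * g + 1) = .c ∧
      ∀ j, i < j → j < i + 2 * g + 1 → a j = .s
  · exact Or.inr (nonAlt_signs hn ha hs hgap)
  obtain ⟨i0, hi0⟩ := hc
  have hodd : ∀ t, Odd t → a (i0 + t) = .s := by
    intro t ht
    cases h : a (i0 + t) with
    | c => exact absurd (asm_exists_gap t i0 ht hi0 h) hgap
    | s => rfl
  have hneven : Even n := by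
    rcases Nat.even_or_odd n with h | h
    · exact h
    · have h1 := hodd n h
      rw [ha, hi0] at h1
      exact absurd h1 (by decide)
  obtain ⟨K, hK⟩ := hneven
  have hn2 : n = 2 * K := by omega
  have hK0 : 0 < K := by omega
  have hs0 : ∀ i, (fun t => a (i0 + 1 + t)) (2 * i) = .s := by
    intro i
    have := hodd (1 + 2 * i) ⟨i, by ring⟩
    rw [← Nat.add_assoc] at this
    exact this
  have hc0 : ∃ i, (fun t => a (i0 + 1 + t)) (2 * i + 1) = .c := by
    refine ⟨K - 1, ?_⟩
    have e : i0 + 1 + (2 * (K - 1) + 1) = i0 + n := by omega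
    change a (i0 + 1 + (2 * (K - 1) + 1)) = .c
    rw [e, ha, hi0]
  by_cases hs1 : ∃ i, (fun t => a (i0 + 1 + t)) (2 * i + 1) = .s
  · right
    have hper' : ∀ i, (fun t => a (i0 + 1 + t)) (i + 2 * K) = (fun t => a (i0 + 1 + t)) i := by
      intro i
      change a (i0 + 1 + (i + 2 * K)) = a (i0 + 1 + i)
      rw [← Nat.add_assoc, ← hn2, ha]
    obtain ⟨p, M, ⟨x, hx⟩, ⟨y, hy⟩⟩ := alt_signs (a := fun t => a (i0 + 1 + t)) hK0 hper' hs0 hc0 hs1
    rw [← hn2] at hx hy
    exact ⟨p, M, p.lt_of_rotate_lt hn ha (i0 + 1) hx, p.gt_of_rotate_gt hn ha (i0 + 1) hy⟩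
  · left; right; right
    have hc1 : ∀ i, (fun t => a (i0 + 1 + t)) (2 * i + 1) = .c := by
      intro i
      cases h : (fun t => a (i0 + 1 + t)) (2 * i + 1) with
      | c => rfl
      | s => exact absurd ⟨i, h⟩ hs1
    intro i
    have hle : i0 + 1 ≤ i + n * (i0 + 1) := by nlinarith
    obtain ⟨t, ht⟩ := Nat.exists_eq_add_of_le hle
    have e0 : a i = (fun t => a (i0 + 1 + t)) t := by
      change a i = a (i0 + 1 + t)
      rw [← ht, hper]
    have e1 : a (i + 1) = (fun t => a (i0 + 1 + t)) (t + 1) := by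
      change a (i + 1) = a (i0 + 1 + (t + 1))
      have : i0 + 1 + (t + 1) = i + 1 + n * (i0 + 1) := by omega
      rw [this, hper]
    rw [e0, e1]
    rcases Nat.even_or_odd' t with ⟨u, rfl | rfl⟩
    · rw [hs0 u, hc1 u]
      decide
    · have : 2 * u + 1 + 1 = 2 * (u + 1) := by ring
      rw [this, hs0 (u + 1), hc1 u]
      decide

theorem asm_length_wordPow (w : List Letter) (m : ℕ) : (wordPow w m).length = m * w.length := by
  unfold wordPow
  rw [List.length_flatten, List.map_replicate, List.sum_replicate, smul_eq_mul]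

theorem asm_getD_wordPow (w : List Letter) (m k : ℕ) (hk : k < m * w.length) :
    (wordPow w m).getD k .c = w.getD (k % w.length) .c := by
  induction m generalizing k with
  | zero => simp at hk
  | succ m ih =>
    have e : wordPow w (m + 1) = w ++ wordPow w m := by
      unfold wordPow
      rw [List.replicate_succ, List.flatten_cons]
    rw [e]
    by_cases h : k < w.length
    · rw [List.getD_append _ _ _ _ h, Nat.mod_eq_of_lt h]
    · push Not at h
      rw [List.getD_append_right _ _ _ _ h, ih (k - w.length), ← Nat.mod_eq_sub_mod h]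
      have : (m + 1) * w.length = m * w.length + w.length := by ring
      omega

theorem asm_letterAt_wordPow (w : List Letter) (hw : 0 < w.length) (m : ℕ) (hm : 1 ≤ m) :
    letterAt (wordPow w m) = letterAt w := by
  ext i
  unfold letterAt
  rw [asm_length_wordPow, asm_getD_wordPow w m _ (Nat.mod_lt _ (Nat.mul_pos hm hw)),
    Nat.mod_mul_left_mod]

theorem asm_letterAt_add_length (w : List Letter) (i : ℕ) :
    letterAt w (i + w.length) = letterAt w i := by
  unfold letterAt
  rw [Nat.add_mod_right]

theorem main (w : List Letter) (hw : IsClosureSeq w) (m : ℕ) (hm : 1 ≤ m) :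
    IsClosureSeq (wordPow w m) := by
  have hlen := two_le_length_of_isClosureSeq hw
  have hn : 0 < w.length := by omega
  obtain ⟨h1, p₀, x₀, k₀, h2⟩ := (isClosureSeq_iff w hlen).1 hw
  have ha : ∀ i, letterAt w (i + w.length) = letterAt w i := asm_letterAt_add_length w
  have hlen' : 2 ≤ (wordPow w m).length := by
    rw [asm_length_wordPow]
    nlinarith
  rcases letter_cases hn ha with hcase | ⟨p, K, ⟨x, hx⟩, ⟨y, hy⟩⟩
  · rw [isClosureSeq_iff _ hlen', asm_letterAt_wordPow w hn m hm, asm_length_wordPow]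
    have hend : ∀ k, letterAt w (k * w.length) = letterAt w 0 := by
      intro k
      induction k with
      | zero => rw [Nat.zero_mul]
      | succ k ih => rw [Nat.succ_mul, ha, ih]
    refine ⟨?_, p₀, x₀, m * k₀, ?_⟩
    · rintro p ⟨x, k, hx⟩ y
      exact ⟨k, p.porism hcase (hend m) hx y⟩
    · have h3 : letterAt w w.length = letterAt w 0 := by
        have := hend 1
        rwa [Nat.one_mul] at this
      exact p₀.orb_mul ha (fun y => p₀.porism hcase h3 h2 y) m x₀
  · exfalso
    have hcont : Continuous (fun t => p.orb (letterAt w) t w.length - t - 2 * π * K) :=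
      ((p.orb_continuous _ _).sub continuous_id).sub continuous_const
    have hx' : p.orb (letterAt w) x w.length - x - 2 * π * K < 0 := by linarith
    have hy' : 0 < p.orb (letterAt w) y w.length - y - 2 * π * K := by linarith
    obtain ⟨z, hz⟩ := mem_range_of_exists_le_of_exists_ge hcont ⟨x, hx'.le⟩ ⟨y, hy'.le⟩
    have hz' : p.orb (letterAt w) z w.length - z - 2 * π * K = 0 := hz
    have hall := h1 p ⟨z, K, by linarith⟩
    have hmin : 0 < min (p.orb (letterAt w) y w.length - y - 2 * π * K) π :=
      lt_min hy' Real.pi_pos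
    obtain ⟨z', hz1⟩ := mem_range_of_exists_le_of_exists_ge
      (c := min (p.orb (letterAt w) y w.length - y - 2 * π * K) π) hcont
      ⟨x, (hx'.trans hmin).le⟩ ⟨y, min_le_left _ _⟩
    have hz2 : p.orb (letterAt w) z' w.length - z' - 2 * π * K =
      min (p.orb (letterAt w) y w.length - y - 2 * π * K) π := hz1
    obtain ⟨k, hk⟩ := hall z'
    have h5 : 2 * π * ((k - K : ℤ) : ℝ) =
        min (p.orb (letterAt w) y w.length - y - 2 * π * K) π := by
      rw [← hz2, hk]
      push_cast
      ring
    have h6 : min (p.orb (letterAt w) y w.length - y - 2 * π * K) π ≤ π := min_le_right _ _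
    rw [← h5] at h6 hmin
    have hpi := Real.pi_pos
    have h7 : (0 : ℝ) < ((k - K : ℤ) : ℝ) := by
      by_contra hneg
      push Not at hneg
      nlinarith
    have h8 : (1 : ℝ) ≤ ((k - K : ℤ) : ℝ) := by
      have : 0 < k - K := by exact_mod_cast h7
      exact_mod_cast this
    nlinarith

end Pool.Agent.Work.MP_68e044_gt
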